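import Pool.Agent.H29.FK.Dir
import Pool.Agent.H99.NC.Plane

/-!
Bernoulli percolation as an infinite product measure; the slab hypothesis and the subcritical case.
-/

set_option autoImplicit false
set_option linter.unusedSectionVars false
open Finset

namespace Pool.Agent.H29.FK

open Pool.Agent.H99.NC Pool.Agent.H75.Perc
open Classical MeasureTheory Filter Topology

variable {d : ℕ}

theorem bern_eq (d : ℕ) (p : ℝ) : bern d p = Measure.infinitePi (fun _ : Ed d => bernM p) := rfl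

theorem bern_prob {p : ℝ} (p0 : 0 ≤ p) (p1 : p ≤ 1) : IsProbabilityMeasure (bern d p) := by
  have := bernM_prob p0 p1
  rw [bern_eq]
  infer_instance

theorem bern_tr {p : ℝ} (p0 : 0 ≤ p) (p1 : p ≤ 1) (R : Finset (Ed d))
    (A : Finset (Ed d) → Prop) :
    (bern d p).real {ω | A (tr R ω)} = PrP (fun _ => p) R A := by
  have := bernM_prob p0 p1
  have h := infinitePi_tr (ν := fun _ : Ed d => bernM p) (E := R) (φ := fun e => e)
    (fun _ _ _ _ h => h) A
  have h2 : (fun e : Ed d => ((bernM p) {true}).toReal) = fun _ => p := by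
    funext e
    rw [bernM_true, ENNReal.toReal_ofReal p0]
  rw [h2] at h
  rw [← h, bern_eq, measureReal_def]
  congr 3

/-! ### Leaving a box -/

/-- A path in `W` which leaves the finite set `Λ` touches its boundary. -/
theorem leave {W : Set (Fin d → ℤ)} {Λ : Finset (Fin d → ℤ)}
    {ω : Cfg d} {x v : Fin d → ℤ} (hx : x ∈ Λ) (hv : v ∉ Λ)
    (h : Relation.ReflTransGen (fun a b => Opn ω a b ∧ a ∈ W ∧ b ∈ W) x v) :
    Rch ((tr ((Eb Λ).subtype NN) ω).map (Function.Embedding.subtype _)) (bd W Λ) x := by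
  set σ := (tr ((Eb Λ).subtype NN) ω).map (Function.Embedding.subtype _) with hσ
  have key : ∀ v, Relation.ReflTransGen (fun a b => Opn ω a b ∧ a ∈ W ∧ b ∈ W) x v →
      (∃ b, b ∈ bd W Λ ∧ Relation.ReflTransGen (fun a b => s(a, b) ∈ σ) x b) ∨
      (v ∈ Λ ∧ Relation.ReflTransGen (fun a b => s(a, b) ∈ σ) x v) := by
    intro v hv
    induction hv with
    | refl => exact Or.inr ⟨hx, Relation.ReflTransGen.refl⟩
    | @tail v w _ hvw ih =>
      rcases ih with ih | ⟨h1, h2⟩
      · exact Or.inl ih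
      · obtain ⟨⟨h3, h4⟩, h5, h6⟩ := hvw
        by_cases hw : w ∈ Λ
        · refine Or.inr ⟨hw, h2.tail ?_⟩
          rw [hσ, Finset.mem_map]
          refine ⟨⟨s(v, w), h3⟩, ?_, rfl⟩
          unfold tr
          rw [Finset.mem_filter, Finset.mem_subtype]
          exact ⟨mem_Eb'.2 ⟨h3, h1, hw⟩, h4⟩
        · exact Or.inl ⟨v, mem_bd.2 ⟨h1, w, h6, hw, h3⟩, h2⟩
  rcases key v h with ⟨b, hb, h1⟩ | ⟨h1, _⟩
  · exact ⟨b, hb, rtg_symm h1⟩
  · exact absurd h1 hv

theorem slabClus_notMem {j : Fin d} {k : ℕ} {ω : Cfg d} {x : Fin d → ℤ} (hx : x ∉ slab j k) :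
    ¬ (slabClus j k ω x).Infinite := by
  intro h
  apply h
  refine Set.Finite.subset (Set.finite_singleton x) ?_
  intro y hy
  have hy' : Relation.ReflTransGen (fun a b => Opn ω a b ∧ a ∈ slab j k ∧ b ∈ slab j k) x y := hy
  rcases Relation.ReflTransGen.cases_head hy' with h1 | ⟨z, hz, _⟩
  · rw [← h1]; exact Set.mem_singleton x
  · exact absurd hz.2.1 hx

theorem self_mem_bx {j : Fin d} {k : ℕ} {u0 : Fin d → ℤ} (hu0 : u0 ∈ slab j k) (n : ℕ) :
    u0 ∈ bx j k u0 n := mem_bx.2 ⟨hu0, fun i _ => by omega⟩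

theorem q1_of_slab {p : ℝ} (p0 : 0 ≤ p) (p1 : p ≤ 1) {j : Fin d} {k : ℕ}
    (h : bern d p {ω | ∃ x, (slabClus j k ω x).Infinite} ≠ 0) :
    ∃ u0 ∈ slab j k, ∃ θ : ℝ, 0 < θ ∧ ∀ n, θ ≤ q1 p (slab j k) (bx j k u0 n) u0 := by
  have := bern_prob (d := d) p0 p1
  have h1 : ∃ u0, bern d p {ω | (slabClus j k ω u0).Infinite} ≠ 0 := by
    by_contra hcon
    push Not at hcon
    apply h
    have : {ω : Cfg d | ∃ x, (slabClus j k ω x).Infinite} =
        ⋃ x, {ω | (slabClus j k ω x).Infinite} := by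
      ext ω
      rw [Set.mem_iUnion]
      rfl
    rw [this]
    exact measure_iUnion_null hcon
  obtain ⟨u0, hu0⟩ := h1
  have hu0s : u0 ∈ slab j k := by
    by_contra hcon
    apply hu0
    have : {ω : Cfg d | (slabClus j k ω u0).Infinite} = ∅ := by
      apply Set.eq_empty_of_forall_notMem
      intro ω hω
      exact slabClus_notMem hcon hω
    rw [this, measure_empty]
  refine ⟨u0, hu0s, (bern d p).real {ω | (slabClus j k ω u0).Infinite}, ?_, fun n => ?_⟩
  · have h2 : (bern d p).real {ω | (slabClus j k ω u0).Infinite} ≠ 0 := by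
      rwa [Ne, measureReal_eq_zero_iff]
    exact lt_of_le_of_ne measureReal_nonneg h2.symm
  · unfold q1
    rw [PrP_subtype (Eb (bx j k u0 n)) (fun e he => (mem_Eb.1 he).1), ← bern_tr p0 p1]
    apply measureReal_mono _ (measure_ne_top _ _)
    intro ω hω
    rw [Set.mem_ofPred_eq] at hω ⊢
    obtain ⟨v, hv, hv'⟩ := hω.exists_notMem_finset (bx j k u0 n)
    exact leave (self_mem_bx hu0s n) hv' hv

theorem slab_case {p q : ℝ} (p0 : 0 ≤ p) (p1 : p ≤ 1) (hq : 0 < q) {φ : Measure (Cfg d)}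
    (h : IsFK p q φ) (hd : 2 ≤ d) {j : Fin d} {k : ℕ}
    (hs : bern d (pmin p q) {ω | ∃ x, (slabClus j k ω x).Infinite} ≠ 0) :
    ∀ᵐ ω ∂φ, AtMostOne ω := by
  have hp := pmin_mem p0 p1 hq
  obtain ⟨u0, hu0, θ, hθ, hq1⟩ := q1_of_slab hp.1 hp.2 hs
  obtain ⟨c, hc, hS⟩ := stars_of_star hp.1 hp.2 hθ hd hu0 hq1
  exact unique_of_stars p0 p1 hq h hc hS hd

/-! ### The subcritical case -/

/-- cubes -/
noncomputable def cube (x : Fin d → ℤ) (n : ℕ) : Finset (Fin d → ℤ) :=
  Fintype.piFinset (fun i => Icc (x i - n) (x i + n))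

theorem mem_cube {x : Fin d → ℤ} {n : ℕ} {y : Fin d → ℤ} :
    y ∈ cube x n ↔ ∀ i, x i - n ≤ y i ∧ y i ≤ x i + n := by
  unfold cube
  rw [Fintype.mem_piFinset]
  simp only [Finset.mem_Icc]

theorem self_mem_cube (x : Fin d → ℤ) (n : ℕ) : x ∈ cube x n := mem_cube.2 fun i => by omega

theorem cube_mono (x : Fin d → ℤ) {m n : ℕ} (h : m ≤ n) : cube x m ⊆ cube x n := by
  intro y hy
  rw [mem_cube] at hy ⊢
  intro i
  have := hy i
  omega

/-- the event that `x` is connected to the boundary of the cube of radius `n` -/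
def Arms (x : Fin d → ℤ) (n : ℕ) (σ : Finset (Ed d)) : Prop :=
  Rch (σ.map (Function.Embedding.subtype _)) (bd Set.univ (cube x n)) x

theorem inc_Arms (x : Fin d → ℤ) (n : ℕ) : Inc (Arms x n) :=
  fun _ _ h hr => Rch.mono (Finset.map_subset_map.2 h) hr

/-- edges in the cube -/
noncomputable def Rc (x : Fin d → ℤ) (n : ℕ) : Finset (Ed d) := (Eb (cube x n)).subtype NN

theorem rch_rtg {R : Finset (Ed d)} {ω : Cfg d} {u v : Fin d → ℤ}
    (h : Relation.ReflTransGen
      (fun a b => s(a, b) ∈ (tr R ω).map (Function.Embedding.subtype _)) u v) :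
    Relation.ReflTransGen (Opn ω) u v := by
  have h1 : RchE (tr R ω) u v := ⟨u, Set.mem_singleton u, h⟩
  exact (RchE.rt (T := Set.univ) (fun e _ => Set.mem_univ e) h1).opn

theorem arms_infinite {x : Fin d → ℤ} {ω : Cfg d} (h : ∀ n, Arms x n (tr (Rc x n) ω)) :
    (clus ω x).Infinite := by
  intro hfin
  have h1 : ∃ n : ℕ, ∀ y ∈ clus ω x, y ∈ cube x n := by
    have h2 : ∀ y ∈ hfin.toFinset, ∃ n : ℕ, y ∈ cube x n := by
      intro y _
      refine ⟨∑ i, (y i - x i).natAbs, mem_cube.2 fun i => ?_⟩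
      have h3 : (y i - x i).natAbs ≤ ∑ i, (y i - x i).natAbs :=
        Finset.single_le_sum (f := fun i => (y i - x i).natAbs) (fun _ _ => Nat.zero_le _)
          (Finset.mem_univ i)
      omega
    choose! f hf using h2
    refine ⟨hfin.toFinset.sup f, fun y hy => ?_⟩
    have hy' : y ∈ hfin.toFinset := by rwa [Set.Finite.mem_toFinset]
    exact cube_mono x (Finset.le_sup (f := f) hy') (hf y hy')
  obtain ⟨n, hn⟩ := h1
  obtain ⟨b, hb, hr⟩ := h (n + 1)
  have hb1 : b ∈ clus ω x := rtg_opn_symm (rch_rtg hr)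
  obtain ⟨_, w, _, hw, hbw⟩ := mem_bd.1 hb
  apply hw
  rw [mem_cube]
  intro i
  have h2 := mem_cube.1 (hn b hb1) i
  obtain ⟨l, h3, h4⟩ := hbw.coord
  by_cases hil : i = l
  · subst hil
    push_cast
    omega
  · have := h3 i hil
    push_cast
    omega

theorem arms_of_infinite {x : Fin d → ℤ} {ω : Cfg d} (h : (clus ω x).Infinite) (n : ℕ) :
    Arms x n (tr (Rc x n) ω) := by
  obtain ⟨v, hv, hv'⟩ := h.exists_notMem_finset (cube x n)
  refine leave (W := Set.univ) (self_mem_cube x n) hv' ?_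
  have hv2 : Relation.ReflTransGen (Opn ω) x v := hv
  clear hv'
  induction hv2 with
  | refl => exact Relation.ReflTransGen.refl
  | tail h1 h2 ih => exact (ih h1).tail ⟨h2, Set.mem_univ _, Set.mem_univ _⟩

theorem arms_anti {x : Fin d → ℤ} {ω : Cfg d} {m n : ℕ} (hmn : m ≤ n)
    (h : Arms x n (tr (Rc x n) ω)) : Arms x m (tr (Rc x m) ω) := by
  obtain ⟨b, hb, hr⟩ := h
  have hb1 : Relation.ReflTransGen (Opn ω) x b := rtg_opn_symm (rch_rtg hr)
  obtain ⟨-, w, -, hw, hbw⟩ := mem_bd.1 hb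
  by_cases hbm : b ∈ cube x m
  · -- then `b` is a boundary vertex of the small cube; use the path in the large cube
    have key : ∀ v, Relation.ReflTransGen
        (fun a b => s(a, b) ∈ (tr (Rc x n) ω).map (Function.Embedding.subtype _)) x v →
        (∃ b, b ∈ bd Set.univ (cube x m) ∧ Relation.ReflTransGen
          (fun a b => s(a, b) ∈ (tr (Rc x m) ω).map (Function.Embedding.subtype _)) x b) ∨
        (v ∈ cube x m ∧ Relation.ReflTransGen
          (fun a b => s(a, b) ∈ (tr (Rc x m) ω).map (Function.Embedding.subtype _)) x v) := by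
      intro v hv
      induction hv with
      | refl => exact Or.inr ⟨self_mem_cube x m, Relation.ReflTransGen.refl⟩
      | @tail v w _ hvw ih =>
        rcases ih with ih | ⟨h1, h2⟩
        · exact Or.inl ih
        · obtain ⟨e, he, h3⟩ := Finset.mem_map.1 hvw
          have h3' : e.1 = s(v, w) := h3
          have hNN : NN s(v, w) := h3' ▸ e.2
          by_cases hwm : w ∈ cube x m
          · refine Or.inr ⟨hwm, h2.tail ?_⟩
            rw [Finset.mem_map]
            refine ⟨e, ?_, h3⟩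
            unfold tr at he ⊢
            rw [Finset.mem_filter] at he ⊢
            refine ⟨?_, he.2⟩
            unfold Rc
            rw [Finset.mem_subtype, h3']
            exact mem_Eb'.2 ⟨hNN, h1, hwm⟩
          · exact Or.inl ⟨v, mem_bd.2 ⟨h1, w, Set.mem_univ _, hwm, hNN⟩, h2⟩
    rcases key b (rtg_symm hr) with ⟨b', hb', h1⟩ | ⟨h1, h2⟩
    · exact ⟨b', hb', rtg_symm h1⟩
    · refine ⟨b, mem_bd.2 ⟨h1, w, Set.mem_univ _, fun hwm => hw (cube_mono x hmn hwm), hbw⟩,
        rtg_symm h2⟩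
  · refine leave (W := Set.univ) (self_mem_cube x m) hbm ?_
    clear hbm hb hr hbw hw
    induction hb1 with
    | refl => exact Relation.ReflTransGen.refl
    | tail h1 h2 ih => exact (ih).tail ⟨h2, Set.mem_univ _, Set.mem_univ _⟩

theorem arms_tendsto {p : ℝ} (p0 : 0 ≤ p) (p1 : p ≤ 1) (x : Fin d → ℤ)
    (h : bern d p {ω | (clus ω x).Infinite} = 0) :
    Tendsto (fun n => PrP (fun _ => p) (Rc x n) (Arms x n)) atTop (𝓝 0) := by
  have := bern_prob (d := d) p0 p1
  have h1 : Tendsto (fun n => bern d p {ω | Arms x n (tr (Rc x n) ω)}) atTop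
      (𝓝 (bern d p (⋂ n, {ω | Arms x n (tr (Rc x n) ω)}))) := by
    apply tendsto_measure_iInter_atTop
    · exact fun n => (meas_tr _ _).nullMeasurableSet
    · intro m n hmn ω hω
      exact arms_anti hmn hω
    · exact ⟨0, measure_ne_top _ _⟩
  have h2 : bern d p (⋂ n, {ω | Arms x n (tr (Rc x n) ω)}) = 0 := by
    refine measure_mono_null ?_ h
    intro ω hω
    rw [Set.mem_iInter] at hω
    exact arms_infinite hω
  rw [h2] at h1
  have h3 := (ENNReal.tendsto_toReal ENNReal.zero_ne_top).comp h1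
  rw [ENNReal.toReal_zero] at h3
  refine h3.congr fun n => ?_
  rw [← bern_tr p0 p1]
  rfl

theorem sub_case {p q : ℝ} (p0 : 0 ≤ p) (p1 : p ≤ 1) (hq : 0 < q) {φ : Measure (Cfg d)}
    (h : IsFK p q φ) (hs : bern d (pmax p q) {ω | ∃ x, (clus ω x).Infinite} = 0) :
    ∀ᵐ ω ∂φ, ∀ x, ¬ (clus ω x).Infinite := by
  have := h.prob
  have hp := pmax_mem p0 p1 hq
  rw [ae_all_iff]
  intro x
  rw [ae_iff]
  simp only [not_not]
  have h1 : bern d (pmax p q) {ω | (clus ω x).Infinite} = 0 := by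
    refine measure_mono_null ?_ hs
    intro ω hω
    rw [Set.mem_ofPred_eq] at hω ⊢
    exact ⟨x, hω⟩
  have h2 := arms_tendsto hp.1 hp.2 x h1
  have h3 : φ.real {ω | (clus ω x).Infinite} ≤ 0 := by
    refine ge_of_tendsto' h2 fun n => ?_
    have h4 := upper p0 p1 hq h (Rc x n) (Arms x n) (inc_Arms x n) Set.univ MeasurableSet.univ
      (Det.univ _)
    rw [Set.univ_inter, probReal_univ, mul_one] at h4
    refine le_trans (measureReal_mono ?_ (measure_ne_top _ _)) h4
    intro ω hω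
    exact arms_of_infinite hω n
  exact (measureReal_eq_zero_iff).1 (le_antisymm h3 measureReal_nonneg)

end Pool.Agent.H29.FK
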