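import Pool.Agent.H29.FK.Geo

/-!
Boxes in a slab, averaging over translations, the two-arm probability tends to zero.
-/

set_option autoImplicit false
set_option linter.unusedSectionVars false
open Finset

namespace Pool.Agent.H29.FK

open Pool.Agent.H99.NC Pool.Agent.H75.Perc
open Classical

variable {d : ℕ}

/-- boxes in the slab -/
noncomputable def bx (j : Fin d) (k : ℕ) (c : Fin d → ℤ) (n : ℕ) : Finset (Fin d → ℤ) :=
  Fintype.piFinset (fun i => if i = j then Icc (0 : ℤ) k else Icc (c i - n) (c i + n))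

theorem mem_bx {j : Fin d} {k : ℕ} {c : Fin d → ℤ} {n : ℕ} {x : Fin d → ℤ} :
    x ∈ bx j k c n ↔ (0 ≤ x j ∧ x j ≤ k) ∧ ∀ i, i ≠ j → c i - n ≤ x i ∧ x i ≤ c i + n := by
  unfold bx
  rw [Fintype.mem_piFinset]
  constructor
  · intro h
    constructor
    · have := h j
      rw [if_pos rfl, Finset.mem_Icc] at this
      exact this
    · intro i hi
      have := h i
      rw [if_neg hi, Finset.mem_Icc] at this
      exact this
  · rintro ⟨h1, h2⟩ i
    by_cases hi : i = j
    · rw [if_pos hi, Finset.mem_Icc, hi]; exact h1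
    · rw [if_neg hi, Finset.mem_Icc]; exact h2 i hi

theorem prod_ite_one (j : Fin d) (A B : ℕ) :
    ∏ i : Fin d, (if i = j then A else B) = A * B ^ (d - 1) := by
  rw [← Finset.mul_prod_erase univ _ (Finset.mem_univ j), if_pos rfl]
  congr 1
  rw [Finset.prod_congr rfl (g := fun _ => B)
    (fun i hi => if_neg (Finset.ne_of_mem_erase hi)), Finset.prod_const,
    Finset.card_erase_of_mem (Finset.mem_univ j), Finset.card_univ, Fintype.card_fin]

theorem card_bx (j : Fin d) (k : ℕ) (c : Fin d → ℤ) (n : ℕ) :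
    (bx j k c n).card = (k + 1) * (2 * n + 1) ^ (d - 1) := by
  unfold bx
  rw [Fintype.card_piFinset, ← prod_ite_one j]
  apply Finset.prod_congr rfl
  intro i _
  by_cases hi : i = j
  · rw [if_pos hi, if_pos hi, Int.card_Icc]
    omega
  · rw [if_neg hi, if_neg hi, Int.card_Icc]
    omega

theorem bx_sub (j : Fin d) (k : ℕ) (c : Fin d → ℤ) (n : ℕ) :
    ((bx j k c n : Finset (Fin d → ℤ)) : Set (Fin d → ℤ)) ⊆ slab j k := by
  intro x hx
  exact (mem_bx.1 (Finset.mem_coe.1 hx)).1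

theorem bx_mono {j : Fin d} {k : ℕ} {c c' : Fin d → ℤ} {n n' : ℕ}
    (h : ∀ i, i ≠ j → |c i - c' i| + n ≤ n') : bx j k c n ⊆ bx j k c' n' := by
  intro x hx
  rw [mem_bx] at hx ⊢
  refine ⟨hx.1, fun i hi => ?_⟩
  have h1 := h i hi
  have h2 := hx.2 i hi
  have h3 := abs_le.1 (le_refl |c i - c' i|)
  omega

/-- translations -/
def tra (z : Fin d → ℤ) : (Fin d → ℤ) ≃ (Fin d → ℤ) := Equiv.addRight z

@[simp] theorem tra_apply (z x : Fin d → ℤ) : tra z x = x + z := rfl

@[simp] theorem tra_symm (z x : Fin d → ℤ) : (tra z).symm x = x - z := by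
  unfold tra
  simp [Equiv.addRight, sub_eq_add_neg]

theorem sy_tra (z : Fin d → ℤ) : Sy (tra z) := by
  intro x y
  constructor
  · intro h
    obtain ⟨i, h1, h2⟩ := h.coord
    refine NN.of_coord (i := i) (fun l hl => ?_) ?_
    · have := h1 l hl
      simp only [tra_apply, Pi.add_apply] at this
      omega
    · simp only [tra_apply, Pi.add_apply] at h2
      omega
  · intro h
    obtain ⟨i, h1, h2⟩ := h.coord
    refine NN.of_coord (i := i) (fun l hl => ?_) ?_
    · have := h1 l hl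
      simp only [tra_apply, Pi.add_apply]
      omega
    · simp only [tra_apply, Pi.add_apply]
      omega

theorem tra_slab {j : Fin d} {k : ℕ} {z : Fin d → ℤ} (hz : z j = 0) :
    (tra z) '' (slab j k) = slab j k := by
  ext x
  constructor
  · rintro ⟨y, hy, rfl⟩
    unfold slab at hy ⊢
    simp only [Set.mem_ofPred_eq, tra_apply, Pi.add_apply] at hy ⊢
    omega
  · intro hx
    refine ⟨x - z, ?_, by simp⟩
    unfold slab at hx ⊢
    simp only [Set.mem_ofPred_eq, Pi.sub_apply] at hx ⊢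
    omega

theorem tra_bx {j : Fin d} {k : ℕ} {z : Fin d → ℤ} (hz : z j = 0) (c : Fin d → ℤ) (n : ℕ) :
    (bx j k c n).map (tra z).toEmbedding = bx j k (c + z) n := by
  ext x
  rw [Finset.mem_map_equiv, mem_bx, mem_bx, tra_symm]
  simp only [Pi.sub_apply, Pi.add_apply]
  rw [hz]
  constructor
  · rintro ⟨h1, h2⟩
    exact ⟨by omega, fun i hi => by have := h2 i hi; omega⟩
  · rintro ⟨h1, h2⟩
    exact ⟨by omega, fun i hi => by have := h2 i hi; omega⟩

theorem q1_tra {p : ℝ} {j : Fin d} {k : ℕ} {z : Fin d → ℤ} (hz : z j = 0) (c : Fin d → ℤ)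
    (n : ℕ) (v : Fin d → ℤ) :
    q1 p (slab j k) (bx j k (c + z) n) (v + z) = q1 p (slab j k) (bx j k c n) v := by
  have := q1_map (p := p) (sy_tra z) (slab j k) (bx j k c n) v
  rwa [tra_slab hz, tra_bx hz, tra_apply] at this

theorem q2_tra {p : ℝ} {j : Fin d} {k : ℕ} {z : Fin d → ℤ} (hz : z j = 0) (c : Fin d → ℤ)
    (n : ℕ) (e : Sym2 (Fin d → ℤ)) :
    q2 p (slab j k) (bx j k (c + z) n) (em (tra z) e) = q2 p (slab j k) (bx j k c n) e := by
  have := q2_map (p := p) (sy_tra z) (slab j k) (bx j k c n) e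
  rwa [tra_slab hz, tra_bx hz] at this

/-- the set of horizontal translations -/
noncomputable def ZZ (j : Fin d) (n : ℕ) : Finset (Fin d → ℤ) :=
  Fintype.piFinset (fun i => if i = j then {0} else Icc (-(n : ℤ)) n)

theorem mem_ZZ {j : Fin d} {n : ℕ} {z : Fin d → ℤ} :
    z ∈ ZZ j n ↔ z j = 0 ∧ ∀ i, i ≠ j → |z i| ≤ n := by
  unfold ZZ
  rw [Fintype.mem_piFinset]
  constructor
  · intro h
    constructor
    · have := h j
      rw [if_pos rfl, Finset.mem_singleton] at this
      exact this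
    · intro i hi
      have := h i
      rw [if_neg hi, Finset.mem_Icc] at this
      exact abs_le.2 this
  · rintro ⟨h1, h2⟩ i
    by_cases hi : i = j
    · rw [if_pos hi, Finset.mem_singleton, hi]; exact h1
    · rw [if_neg hi, Finset.mem_Icc]; exact abs_le.1 (h2 i hi)

theorem card_ZZ (j : Fin d) (n : ℕ) : (ZZ j n).card = (2 * n + 1) ^ (d - 1) := by
  unfold ZZ
  rw [Fintype.card_piFinset]
  have := prod_ite_one j 1 (2 * n + 1)
  rw [one_mul] at this
  rw [← this]
  apply Finset.prod_congr rfl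
  intro i _
  by_cases hi : i = j
  · rw [if_pos hi, if_pos hi, Finset.card_singleton]
  · rw [if_neg hi, if_neg hi, Int.card_Icc]
    omega

/-- the inner boundary of a box is small -/
theorem bd_bx {j : Fin d} {k : ℕ} {c : Fin d → ℤ} {n : ℕ} :
    bd (slab j k) (bx j k c (n + 1)) ⊆ bx j k c (n + 1) \ bx j k c n := by
  intro x hx
  obtain ⟨hx1, y, hy, hy1, hn⟩ := mem_bd.1 hx
  rw [Finset.mem_sdiff]
  refine ⟨hx1, fun hx2 => hy1 ?_⟩
  obtain ⟨i, h1, h2⟩ := hn.coord
  rw [mem_bx] at hx2 ⊢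
  refine ⟨hy, fun l hl => ?_⟩
  have h3 := hx2.2 l hl
  push_cast
  by_cases hli : l = i
  · subst hli
    omega
  · rw [h1 l hli]
    omega

theorem pow_diff (a : ℕ) (D : ℕ) : (a + 2) ^ D ≤ a ^ D + 2 * D * (a + 2) ^ (D - 1) := by
  induction D with
  | zero => simp
  | succ D ih =>
    rw [Nat.add_sub_cancel]
    rcases D with _ | D
    · simp
    · rw [Nat.add_sub_cancel] at ih
      calc (a + 2) ^ (D + 1 + 1) = a * (a + 2) ^ (D + 1) + 2 * (a + 2) ^ (D + 1) := by ring
        _ ≤ a * (a ^ (D + 1) + 2 * (D + 1) * (a + 2) ^ D) + 2 * (a + 2) ^ (D + 1) := by gcongr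
        _ = a ^ (D + 1 + 1) + 2 * (D + 1) * (a * (a + 2) ^ D) + 2 * (a + 2) ^ (D + 1) := by ring
        _ ≤ a ^ (D + 1 + 1) + 2 * (D + 1) * ((a + 2) * (a + 2) ^ D) + 2 * (a + 2) ^ (D + 1) := by
            gcongr; omega
        _ = a ^ (D + 1 + 1) + 2 * (D + 1 + 1) * (a + 2) ^ (D + 1) := by ring

theorem card_bd (j : Fin d) (k : ℕ) (c : Fin d → ℤ) (n : ℕ) :
    (bd (slab j k) (bx j k c (n + 1))).card ≤
      (k + 1) * (2 * (d - 1) * (2 * (n + 1) + 1) ^ (d - 1 - 1)) := by
  refine (Finset.card_le_card bd_bx).trans ?_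
  rw [Finset.card_sdiff_of_subset (bx_mono (fun i _ => by simp)), card_bx, card_bx,
    ← Nat.mul_sub]
  apply Nat.mul_le_mul_left
  have := pow_diff (2 * n + 1) (d - 1)
  have e : 2 * n + 1 + 2 = 2 * (n + 1) + 1 := by ring
  rw [e] at this
  omega

/-- averaging over translations -/
theorem q2_avg {p : ℝ} (p0 : 0 ≤ p) (p1 : p ≤ 1) (j : Fin d) (k r n : ℕ)
    {e : Sym2 (Fin d → ℤ)} (he : e ∈ Eb (bx j k 0 r)) :
    ((2 * n + 1) ^ (d - 1) : ℕ) * q2 p (slab j k) (bx j k 0 (2 * n + r)) e ≤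
      ∑ e' ∈ Eb (bx j k 0 (n + r)), q2 p (slab j k) (bx j k 0 (n + r)) e' := by
  have hNN := (mem_Eb.1 he).1
  have hin : ∀ z ∈ ZZ j n, em (tra z) e ∈ Eb (bx j k 0 (n + r)) := by
    intro z hz
    rw [mem_ZZ] at hz
    have h1 : Eb ((bx j k 0 r).map (tra z).toEmbedding) ⊆ Eb (bx j k 0 (n + r)) := by
      rw [tra_bx hz.1]
      apply Eb_mono
      apply bx_mono
      intro i hi
      have := hz.2 i hi
      simp only [Pi.add_apply, Pi.zero_apply, zero_add, sub_zero]
      push_cast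
      linarith
    apply h1
    rw [Eb_map (sy_tra z)]
    exact Finset.mem_map_of_mem _ he
  have hinj : Set.InjOn (fun z => em (tra z) e) (ZZ j n : Set (Fin d → ℤ)) := by
    intro z _ z' _ h
    induction e with
    | _ x y =>
      simp only [em_mk, tra_apply] at h
      rcases Sym2.eq_iff.1 h with ⟨h1, _⟩ | ⟨h1, h2⟩
      · exact add_left_cancel h1
      · exfalso
        apply hNN.ne
        funext i
        have h3 := congrFun h1 i
        have h4 := congrFun h2 i
        simp only [Pi.add_apply] at h3 h4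
        omega
  have hq : ∀ z ∈ ZZ j n, q2 p (slab j k) (bx j k 0 (2 * n + r)) e ≤
      q2 p (slab j k) (bx j k 0 (n + r)) (em (tra z) e) := by
    intro z hz
    have hz' := mem_ZZ.1 hz
    have h1 := q2_tra (p := p) (k := k) hz'.1 (-z) (n + r) e
    rw [neg_add_cancel] at h1
    rw [h1]
    apply q2_anti p0 p1
    · apply bx_mono
      intro i hi
      have := hz'.2 i hi
      simp only [Pi.neg_apply, Pi.zero_apply, sub_zero, abs_neg]
      push_cast
      linarith
    · exact bx_sub _ _ _ _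
    · rw [mem_Eb] at he ⊢
      refine ⟨he.1, fun y hy => ?_⟩
      refine bx_mono ?_ (he.2 y hy)
      intro i hi
      have := hz'.2 i hi
      simp only [Pi.neg_apply, Pi.zero_apply, zero_sub, neg_neg]
      push_cast
      linarith
  calc ((2 * n + 1) ^ (d - 1) : ℕ) * q2 p (slab j k) (bx j k 0 (2 * n + r)) e
      = ∑ z ∈ ZZ j n, q2 p (slab j k) (bx j k 0 (2 * n + r)) e := by
        rw [Finset.sum_const, card_ZZ, nsmul_eq_mul]
    _ ≤ ∑ z ∈ ZZ j n, q2 p (slab j k) (bx j k 0 (n + r)) (em (tra z) e) := Finset.sum_le_sum hq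
    _ = ∑ e' ∈ (ZZ j n).image (fun z => em (tra z) e),
          q2 p (slab j k) (bx j k 0 (n + r)) e' := by
        rw [Finset.sum_image hinj]
    _ ≤ _ := by
        apply Finset.sum_le_sum_of_subset_of_nonneg
        · intro e' he'
          obtain ⟨z, hz, rfl⟩ := Finset.mem_image.1 he'
          exact hin z hz
        · intro e' _ _
          exact PrP_nonneg (Pb.const p0 p1) _ _

end Pool.Agent.H29.FK
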