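import Pool.Agent.H29.FK.Gibbs

/-!
The climbing lemma: an event which survives infinitely many fresh trials has probability zero.
-/

set_option autoImplicit false
set_option linter.unusedSectionVars false
open Finset

namespace Pool.Agent.H29.FK

open Pool.Agent.H99.NC Pool.Agent.H75.Perc
open Classical MeasureTheory Filter Topology

variable {d : ℕ}

/-! ### Measurability -/

theorem meas_tr (R : Finset (Ed d)) : ∀ A : Finset (Ed d) → Prop,
    MeasurableSet {ω : Cfg d | A (tr R ω)} := by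
  induction R using Finset.induction_on with
  | empty =>
    intro A
    have : {ω : Cfg d | A (tr ∅ ω)} = {_ω | A ∅} := rfl
    rw [this]
    exact MeasurableSet.const _
  | insert e R he ih =>
    intro A
    have : {ω : Cfg d | A (tr (insert e R) ω)} =
        ({ω | ω e = true} ∩ {ω | A (insert e (tr R ω))}) ∪
          ({ω | ω e = false} ∩ {ω | A (tr R ω)}) := by
      ext ω
      simp only [Set.mem_union, Set.mem_inter_iff, Set.mem_ofPred_eq]
      by_cases h : ω e = true
      · rw [tr_insert_true h, h]; simp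
      · rw [tr_insert_false h]
        simp only [Bool.not_eq_true] at h
        rw [h]; simp
    rw [this]
    exact ((meas_edge e true).inter (ih (fun ω => A (insert e ω)))).union
      ((meas_edge e false).inter (ih A))

/-- connection in `n` steps -/
def stepN {V : Type*} (r : V → V → Prop) : ℕ → V → V → Prop
  | 0, a, b => a = b
  | n + 1, a, c => ∃ b, stepN r n a b ∧ r b c

theorem rtg_iff_stepN {V : Type*} (r : V → V → Prop) (a b : V) :
    Relation.ReflTransGen r a b ↔ ∃ n, stepN r n a b := by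
  constructor
  · intro h
    induction h with
    | refl => exact ⟨0, rfl⟩
    | tail _ hbc ih =>
      obtain ⟨n, hn⟩ := ih
      exact ⟨n + 1, _, hn, hbc⟩
  · rintro ⟨n, h⟩
    induction n generalizing b with
    | zero => rw [show a = b from h]
    | succ n ih =>
      obtain ⟨c, h1, h2⟩ := h
      exact (ih c h1).tail h2

theorem meas_rtg {V Ω : Type*} [Countable V] [MeasurableSpace Ω] (r : Ω → V → V → Prop)
    (hr : ∀ a b, MeasurableSet {ω | r ω a b}) (x y : V) :
    MeasurableSet {ω | Relation.ReflTransGen (r ω) x y} := by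
  have h1 : ∀ n y, MeasurableSet {ω | stepN (r ω) n x y} := by
    intro n
    induction n with
    | zero =>
      intro y
      exact MeasurableSet.const _
    | succ n ih =>
      intro y
      have : {ω | stepN (r ω) (n + 1) x y} = ⋃ b, ({ω | stepN (r ω) n x b} ∩ {ω | r ω b y}) := by
        ext ω
        rw [Set.mem_iUnion]
        rfl
      rw [this]
      exact MeasurableSet.iUnion fun b => (ih b).inter (hr b y)
  have : {ω | Relation.ReflTransGen (r ω) x y} = ⋃ n, {ω | stepN (r ω) n x y} := by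
    ext ω
    rw [Set.mem_iUnion]
    exact rtg_iff_stepN _ _ _
  rw [this]
  exact MeasurableSet.iUnion fun n => h1 n y

/-! ### Connections through a set of edges -/

/-- adjacency through an open edge of `T` -/
def OpT (T : Set (Ed d)) (ω : Cfg d) (a b : Fin d → ℤ) : Prop :=
  ∃ h : NN s(a, b), (⟨s(a, b), h⟩ : Ed d) ∈ T ∧ ω ⟨s(a, b), h⟩ = true

/-- connection through open edges of `T` -/
def RT (T : Set (Ed d)) (ω : Cfg d) (x y : Fin d → ℤ) : Prop :=
  Relation.ReflTransGen (OpT T ω) x y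

theorem meas_RT (T : Set (Ed d)) (x y : Fin d → ℤ) : MeasurableSet {ω : Cfg d | RT T ω x y} := by
  apply meas_rtg
  intro a b
  by_cases h : ∃ h : NN s(a, b), (⟨s(a, b), h⟩ : Ed d) ∈ T
  · obtain ⟨h1, h2⟩ := h
    have : {ω : Cfg d | OpT T ω a b} = {ω | ω ⟨s(a, b), h1⟩ = true} := by
      ext ω
      exact ⟨fun ⟨_, _, h⟩ => h, fun h => ⟨h1, h2, h⟩⟩
    rw [this]
    exact meas_edge _ _
  · have : {ω : Cfg d | OpT T ω a b} = ∅ := by
      ext ω
      rw [Set.mem_ofPred_eq]
      simp only [Set.mem_empty_iff_false, iff_false]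
      rintro ⟨h1, h2, _⟩
      exact h ⟨h1, h2⟩
    rw [this]
    exact MeasurableSet.empty

theorem RT.mono_cfg {T : Set (Ed d)} {ω ω' : Cfg d} (h : ∀ e ∈ T, ω e = ω' e)
    {x y : Fin d → ℤ} (hr : RT T ω x y) : RT T ω' x y := by
  induction hr with
  | refl => exact Relation.ReflTransGen.refl
  | tail _ hbc ih =>
    obtain ⟨h1, h2, h3⟩ := hbc
    exact ih.tail ⟨h1, h2, by rw [← h _ h2]; exact h3⟩

theorem det_RT (T : Set (Ed d)) (x y : Fin d → ℤ) : Det T {ω : Cfg d | RT T ω x y} :=
  fun _ _ h => ⟨fun hr => hr.mono_cfg h, fun hr => hr.mono_cfg fun e he => (h e he).symm⟩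

theorem RT.mono {T T' : Set (Ed d)} (h : T ⊆ T') {ω : Cfg d} {x y : Fin d → ℤ}
    (hr : RT T ω x y) : RT T' ω x y := by
  induction hr with
  | refl => exact Relation.ReflTransGen.refl
  | tail _ hbc ih =>
    obtain ⟨h1, h2, h3⟩ := hbc
    exact ih.tail ⟨h1, h h2, h3⟩

theorem OpT.symm {T : Set (Ed d)} {ω : Cfg d} {a b : Fin d → ℤ} (h : OpT T ω a b) :
    OpT T ω b a := by
  obtain ⟨h1, h2, h3⟩ := h
  have : (⟨s(b, a), h1.swap⟩ : Ed d) = ⟨s(a, b), h1⟩ := Subtype.ext Sym2.eq_swap
  exact ⟨h1.swap, by rw [this]; exact h2, by rw [this]; exact h3⟩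

theorem RT.symm {T : Set (Ed d)} {ω : Cfg d} {x y : Fin d → ℤ} (h : RT T ω x y) : RT T ω y x := by
  induction h with
  | refl => exact Relation.ReflTransGen.refl
  | tail _ hbc ih => exact Relation.ReflTransGen.head hbc.symm ih

theorem RT.opn {T : Set (Ed d)} {ω : Cfg d} {x y : Fin d → ℤ} (h : RT T ω x y) :
    Relation.ReflTransGen (Opn ω) x y := by
  induction h with
  | refl => exact Relation.ReflTransGen.refl
  | tail _ hbc ih =>
    obtain ⟨h1, _, h3⟩ := hbc
    exact ih.tail ⟨h1, h3⟩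

theorem meas_conn (x y : Fin d → ℤ) :
    MeasurableSet {ω : Cfg d | Relation.ReflTransGen (Opn ω) x y} := by
  have : {ω : Cfg d | Relation.ReflTransGen (Opn ω) x y} = {ω | RT Set.univ ω x y} := by
    ext ω
    constructor
    · intro h
      rw [Set.mem_ofPred_eq] at h ⊢
      induction h with
      | refl => exact Relation.ReflTransGen.refl
      | tail _ hbc ih =>
        obtain ⟨h1, h3⟩ := hbc
        exact ih.tail ⟨h1, Set.mem_univ _, h3⟩
    · exact fun h => h.opn
  rw [this]
  exact meas_RT _ _ _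

/-! ### Edge sets as finite sets of labels -/

/-- connection through the edges of a finite set -/
def RchE (ω : Finset (Ed d)) (u v : Fin d → ℤ) : Prop :=
  Rch (ω.map (Function.Embedding.subtype _)) {u} v

theorem inc_RchE (u v : Fin d → ℤ) : Inc (fun ω : Finset (Ed d) => RchE ω u v) :=
  fun _ _ h hr => Rch.mono (Finset.map_subset_map.2 h) hr

theorem RchE.rt {R : Finset (Ed d)} {T : Set (Ed d)} (hR : ∀ e ∈ R, e ∈ T) {ω : Cfg d}
    {u v : Fin d → ℤ} (h : RchE (tr R ω) u v) : RT T ω u v := by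
  obtain ⟨x, hx, h⟩ := h
  rw [Set.mem_singleton_iff] at hx
  subst hx
  induction h with
  | refl => exact Relation.ReflTransGen.refl
  | @tail b c _ hbc ih =>
    obtain ⟨e, he, h1⟩ := Finset.mem_map.1 hbc
    have h2 : e.1 = s(b, c) := h1
    unfold tr at he
    rw [Finset.mem_filter] at he
    have hNN : NN s(b, c) := h2 ▸ e.2
    have h3 : (⟨s(b, c), hNN⟩ : Ed d) = e := Subtype.ext h2.symm
    exact ih.tail ⟨hNN, by rw [h3]; exact hR e he.1, by rw [h3]; exact he.2⟩

/-! ### The climbing lemma -/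

theorem climb_step {p q : ℝ} (p0 : 0 ≤ p) (p1 : p ≤ 1) (hq : 0 < q) {φ : Measure (Cfg d)}
    (h : IsFK p q φ) {c : ℝ} (hc : 0 < c) (T : Set (Ed d)) (B B' : Set (Cfg d))
    (hBm : MeasurableSet B) (hB'm : MeasurableSet B') (hBd : Det T B) (hanti : B' ⊆ B)
    {ι : Type*} [Countable ι] [Nonempty ι] (S : ι → Set (Cfg d)) (R : ι → Finset (Ed d))
    (A : ι → Finset (Ed d) → Prop) (hSm : ∀ α, MeasurableSet (S α)) (hSd : ∀ α, Det T (S α))
    (hR : ∀ α, ∀ e ∈ R α, e ∉ T) (hA : ∀ α, Inc (A α))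
    (hcA : ∀ α, c ≤ PrP (fun _ => pmin p q) (R α) (A α)) (hcov : B ⊆ ⋃ α, S α)
    (hgood : ∀ α, ∀ ω ∈ B, ω ∈ S α → A α (tr (R α) ω) → ω ∉ B') :
    φ.real B' ≤ (1 - c) * φ.real B := by
  have := h.prob
  obtain ⟨f, hf⟩ := exists_surjective_nat ι
  -- disjoint pieces
  let D : ℕ → Set (Cfg d) := fun n => (B ∩ S (f n)) ∩ (⋃ m : Fin n, S (f m))ᶜ
  have hDm : ∀ n, MeasurableSet (D n) := fun n =>
    (hBm.inter (hSm _)).inter (MeasurableSet.iUnion fun m => hSm _).compl
  have hDd : ∀ n, Det T (D n) := fun n =>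
    (hBd.inter (hSd _)).inter (Det.iUnion fun m => hSd _).compl
  have hDdis : Pairwise (Function.onFun Disjoint D) := by
    intro m n hmn
    rw [Function.onFun, Set.disjoint_left]
    intro ω hm hn
    rcases lt_or_gt_of_ne hmn with hlt | hlt
    · exact hn.2 (Set.mem_iUnion.2 ⟨⟨m, hlt⟩, hm.1.2⟩)
    · exact hm.2 (Set.mem_iUnion.2 ⟨⟨n, hlt⟩, hn.1.2⟩)
  have hDU : ⋃ n, D n = B := by
    ext ω
    rw [Set.mem_iUnion]
    constructor
    · rintro ⟨n, hn⟩
      exact hn.1.1
    · intro hω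
      obtain ⟨α, hα⟩ := Set.mem_iUnion.1 (hcov hω)
      obtain ⟨n, rfl⟩ := hf α
      have hex : ∃ n, ω ∈ S (f n) := ⟨n, hα⟩
      refine ⟨Nat.find hex, ⟨hω, Nat.find_spec hex⟩, fun hcon => ?_⟩
      obtain ⟨m, hm⟩ := Set.mem_iUnion.1 hcon
      exact Nat.find_min hex m.2 hm
  -- good pieces
  let E : ℕ → Set (Cfg d) := fun n => D n ∩ {ω | A (f n) (tr (R (f n)) ω)}
  have hEm : ∀ n, MeasurableSet (E n) := fun n => (hDm n).inter (meas_tr _ _)
  have hEdis : Pairwise (Function.onFun Disjoint E) := fun m n hmn =>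
    (hDdis hmn).mono Set.inter_subset_left Set.inter_subset_left
  have hEsub : ⋃ n, E n ⊆ B \ B' := by
    intro ω hω
    obtain ⟨n, hn⟩ := Set.mem_iUnion.1 hω
    exact ⟨hn.1.1.1, hgood (f n) ω hn.1.1.1 hn.1.1.2 hn.2⟩
  have hED : ∀ n, ENNReal.ofReal c * φ (D n) ≤ φ (E n) := by
    intro n
    have h1 := lower p0 p1 hq h (R (f n)) (A (f n)) (hA _) (D n) (hDm n)
      ((hDd n).mono (fun e he => by
        rw [Set.mem_ofPred_eq]
        exact fun hmem => hR _ e hmem he))
    have h2 : c * φ.real (D n) ≤ φ.real (E n) :=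
      (mul_le_mul_of_nonneg_right (hcA _) measureReal_nonneg).trans h1
    rw [← ofReal_measureReal (μ := φ) (s := D n), ← ofReal_measureReal (μ := φ) (s := E n),
      ← ENNReal.ofReal_mul hc.le]
    exact ENNReal.ofReal_le_ofReal h2
  have h3 : ENNReal.ofReal c * φ B ≤ φ (B \ B') := by
    calc ENNReal.ofReal c * φ B = ENNReal.ofReal c * ∑' n, φ (D n) := by
          rw [← measure_iUnion hDdis hDm, hDU]
      _ = ∑' n, ENNReal.ofReal c * φ (D n) := ENNReal.tsum_mul_left.symm
      _ ≤ ∑' n, φ (E n) := ENNReal.tsum_le_tsum hED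
      _ = φ (⋃ n, E n) := (measure_iUnion hEdis hEm).symm
      _ ≤ φ (B \ B') := measure_mono hEsub
  have h4 : c * φ.real B ≤ φ.real (B \ B') := by
    have := ENNReal.toReal_mono (measure_ne_top φ _) h3
    rwa [ENNReal.toReal_mul, ENNReal.toReal_ofReal hc.le] at this
  have h5 : φ.real (B \ B') = φ.real B - φ.real B' := measureReal_sdiff hanti hB'm
  rw [h5] at h4
  linarith

theorem climb_lim {φ : Measure (Cfg d)} [IsProbabilityMeasure φ] {c : ℝ} (hc : 0 < c)
    (B : ℕ → Set (Cfg d)) (h : ∀ i, φ.real (B (i + 1)) ≤ (1 - c) * φ.real (B i)) :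
    φ (⋂ i, B i) = 0 := by
  by_cases hc1 : c ≤ 1
  · have h1 : ∀ i, φ.real (B i) ≤ (1 - c) ^ i := by
      intro i
      induction i with
      | zero => rw [pow_zero]; exact measureReal_le_one
      | succ i ih =>
        rw [pow_succ, mul_comm]
        exact (h i).trans (mul_le_mul_of_nonneg_left ih (by linarith))
    have h2 : Tendsto (fun i : ℕ => (1 - c) ^ i) atTop (𝓝 0) :=
      tendsto_pow_atTop_nhds_zero_of_lt_one (by linarith) (by linarith)
    have h3 : φ.real (⋂ i, B i) ≤ 0 := by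
      refine ge_of_tendsto' h2 fun i => ?_
      exact (measureReal_mono (Set.iInter_subset _ i)).trans (h1 i)
    have h4 : φ.real (⋂ i, B i) = 0 := le_antisymm h3 measureReal_nonneg
    exact (measureReal_eq_zero_iff).1 h4
  · have h1 : φ.real (B 1) = 0 := by
      have h2 := h 0
      have h3 : (0 : ℝ) ≤ φ.real (B 0) := measureReal_nonneg
      have h4 : (0 : ℝ) ≤ φ.real (B 1) := measureReal_nonneg
      push Not at hc1
      have : φ.real (B (0 + 1)) ≤ 0 := h2.trans (mul_nonpos_of_nonpos_of_nonneg (by linarith) h3)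
      exact le_antisymm this h4
    exact measure_mono_null (Set.iInter_subset _ 1) ((measureReal_eq_zero_iff).1 h1)

end Pool.Agent.H29.FK
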