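import Pool.Agent.H29.FK.Bern
import Pool.Agent.H99.NC.RingP
import Pool.Agent.H63.Bulk.Final

/-!
Dimension two: open rings at infinitely many scales; no percolation at density `1/2`.
-/

set_option autoImplicit false
set_option linter.unusedSectionVars false
open Finset

namespace Pool.Agent.H29.FK

open Pool.Agent.H99.NC Pool.Agent.H75.Perc
open Classical MeasureTheory Filter Topology

/-! ### Labels -/

/-- coordinates relative to `x` -/
def pt (x a : Fin 2 → ℤ) : ℤ × ℤ := (a 0 - x 0, a 1 - x 1)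

/-- the vertex with given relative coordinates -/
def vt (x : Fin 2 → ℤ) (u : ℤ × ℤ) : Fin 2 → ℤ := ![u.1 + x 0, u.2 + x 1]

theorem pt_vt (x : Fin 2 → ℤ) (u : ℤ × ℤ) : pt x (vt x u) = u := by simp [pt, vt]

theorem vt_pt (x a : Fin 2 → ℤ) : vt x (pt x a) = a := by
  funext i; fin_cases i <;> simp [pt, vt]

/-- the label of an edge -/
def lab (x : Fin 2 → ℤ) (e : Ed 2) : ℤ × ℤ :=
  Sym2.lift ⟨fun a b => pt x a + pt x b, fun _ _ => add_comm _ _⟩ e.1

theorem lab_mk (x a b : Fin 2 → ℤ) (h : NN s(a, b)) : lab x ⟨s(a, b), h⟩ = pt x a + pt x b := rfl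

theorem lab_inj (x : Fin 2 → ℤ) : Function.Injective (lab x) := by
  rintro ⟨e, a, i, rfl⟩ ⟨e', b, j, rfl⟩ h
  rw [lab_mk, lab_mk] at h
  have h1 := congrArg Prod.fst h
  have h2 := congrArg Prod.snd h
  apply Subtype.ext
  simp only [pt, Prod.fst_add, Prod.snd_add, Pi.add_apply] at h1 h2
  have hi : i = 0 ∨ i = 1 := by fin_cases i <;> simp
  have hj : j = 0 ∨ j = 1 := by fin_cases j <;> simp
  have key : i = j ∧ a 0 = b 0 ∧ a 1 = b 1 := by
    rcases hi with rfl | rfl <;> rcases hj with rfl | rfl <;>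
      simp at h1 h2 ⊢ <;> omega
  obtain ⟨rfl, k0, k1⟩ := key
  have hab : a = b := by funext l; fin_cases l <;> simpa
  rw [hab]

/-- labels as an embedding -/
def labE (x : Fin 2 → ℤ) : Ed 2 ↪ ℤ × ℤ := ⟨lab x, lab_inj x⟩

theorem labE_apply (x : Fin 2 → ℤ) (e : Ed 2) : labE x e = lab x e := rfl

theorem unit_of_nn {x a b : Fin 2 → ℤ} (h : NN s(a, b)) : IsUnit4 (pt x b - pt x a) := by
  obtain ⟨i, h1, h2⟩ := h.coord
  have hi : i = 0 ∨ i = 1 := by fin_cases i <;> simp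
  unfold IsUnit4 pt
  simp only [Prod.mk_sub_mk, Prod.mk.injEq]
  rcases hi with rfl | rfl
  · have := h1 1 (by decide)
    omega
  · have := h1 0 (by decide)
    omega

theorem nn_of_unit {x : Fin 2 → ℤ} {u v : ℤ × ℤ} (h : IsUnit4 (v - u)) :
    NN s(vt x u, vt x v) := by
  have h1 := unit_cases h
  by_cases h2 : v.2 = u.2
  · refine NN.of_coord (i := 0) (fun l hl => ?_) ?_
    · have : l = 1 := by fin_cases l <;> simp at hl ⊢
      subst this
      simp [vt, h2]
    · simp only [vt, Matrix.cons_val_zero]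
      omega
  · refine NN.of_coord (i := 1) (fun l hl => ?_) ?_
    · have : l = 0 := by fin_cases l <;> simp at hl ⊢
      subst this
      simp [vt]
      omega
    · simp only [vt, Matrix.cons_val_one, Matrix.cons_val_fin_one]
      omega

theorem lab_surj (x : Fin 2 → ℤ) {l : ℤ × ℤ} (h : (l.1 + l.2) % 2 = 1) :
    ∃ e : Ed 2, lab x e = l := by
  by_cases h1 : l.1 % 2 = 1
  · refine ⟨⟨s(vt x (l.1 / 2, l.2 / 2), vt x (l.1 / 2 + 1, l.2 / 2)), nn_of_unit ?_⟩, ?_⟩
    · left; simp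
    · rw [lab_mk, pt_vt, pt_vt]
      ext
      · simp only [Prod.mk_add_mk]; omega
      · simp only [Prod.mk_add_mk]; omega
  · refine ⟨⟨s(vt x (l.1 / 2, l.2 / 2), vt x (l.1 / 2, l.2 / 2 + 1)), nn_of_unit ?_⟩, ?_⟩
    · right; left; simp
    · rw [lab_mk, pt_vt, pt_vt]
      ext
      · simp only [Prod.mk_add_mk]; omega
      · simp only [Prod.mk_add_mk]; omega

/-- a connection through labels of open edges is a connection -/
theorem co_opn {x : Fin 2 → ℤ} {σ : Finset (Ed 2)} {ω : Cfg 2} (hσ : ∀ e ∈ σ, ω e = true)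
    {u v : ℤ × ℤ} (h : Co (σ.map (labE x)) u v) :
    Relation.ReflTransGen (Opn ω) (vt x u) (vt x v) := by
  induction h with
  | refl => exact Relation.ReflTransGen.refl
  | @tail b c _ hbc ih =>
    obtain ⟨h1, h2⟩ := hbc
    obtain ⟨e, he, h3⟩ := Finset.mem_map.1 h2
    have hNN := nn_of_unit (x := x) h1
    have h4 : e = ⟨s(vt x b, vt x c), hNN⟩ := by
      apply lab_inj x
      rw [lab_mk, pt_vt, pt_vt, ← h3, labE_apply]
    exact ih.tail ⟨hNN, by rw [← h4]; exact hσ e he⟩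

/-- a connection uses finitely many open edges -/
theorem opn_co (x : Fin 2 → ℤ) {ω : Cfg 2} {a b : Fin 2 → ℤ}
    (h : Relation.ReflTransGen (Opn ω) a b) :
    ∃ F : Finset (Ed 2), (∀ e ∈ F, ω e = true) ∧ Co (F.map (labE x)) (pt x a) (pt x b) := by
  induction h with
  | refl => exact ⟨∅, by simp, Co.refl _ _⟩
  | @tail b c _ hbc ih =>
    obtain ⟨F, hF, hco⟩ := ih
    obtain ⟨h1, h2⟩ := hbc
    refine ⟨insert ⟨s(b, c), h1⟩ F, ?_, ?_⟩
    · intro e he
      rcases Finset.mem_insert.1 he with rfl | he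
      · exact h2
      · exact hF e he
    · refine Relation.ReflTransGen.tail
        (hco.mono (Finset.map_subset_map.2 (Finset.subset_insert _ _))) ⟨unit_of_nn h1, ?_⟩
      rw [Finset.mem_map]
      exact ⟨⟨s(b, c), h1⟩, Finset.mem_insert_self _ _, rfl⟩

/-! ### The annulus -/

/-- labels of the four rectangles -/
noncomputable def An (a : ℤ) : Finset (ℤ × ℤ) :=
  (Bx (-2 * a) (2 * a) a (2 * a) ∪ Bx (-2 * a) (2 * a) (-2 * a) (-a)) ∪
    (Bx (-2 * a) (-a) (-2 * a) (2 * a) ∪ Bx a (2 * a) (-2 * a) (2 * a))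

theorem ring_local (a : ℤ) (ω : Finset (ℤ × ℤ)) : Ring 0 a (ω ∩ An a) ↔ Ring 0 a ω := by
  have e1 : (0 : ℤ × ℤ).1 - 2 * a = -2 * a := by simp
  have e2 : (0 : ℤ × ℤ).1 + 2 * a = 2 * a := by simp
  have e3 : (0 : ℤ × ℤ).2 + a = a := by simp
  have e4 : (0 : ℤ × ℤ).2 + 2 * a = 2 * a := by simp
  have e5 : (0 : ℤ × ℤ).2 - 2 * a = -2 * a := by simp
  have e6 : (0 : ℤ × ℤ).2 - a = -a := by simp
  have e7 : (0 : ℤ × ℤ).1 - a = -a := by simp
  have e8 : (0 : ℤ × ℤ).1 + a = a := by simp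
  have key : ∀ X : Finset (ℤ × ℤ), X ⊆ An a → (ω ∩ An a) ∩ X = ω ∩ X := fun X hX => by
    rw [Finset.inter_assoc, Finset.inter_eq_right.2 hX]
  have h1 := key (Bx (-2 * a) (2 * a) a (2 * a))
    (Finset.subset_union_left.trans Finset.subset_union_left)
  have h2 := key (Bx (-2 * a) (2 * a) (-2 * a) (-a))
    (Finset.subset_union_right.trans Finset.subset_union_left)
  have h3 := key (Bx (-2 * a) (-a) (-2 * a) (2 * a))
    (Finset.subset_union_left.trans Finset.subset_union_right)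
  have h4 := key (Bx a (2 * a) (-2 * a) (2 * a))
    (Finset.subset_union_right.trans Finset.subset_union_right)
  unfold Pool.Agent.H99.NC.Ring HC VC
  rw [e1, e2, e3, e4, e5, e6, e7, e8, h1, h2, h3, h4]

theorem An_sub {a : ℤ} (ha : 1 ≤ a) : An a ⊆ BR 0 (2 * a) := by
  unfold BR An
  have e1 : (0 : ℤ × ℤ).1 - 2 * a = -2 * a := by simp
  have e2 : (0 : ℤ × ℤ).1 + 2 * a = 2 * a := by simp
  have e4 : (0 : ℤ × ℤ).2 + 2 * a = 2 * a := by simp
  have e5 : (0 : ℤ × ℤ).2 - 2 * a = -2 * a := by simp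
  rw [e1, e2, e4, e5]
  refine Finset.union_subset (Finset.union_subset ?_ ?_) (Finset.union_subset ?_ ?_)
  · exact Bx_sub le_rfl le_rfl (by omega) le_rfl
  · exact Bx_sub le_rfl le_rfl le_rfl (by omega)
  · exact Bx_sub le_rfl (by omega) le_rfl le_rfl
  · exact Bx_sub (by omega) le_rfl le_rfl le_rfl

/-- the edges of the annulus -/
noncomputable def Ra (a : ℤ) : Finset (Ed 2) := (An a).preimage (lab 0) (lab_inj 0).injOn

theorem mem_Ra {a : ℤ} {e : Ed 2} : e ∈ Ra a ↔ lab 0 e ∈ An a := by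
  unfold Ra; rw [Finset.mem_preimage]

theorem odd_An {a : ℤ} {l : ℤ × ℤ} (h : l ∈ An a) : (l.1 + l.2) % 2 = 1 := by
  unfold An at h
  simp only [Finset.mem_union, mem_Bx] at h
  omega

theorem map_Ra (a : ℤ) : (Ra a).map (labE 0) = An a := by
  ext l
  rw [Finset.mem_map]
  constructor
  · rintro ⟨e, he, rfl⟩
    exact mem_Ra.1 he
  · intro hl
    obtain ⟨e, he⟩ := lab_surj 0 (odd_An hl)
    exact ⟨e, mem_Ra.2 (by rw [he]; exact hl), he⟩

theorem pt_zero (v : Fin 2 → ℤ) : pt 0 v = (v 0, v 1) := by simp [pt]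

theorem Ra_ends {a : ℤ} {e : Ed 2} (h : e ∈ Ra a) (v : Fin 2 → ℤ) (hv : v ∈ e.1) :
    (a ≤ v 0 ∨ v 0 ≤ -a ∨ a ≤ v 1 ∨ v 1 ≤ -a) ∧
      (-(2 * a) ≤ v 0 ∧ v 0 ≤ 2 * a ∧ -(2 * a) ≤ v 1 ∧ v 1 ≤ 2 * a) := by
  obtain ⟨e, he⟩ := e
  obtain ⟨w, hw⟩ := hv
  have hw' : e = s(v, w) := hw
  subst hw'
  rw [mem_Ra, lab_mk] at h
  have h1 := unit_cases (unit_of_nn (x := 0) he)
  simp only [pt_zero] at h1 h
  unfold An at h
  simp only [Finset.mem_union, mem_Bx, Prod.mk_add_mk] at h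
  omega

/-- edges with an end near the origin -/
def Ta (a : ℤ) : Set (Ed 2) := {e | ∃ v ∈ e.1, (-a < v 0 ∧ v 0 < a) ∧ (-a < v 1 ∧ v 1 < a)}

theorem Ra_not_Ta {a : ℤ} : ∀ e ∈ Ra a, e ∉ Ta a := by
  rintro e he ⟨v, hv, h⟩
  have := (Ra_ends he v hv).1
  omega

theorem Ra_Ta {a b : ℤ} (h : 2 * a < b) : ∀ e ∈ Ra a, e ∈ Ta b := by
  rintro ⟨e, he⟩ hR
  induction e with
  | _ x y =>
    refine ⟨x, Sym2.mem_mk_left _ _, ?_⟩
    have := (Ra_ends hR x (Sym2.mem_mk_left _ _)).2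
    omega

/-- the ring event for edge configurations -/
def RingA (a : ℤ) (σ : Finset (Ed 2)) : Prop := Ring 0 a (σ.map (labE 0))

theorem inc_RingA (a : ℤ) : Inc (RingA a) := fun _ _ h hr =>
  Ring_inc 0 a _ _ (Finset.map_subset_map.2 h) hr

theorem ring_prob : ∃ c : ℝ, 0 < c ∧ ∀ p : ℝ, 1 / 2 ≤ p → p ≤ 1 → ∀ a : ℤ, 1 ≤ a →
    c ≤ PrP (fun _ => p) (Ra a) (RingA a) := by
  obtain ⟨c, hc, h⟩ := ring_q
  refine ⟨c, hc, fun p p0 p1 a ha => ?_⟩
  have h1 := h (fun _ => p) (fun _ => ⟨p0, p1⟩) (BR 0 (2 * a)) 0 a ha (Finset.Subset.refl _)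
  have h2 : PrP (fun _ => p) (BR 0 (2 * a)) (Ring 0 a) = PrP (fun _ => p) (An a) (Ring 0 a) :=
    PrP_local (An_sub ha) fun ω _ => (ring_local a ω).symm
  rw [h2, ← map_Ra, PrP_map] at h1
  exact h1

theorem ring_conn {a : ℤ} (ha : 1 ≤ a) {ω : Cfg 2} {x y : Fin 2 → ℤ}
    (hx : (-a < x 0 ∧ x 0 < a) ∧ (-a < x 1 ∧ x 1 < a))
    (hy : (-a < y 0 ∧ y 0 < a) ∧ (-a < y 1 ∧ y 1 < a))
    (hxi : (clus ω x).Infinite) (hyi : (clus ω y).Infinite)
    (h : RingA a (tr (Ra a) ω)) : Relation.ReflTransGen (Opn ω) x y := by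
  obtain ⟨v, hv, hv'⟩ := hxi.exists_notMem_finset (cube 0 (2 * a).toNat)
  obtain ⟨w, hw, hw'⟩ := hyi.exists_notMem_finset (cube 0 (2 * a).toNat)
  obtain ⟨F, hF, hFc⟩ := opn_co 0 (show Relation.ReflTransGen (Opn ω) x v from hv)
  obtain ⟨G, hG, hGc⟩ := opn_co 0 (show Relation.ReflTransGen (Opn ω) y w from hw)
  set σ := tr (Ra a) ω ∪ (F ∪ G) with hσ
  have hσo : ∀ e ∈ σ, ω e = true := by
    intro e he
    rw [hσ] at he
    rcases Finset.mem_union.1 he with he | he
    · unfold tr at he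
      exact (Finset.mem_filter.1 he).2
    · rcases Finset.mem_union.1 he with he | he
      · exact hF e he
      · exact hG e he
  have hr : Ring 0 a (σ.map (labE 0)) := inc_RingA a _ _ Finset.subset_union_left h
  obtain ⟨r, hr⟩ := hr.spec ha
  have hout : ∀ z : Fin 2 → ℤ, z ∉ cube 0 (2 * a).toNat → ¬ inR 0 (2 * a - 1) (pt 0 z) := by
    intro z hz hcon
    apply hz
    rw [mem_cube]
    rw [inR_iff, pt_zero] at hcon
    simp only [Prod.fst_zero, Prod.snd_zero] at hcon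
    intro i
    fin_cases i
    · simp only [Fin.zero_eta, Pi.zero_apply]
      omega
    · simp only [Fin.mk_one, Pi.zero_apply]
      omega
  have hin : ∀ z : Fin 2 → ℤ, ((-a < z 0 ∧ z 0 < a) ∧ (-a < z 1 ∧ z 1 < a)) →
      inR 0 (a - 1) (pt 0 z) := by
    intro z hz
    rw [inR_iff, pt_zero]
    simp only [Prod.fst_zero, Prod.snd_zero]
    omega
  have h1 := hr _ _ (hin x hx) (hout v hv') (hFc.mono (Finset.map_subset_map.2
    (Finset.subset_union_left.trans Finset.subset_union_right)))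
  have h2 := hr _ _ (hin y hy) (hout w hw') (hGc.mono (Finset.map_subset_map.2
    (Finset.subset_union_right.trans Finset.subset_union_right)))
  have h3 := co_opn hσo (h1.trans h2.symm)
  rwa [vt_pt, vt_pt] at h3

theorem ring_case {p q : ℝ} (p0 : 0 ≤ p) (p1 : p ≤ 1) (hq : 0 < q) {φ : Measure (Cfg 2)}
    (h : IsFK p q φ) (hh : 1 / 2 ≤ pmin p q) : ∀ᵐ ω ∂φ, AtMostOne ω := by
  have := h.prob
  have hp := pmin_mem p0 p1 hq
  obtain ⟨c, hc, hring⟩ := ring_prob
  have hM : ∀ M : ℕ, ∀ᵐ ω ∂φ, ∃ a : ℤ, (M : ℤ) + 1 ≤ a ∧ RingA a (tr (Ra a) ω) := by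
    intro M
    let a : ℕ → ℤ := fun i => (M + 1) * 3 ^ i
    have hapos : ∀ i, (M : ℤ) + 1 ≤ a i := by
      intro i
      simp only [a]
      have h3 : (1 : ℤ) ≤ 3 ^ i := one_le_pow₀ (by norm_num)
      have hM0 : (0 : ℤ) ≤ (M : ℤ) := Int.natCast_nonneg M
      nlinarith
    have ha1 : ∀ i, 1 ≤ a i := fun i => by
      have := hapos i
      have hM0 : (0 : ℤ) ≤ (M : ℤ) := Int.natCast_nonneg M
      omega
    have hsucc : ∀ i, a (i + 1) = 3 * a i := by
      intro i
      simp only [a]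
      ring
    have hmono : ∀ m i, m < i → 2 * a m < a i := by
      intro m i hmi
      induction i with
      | zero => omega
      | succ i ih =>
        rw [hsucc]
        have := ha1 i
        have := ha1 m
        rcases Nat.lt_succ_iff_lt_or_eq.1 hmi with h1 | rfl
        · have := ih h1
          omega
        · omega
    let B : ℕ → Set (Cfg 2) := fun i =>
      ⋂ m : Fin i, {ω | RingA (a m) (tr (Ra (a m)) ω)}ᶜ
    have hBm : ∀ i, MeasurableSet (B i) := fun i =>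
      MeasurableSet.iInter fun m => (meas_tr _ _).compl
    have hBd : ∀ i, Det (Ta (a i)) (B i) := by
      intro i ω ω' hω
      have heq : ∀ m : Fin i, tr (Ra (a m)) ω = tr (Ra (a m)) ω' := by
        intro m
        unfold tr
        apply Finset.filter_congr
        intro e he
        rw [hω e (Ra_Ta (hmono m i m.2) e he)]
      simp only [B, Set.mem_iInter, Set.mem_compl_iff, Set.mem_ofPred_eq]
      refine forall_congr' fun m => ?_
      rw [heq m]
    have hanti : ∀ i, B (i + 1) ⊆ B i := by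
      intro i ω hω
      simp only [B, Set.mem_iInter] at hω ⊢
      exact fun m => hω ⟨m.1, Nat.lt_succ_of_lt m.2⟩
    have hlim := climb_lim (φ := φ) hc B fun i => by
      refine climb_step p0 p1 hq h hc (Ta (a i)) (B i) (B (i + 1)) (hBm i) (hBm _) (hBd i)
        (hanti i) (ι := Unit) (fun _ => Set.univ) (fun _ => Ra (a i)) (fun _ => RingA (a i))
        (fun _ => MeasurableSet.univ) (fun _ => Det.univ _) (fun _ => Ra_not_Ta)
        (fun _ => inc_RingA _) (fun _ => hring _ hh hp.2 _ (ha1 i)) ?_ ?_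
      · intro ω _
        exact Set.mem_iUnion.2 ⟨(), Set.mem_univ _⟩
      · intro _ ω _ _ h1 h2
        simp only [B, Set.mem_iInter] at h2
        exact h2 ⟨i, Nat.lt_succ_self i⟩ h1
    rw [ae_iff]
    refine measure_mono_null ?_ hlim
    intro ω hω
    rw [Set.mem_ofPred_eq] at hω
    push Not at hω
    rw [Set.mem_iInter]
    intro i
    simp only [B, Set.mem_iInter]
    intro m hcon
    exact hω (a m) (hapos m) hcon
  filter_upwards [ae_all_iff.2 hM] with ω hω x y hx hy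
  obtain ⟨a, ha, hr⟩ := hω ((x 0).natAbs + (x 1).natAbs + (y 0).natAbs + (y 1).natAbs)
  exact ring_conn (by omega) (by omega) (by omega) hx hy hr

/-! ### No percolation at densities at most one half -/

theorem arms_armF {x : Fin 2 → ℤ} {n : ℕ} {σ : Finset (Ed 2)} (h : Arms x n σ) :
    armF n (σ.map (labE x)) := by
  obtain ⟨b, hb, hr⟩ := h
  have h1 : Co (σ.map (labE x)) (pt x b) (pt x x) := by
    have key : ∀ v, Relation.ReflTransGen
        (fun a b => s(a, b) ∈ σ.map (Function.Embedding.subtype _)) b v →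
        Co (σ.map (labE x)) (pt x b) (pt x v) := by
      intro v hv
      induction hv with
      | refl => exact Co.refl _ _
      | @tail v w _ hvw ih =>
        obtain ⟨e, he, h3⟩ := Finset.mem_map.1 hvw
        have h3' : e.1 = s(v, w) := h3
        have hNN : NN s(v, w) := h3' ▸ e.2
        have h4 : e = ⟨s(v, w), hNN⟩ := Subtype.ext h3'
        refine Relation.ReflTransGen.tail ih ⟨unit_of_nn hNN, ?_⟩
        rw [Finset.mem_map]
        exact ⟨e, he, by rw [h4]; rfl⟩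
    exact key x hr
  have h2 : pt x x = 0 := by simp [pt]
  rw [h2] at h1
  obtain ⟨hbc, w, _, hw, hbw⟩ := mem_bd.1 hb
  refine ⟨pt x b, ?_, h1.symm⟩
  rw [mem_cube] at hbc
  by_contra hcon
  rw [not_or] at hcon
  unfold pt at hcon
  simp only at hcon
  obtain ⟨c1, c2⟩ := hcon
  have hn : |(n : ℤ)| = n := abs_of_nonneg (Int.natCast_nonneg n)
  have c1a : b 0 - x 0 ≠ n := fun h => c1 (by rw [h, hn])
  have c1b : b 0 - x 0 ≠ -n := fun h => c1 (by rw [h, abs_neg, hn])
  have c2a : b 1 - x 1 ≠ n := fun h => c2 (by rw [h, hn])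
  have c2b : b 1 - x 1 ≠ -n := fun h => c2 (by rw [h, abs_neg, hn])
  have g0 := hbc 0
  have g1 := hbc 1
  apply hw
  rw [mem_cube]
  obtain ⟨l, h3, h4⟩ := hbw.coord
  have hl : l = 0 ∨ l = 1 := by fin_cases l <;> simp
  intro i
  have hi : i = 0 ∨ i = 1 := by fin_cases i <;> simp
  rcases hl with rfl | rfl
  · have := h3 1 (by decide)
    rcases hi with rfl | rfl <;> omega
  · have := h3 0 (by decide)
    rcases hi with rfl | rfl <;> omega

theorem map_Rc (x : Fin 2 → ℤ) (n : ℕ) : (Rc x n).map (labE x) ⊆ Bx (-n) n (-n) n := by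
  intro l hl
  obtain ⟨⟨e, he⟩, he', rfl⟩ := Finset.mem_map.1 hl
  induction e with
  | _ a b =>
    unfold Rc at he'
    rw [Finset.mem_subtype, mem_Eb'] at he'
    obtain ⟨_, ha, hb⟩ := he'
    rw [mem_cube] at ha hb
    rw [labE_apply, lab_mk, mem_Bx]
    have h1 := unit_cases (unit_of_nn (x := x) he)
    have a0 := ha 0
    have a1 := ha 1
    have b0 := hb 0
    have b1 := hb 1
    simp only [pt, Prod.mk_add_mk] at h1 ⊢
    omega

theorem half_sub {p : ℝ} (p0 : 0 ≤ p) (hp : p ≤ 1 / 2) :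
    bern 2 p {ω | ∃ x, (clus ω x).Infinite} = 0 := by
  have hp1 : p ≤ 1 := by linarith
  have := bern_prob (d := 2) p0 hp1
  have h0 : {ω : Cfg 2 | ∃ x, (clus ω x).Infinite} = ⋃ x, {ω | (clus ω x).Infinite} := by
    ext ω
    rw [Set.mem_iUnion]
    rfl
  rw [h0]
  apply measure_iUnion_null
  intro x
  obtain ⟨_, C, _, _, hC⟩ := Pool.Agent.H63.Bulk.one_arm_plane
  have h1 : ∀ n : ℕ, 1 ≤ n → (bern 2 p).real {ω | (clus ω x).Infinite} ≤
      C * (n : ℝ) ^ (-(5 / 48) : ℝ) := by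
    intro n hn
    have e1 : (bern 2 p).real {ω | (clus ω x).Infinite} ≤
        (bern 2 p).real {ω | Arms x n (tr (Rc x n) ω)} := by
      refine measureReal_mono ?_ (measure_ne_top _ _)
      intro ω hω
      exact arms_of_infinite hω n
    rw [bern_tr p0 hp1] at e1
    have e2 : PrP (fun _ => p) (Rc x n) (Arms x n) ≤
        PrP (fun _ => p) (Rc x n) (fun σ => armF n (σ.map (labE x))) :=
      PrP_mono (Pb.const p0 hp1) fun σ _ hσ => arms_armF hσ
    have e3 : PrP (fun _ => p) (Rc x n) (fun σ => armF n (σ.map (labE x))) =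
        PrP (fun _ => p) ((Rc x n).map (labE x)) (armF n) := by rw [PrP_map]
    have hinc : Inc (armF n) := by
      rintro ω ω' h ⟨v, h1, h2⟩
      exact ⟨v, h1, h2.mono h⟩
    have e4 : PrP (fun _ => p) ((Rc x n).map (labE x)) (armF n) ≤
        PrP (fun _ => p) (Bx (-n) n (-n) n) (armF n) :=
      PrP_inc (Pb.const p0 hp1) (map_Rc x n) hinc
    have e5 : PrP (fun _ => p) (Bx (-n) n (-n) n) (armF n) ≤
        PrP (fun _ => 1 / 2) (Bx (-n) n (-n) n) (armF n) :=
      PrP_mono_q (Pb.const p0 hp1) (Pb.const (by norm_num) (by norm_num)) (fun _ _ => hp) hinc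
    rw [← oneArm_PrP (p := 1 / 2) (by norm_num) (by norm_num), planeP_half] at e5
    have e6 := (hC n hn).2
    rw [e3] at e2
    exact e1.trans (e2.trans (e4.trans (e5.trans e6)))
  have h2 : Tendsto (fun n : ℕ => C * (n : ℝ) ^ (-(5 / 48) : ℝ)) atTop (𝓝 (C * 0)) := by
    refine Tendsto.const_mul C ?_
    exact (tendsto_rpow_neg_atTop (by norm_num)).comp tendsto_natCast_atTop_atTop
  rw [mul_zero] at h2
  have h3 : (bern 2 p).real {ω | (clus ω x).Infinite} ≤ 0 := by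
    refine ge_of_tendsto h2 ?_
    filter_upwards [eventually_ge_atTop 1] with n hn
    exact h1 n hn
  exact (measureReal_eq_zero_iff).1 (le_antisymm h3 measureReal_nonneg)

end Pool.Agent.H29.FK
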