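import Mathlib

/-!
Random-cluster Gibbs measures on `ℤ^d`, Bernoulli percolation: all the definitions used in the
statement of the theorem.
-/

set_option autoImplicit false
open Finset

namespace Pool.Agent.H29.FK

open Classical MeasureTheory

variable {d : ℕ}

/-- nearest-neighbour edges of the lattice -/
def NN (e : Sym2 (Fin d → ℤ)) : Prop := ∃ (x : Fin d → ℤ) (i : Fin d), e = s(x, x + Pi.single i 1)

/-- the nearest-neighbour edges of the lattice -/
abbrev Ed (d : ℕ) := {e : Sym2 (Fin d → ℤ) // NN e}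

/-- configurations: `ω e = true` means that `e` is open -/
abbrev Cfg (d : ℕ) := Ed d → Bool

/-- `a`, `b` are joined by an open edge -/
def Opn (ω : Cfg d) (a b : Fin d → ℤ) : Prop := ∃ h : NN s(a, b), ω ⟨s(a, b), h⟩ = true

/-- the cluster of `x` -/
def clus (ω : Cfg d) (x : Fin d → ℤ) : Set (Fin d → ℤ) := {y | Relation.ReflTransGen (Opn ω) x y}

/-- number of clusters which contain an endpoint of an edge of `F` -/
noncomputable def kF (F : Finset (Ed d)) (ω : Cfg d) : ℕ :=
  Set.ncard {C : Set (Fin d → ℤ) | ∃ e ∈ F, ∃ x ∈ e.1, C = clus ω x}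

/-- the weight `p ^ o * (1 - p) ^ c * q ^ k` of a configuration in `F` -/
noncomputable def wF (p q : ℝ) (F : Finset (Ed d)) (ω : Cfg d) : ℝ :=
  p ^ (F.filter (fun e => ω e = true)).card * (1 - p) ^ (F.filter (fun e => ω e = false)).card *
    q ^ kF F ω

/-- the configuration which equals `ξ` off `F` and whose open edges in `F` are those of `S` -/
noncomputable def glue (F S : Finset (Ed d)) (ξ : Cfg d) : Cfg d :=
  fun e => if e ∈ F then decide (e ∈ S) else ξ e

/-- probability that the open edges in `F` are those of `S`, with boundary condition `ξ` -/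
noncomputable def spec (p q : ℝ) (F S : Finset (Ed d)) (ξ : Cfg d) : ℝ :=
  wF p q F (glue F S ξ) / ∑ T ∈ F.powerset, wF p q F (glue F T ξ)

/-- the event `B` is determined by the edges in `T` -/
def Det (T : Set (Ed d)) (B : Set (Cfg d)) : Prop :=
  ∀ ω ω' : Cfg d, (∀ e ∈ T, ω e = ω' e) → (ω ∈ B ↔ ω' ∈ B)

/-- random-cluster Gibbs measures: for every finite `F`, the conditional law of the edges of `F`
given the edges off `F` is the finite-volume random-cluster measure -/
structure IsFK (p q : ℝ) (φ : Measure (Cfg d)) : Prop where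
  prob : IsProbabilityMeasure φ
  dlr : ∀ F S : Finset (Ed d), S ⊆ F → ∀ B : Set (Cfg d), MeasurableSet B →
    Det {e | e ∉ F} B →
    φ (B ∩ {ω | ∀ e ∈ F, ω e = decide (e ∈ S)}) = ∫⁻ ω in B, ENNReal.ofReal (spec p q F S ω) ∂φ

/-- Bernoulli bond percolation on `ℤ^d` with parameter `p` -/
noncomputable def bern (d : ℕ) (p : ℝ) : Measure (Cfg d) :=
  Measure.infinitePi (fun _ => ENNReal.ofReal p • Measure.dirac true +
    ENNReal.ofReal (1 - p) • Measure.dirac false)

/-- the slab `0 ≤ x j ≤ k` -/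
def slab (j : Fin d) (k : ℕ) : Set (Fin d → ℤ) := {x | 0 ≤ x j ∧ x j ≤ k}

/-- the cluster of `x` in the slab `0 ≤ y j ≤ k` -/
def slabClus (j : Fin d) (k : ℕ) (ω : Cfg d) (x : Fin d → ℤ) : Set (Fin d → ℤ) :=
  {y | Relation.ReflTransGen (fun a b => Opn ω a b ∧ a ∈ slab j k ∧ b ∈ slab j k) x y}

end Pool.Agent.H29.FK
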