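import Pool.Agent.H29.FK.Climb

/-!
Heights, slabs in general position, the two claims.
-/

set_option autoImplicit false
set_option linter.unusedSectionVars false
open Finset

namespace Pool.Agent.H29.FK

open Pool.Agent.H99.NC Pool.Agent.H75.Perc
open Classical MeasureTheory Filter Topology

variable {d : ℕ}

/-! ### Symmetries: swaps and reflections -/

theorem Sy.trans {τ σ : (Fin d → ℤ) ≃ (Fin d → ℤ)} (h : Sy τ) (h' : Sy σ) : Sy (τ.trans σ) := by
  intro x y
  rw [Equiv.trans_apply, Equiv.trans_apply, h' _ _, h _ _]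

/-- exchange of two coordinates -/
def swp (i j : Fin d) : (Fin d → ℤ) ≃ (Fin d → ℤ) :=
  (Equiv.swap i j).arrowCongr (Equiv.refl ℤ)

theorem swp_apply (i j : Fin d) (x : Fin d → ℤ) (l : Fin d) : swp i j x l = x (Equiv.swap i j l) := by
  simp [swp, Equiv.arrowCongr]

theorem sy_of_forward {τ : (Fin d → ℤ) ≃ (Fin d → ℤ)} (h : ∀ x y, NN s(x, y) → NN s(τ x, τ y))
    (h' : ∀ x y, NN s(x, y) → NN s(τ.symm x, τ.symm y)) : Sy τ := by
  intro x y
  constructor
  · intro hxy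
    have := h' _ _ hxy
    rwa [Equiv.symm_apply_apply, Equiv.symm_apply_apply] at this
  · exact h x y

theorem nn_swp (i j : Fin d) (x y : Fin d → ℤ) (h : NN s(x, y)) :
    NN s(swp i j x, swp i j y) := by
  obtain ⟨l, h1, h2⟩ := h.coord
  refine NN.of_coord (i := Equiv.swap i j l) (fun m hm => ?_) ?_
  · rw [swp_apply, swp_apply]
    apply h1
    intro hh
    apply hm
    rw [← hh, Equiv.swap_apply_self]
  · rw [swp_apply, swp_apply, Equiv.swap_apply_self]
    exact h2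

theorem sy_swp (i j : Fin d) : Sy (swp i j) := by
  have hinv : ∀ x, swp i j (swp i j x) = x := by
    intro x
    funext l
    rw [swp_apply, swp_apply, Equiv.swap_apply_self]
  have hs : ∀ x, (swp i j).symm x = swp i j x := by
    intro x
    rw [Equiv.symm_apply_eq, hinv]
  apply sy_of_forward (nn_swp i j)
  intro x y h
  rw [hs, hs]
  exact nn_swp i j x y h

/-- multiplication of the coordinate `j` by `t = ±1` -/
def rfl' (j : Fin d) (t : ℤ) (x : Fin d → ℤ) : Fin d → ℤ := fun l => if l = j then t * x l else x l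

theorem rfl'_invol (j : Fin d) {t : ℤ} (ht : t * t = 1) (x : Fin d → ℤ) :
    rfl' j t (rfl' j t x) = x := by
  funext l
  unfold rfl'
  by_cases h : l = j
  · simp only [h, if_true]
    rw [← mul_assoc, ht, one_mul]
  · simp only [h, if_false]

def rfle (j : Fin d) {t : ℤ} (ht : t * t = 1) : (Fin d → ℤ) ≃ (Fin d → ℤ) :=
  Function.Involutive.toPerm (rfl' j t) (rfl'_invol j ht)

theorem rfle_apply (j : Fin d) {t : ℤ} (ht : t * t = 1) (x : Fin d → ℤ) (l : Fin d) :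
    rfle j ht x l = if l = j then t * x l else x l := rfl

theorem t_cases {t : ℤ} (ht : t * t = 1) : t = 1 ∨ t = -1 := by
  have : (t - 1) * (t + 1) = 0 := by ring_nf; linarith [ht, sq t]
  rcases mul_eq_zero.1 this with h | h
  · left; linarith
  · right; linarith

theorem nn_rfle (j : Fin d) {t : ℤ} (ht : t * t = 1) (x y : Fin d → ℤ) (h : NN s(x, y)) :
    NN s(rfle j ht x, rfle j ht y) := by
  obtain ⟨l, h1, h2⟩ := h.coord
  refine NN.of_coord (i := l) (fun m hm => ?_) ?_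
  · rw [rfle_apply, rfle_apply, h1 m hm]
  · rw [rfle_apply, rfle_apply]
    by_cases hl : l = j
    · rw [if_pos hl, if_pos hl]
      rcases t_cases ht with rfl | rfl
      · omega
      · omega
    · rw [if_neg hl, if_neg hl]
      exact h2

theorem sy_rfle (j : Fin d) {t : ℤ} (ht : t * t = 1) : Sy (rfle j ht) :=
  sy_of_forward (nn_rfle j ht) (fun x y h => nn_rfle j ht x y h)

/-- the symmetry which maps the slab `0 ≤ x i ≤ k` to `a ≤ t * x j ≤ a + k` -/
def mv (i j : Fin d) {t : ℤ} (ht : t * t = 1) (a : ℤ) : (Fin d → ℤ) ≃ (Fin d → ℤ) :=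
  ((swp i j).trans (tra (Pi.single j a))).trans (rfle j ht)

theorem sy_mv (i j : Fin d) {t : ℤ} (ht : t * t = 1) (a : ℤ) : Sy (mv i j ht a) :=
  ((sy_swp i j).trans (sy_tra _)).trans (sy_rfle j ht)

theorem mv_height (i j : Fin d) {t : ℤ} (ht : t * t = 1) (a : ℤ) (x : Fin d → ℤ) :
    t * (mv i j ht a x) j = x i + a := by
  unfold mv
  rw [Equiv.trans_apply, Equiv.trans_apply, rfle_apply, if_pos rfl, tra_apply, Pi.add_apply,
    swp_apply, Equiv.swap_apply_right, Pi.single_eq_same, ← mul_assoc, ht, one_mul]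

/-! ### Slabs in general position -/

/-- all pairs of points of the slabs are connected, inside the slab, with probability `≥ c` -/
def Stars (p : ℝ) (k : ℕ) (c : ℝ) : Prop :=
  ∀ (j : Fin d) (t : ℤ), t * t = 1 → ∀ (a : ℤ) (u v : Fin d → ℤ), a ≤ t * u j → t * u j ≤ a + k →
    a ≤ t * v j → t * v j ≤ a + k → ∃ R : Finset (Ed d),
      (∀ e ∈ R, ∀ x ∈ e.1, a ≤ t * x j ∧ t * x j ≤ a + k) ∧
      c ≤ PrP (fun _ => p) R (fun ω => RchE ω u v)

theorem PrP_subtype {p : ℝ} (E : Finset (Sym2 (Fin d → ℤ))) (hE : ∀ e ∈ E, NN e)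
    (A : Finset (Sym2 (Fin d → ℤ)) → Prop) :
    PrP (fun _ => p) E A =
      PrP (fun _ => p) (E.subtype NN) (fun ω => A (ω.map (Function.Embedding.subtype _))) := by
  have h1 : (E.subtype NN).map (Function.Embedding.subtype _) = E := by
    rw [Finset.subtype_map_of_mem hE]
  conv_lhs => rw [← h1]
  rw [PrP_map]

theorem stars_of_star {p θ : ℝ} (p0 : 0 ≤ p) (p1 : p ≤ 1) (hθ0 : 0 < θ) (hd : 2 ≤ d) {i : Fin d}
    {k : ℕ} {u0 : Fin d → ℤ} (hu0 : u0 ∈ slab i k)
    (hθ : ∀ n, θ ≤ q1 p (slab i k) (bx i k u0 n) u0) :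
    ∃ c : ℝ, 0 < c ∧ Stars (d := d) p k c := by
  obtain ⟨c, hc, hstar⟩ := star p0 p1 hθ0 hd hu0 hθ
  refine ⟨c, hc, fun j t ht a u v hu1 hu2 hv1 hv2 => ?_⟩
  set τ := mv i j ht a with hτ
  have hsy : Sy τ := sy_mv i j ht a
  have hin : ∀ w : Fin d → ℤ, a ≤ t * w j → t * w j ≤ a + k → τ.symm w ∈ slab i k := by
    intro w h1 h2
    have h3 := mv_height i j ht a (τ.symm w)
    rw [← hτ, Equiv.apply_symm_apply] at h3
    unfold slab
    rw [Set.mem_ofPred_eq]
    omega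
  obtain ⟨n, hn⟩ := hstar (τ.symm u) (hin u hu1 hu2) (τ.symm v) (hin v hv1 hv2)
  set E := (Eb (bx i k 0 n)).map (em τ) with hE
  have hENN : ∀ e ∈ E, NN e := by
    intro e he
    rw [hE, ← Eb_map hsy] at he
    exact (mem_Eb.1 he).1
  refine ⟨E.subtype NN, ?_, ?_⟩
  · intro e he x hx
    rw [Finset.mem_subtype, hE, ← Eb_map hsy] at he
    have h1 := (mem_Eb.1 he).2 x hx
    rw [Finset.mem_map_equiv] at h1
    have h2 := bx_sub i k 0 n (Finset.mem_coe.2 h1)
    unfold slab at h2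
    rw [Set.mem_ofPred_eq] at h2
    have h3 := mv_height i j ht a (τ.symm x)
    rw [← hτ, Equiv.apply_symm_apply] at h3
    omega
  · have h1 := PrP_subtype (p := p) E hENN (fun ω => Rch ω {u} v)
    have h2 : PrP (fun _ => p) E (fun ω => Rch ω {u} v) =
        PrP (fun _ => p) (Eb (bx i k 0 n)) (fun ω => Rch ω {τ.symm u} (τ.symm v)) := by
      rw [hE, PrP_map]
      apply PrP_congr
      intro ω _
      have := Rch_map_one (τ := τ) (ω := ω) (u := τ.symm u) (v := τ.symm v)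
      rwa [Equiv.apply_symm_apply, Equiv.apply_symm_apply] at this
    rw [h2] at h1
    unfold RchE
    rw [← h1]
    exact hn

/-! ### Layers -/

/-- edges with an end below height `a` -/
def Lo (j : Fin d) (t a : ℤ) : Set (Ed d) := {e | ∃ x ∈ e.1, t * x j < a}

theorem Lo_mono (j : Fin d) (t : ℤ) {a a' : ℤ} (h : a ≤ a') : Lo (d := d) j t a ⊆ Lo j t a' := by
  rintro e ⟨x, hx, h1⟩
  exact ⟨x, hx, by omega⟩

theorem opn_height {ω : Cfg d} {v w : Fin d → ℤ} (h : Opn ω v w) (j : Fin d) {t : ℤ}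
    (ht : t * t = 1) : t * w j ≤ t * v j + 1 := by
  obtain ⟨h, _⟩ := h
  obtain ⟨i, h1, h2⟩ := h.coord
  by_cases hij : j = i
  · subst hij
    rcases t_cases ht with rfl | rfl <;> omega
  · rw [h1 j hij]; omega

/-- a cluster which reaches height `a` does so through edges below -/
theorem hit_layer {ω : Cfg d} {x u : Fin d → ℤ} (h : Relation.ReflTransGen (Opn ω) x u)
    (j : Fin d) {t : ℤ} (ht : t * t = 1) {a : ℤ} (hx : t * x j < a) (hu : a ≤ t * u j) :
    ∃ u', t * u' j = a ∧ RT (Lo j t a) ω x u' := by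
  have key : ∀ v, Relation.ReflTransGen (Opn ω) x v →
      (∃ u', t * u' j = a ∧ RT (Lo j t a) ω x u') ∨ (t * v j < a ∧ RT (Lo j t a) ω x v) := by
    intro v hv
    induction hv with
    | refl => exact Or.inr ⟨hx, Relation.ReflTransGen.refl⟩
    | @tail v w _ hvw ih =>
      rcases ih with ih | ⟨h1, h2⟩
      · exact Or.inl ih
      · have h3 := opn_height hvw j ht
        obtain ⟨h4, h5⟩ := hvw
        have h6 : RT (Lo j t a) ω x w :=
          h2.tail ⟨h4, ⟨v, Sym2.mem_mk_left _ _, h1⟩, h5⟩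
        by_cases hw : t * w j < a
        · exact Or.inr ⟨hw, h6⟩
        · exact Or.inl ⟨w, by omega, h6⟩
  rcases key u h with h1 | ⟨h1, _⟩
  · exact h1
  · omega

/-- the cluster of `x` is unbounded in the direction `(j, t)` -/
def Unb (j : Fin d) (t : ℤ) (ω : Cfg d) (x : Fin d → ℤ) : Prop :=
  ∀ N : ℤ, ∃ u, Relation.ReflTransGen (Opn ω) x u ∧ N ≤ t * u j

theorem slab_edges_not {k : ℕ} {j : Fin d} {t a : ℤ} {R : Finset (Ed d)}
    (hR : ∀ e ∈ R, ∀ x ∈ e.1, a ≤ t * x j ∧ t * x j ≤ a + k) : ∀ e ∈ R, e ∉ Lo j t a := by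
  rintro e he ⟨x, hx, h⟩
  have := (hR e he x hx).1
  omega

theorem slab_edges_mem {k : ℕ} {j : Fin d} {t a : ℤ} {R : Finset (Ed d)}
    (hR : ∀ e ∈ R, ∀ x ∈ e.1, a ≤ t * x j ∧ t * x j ≤ a + k) :
    ∀ e ∈ R, e ∈ Lo j t (a + (k + 1)) := by
  intro e he
  obtain ⟨e, hee⟩ := e
  induction e with
  | _ x y =>
    refine ⟨x, Sym2.mem_mk_left _ _, ?_⟩
    have := (hR _ he x (Sym2.mem_mk_left _ _)).2
    omega

theorem exists_height (j : Fin d) {t : ℤ} (ht : t * t = 1) (a : ℤ) :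
    ∃ u : Fin d → ℤ, t * u j = a := by
  refine ⟨Function.update 0 j (t * a), ?_⟩
  rw [Function.update_self, ← mul_assoc, ht, one_mul]

/-- **Claim 1**: two clusters which are unbounded in the same direction are connected. -/
theorem claim1 {p q : ℝ} (p0 : 0 ≤ p) (p1 : p ≤ 1) (hq : 0 < q) {φ : Measure (Cfg d)}
    (h : IsFK p q φ) {k : ℕ} {c : ℝ} (hc : 0 < c) (hS : Stars (d := d) (pmin p q) k c)
    (j : Fin d) {t : ℤ} (ht : t * t = 1) (x y : Fin d → ℤ) :
    φ {ω | Unb j t ω x ∧ Unb j t ω y ∧ ¬ Relation.ReflTransGen (Opn ω) x y} = 0 := by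
  have hprob := h.prob
  set a0 : ℤ := max (t * x j) (t * y j) + 1 with ha0
  let a : ℕ → ℤ := fun i => a0 + i * (k + 1)
  have ha : ∀ i, a (i + 1) = a i + (k + 1) := by
    intro i
    simp only [a]
    push_cast
    ring
  have hax : ∀ i, t * x j < a i ∧ t * y j < a i := by
    intro i
    have h1 : (0 : ℤ) ≤ i * (k + 1) := by positivity
    have h2 := le_max_left (t * x j) (t * y j)
    have h3 := le_max_right (t * x j) (t * y j)
    simp only [a]
    constructor <;> omega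
  let T : ℕ → Set (Ed d) := fun i => Lo j t (a i)
  have hT : ∀ i, T i ⊆ T (i + 1) := fun i => Lo_mono j t (by rw [ha]; omega)
  let B : ℕ → Set (Cfg d) := fun i =>
    ((⋃ u : {u : Fin d → ℤ // t * u j = a i}, {ω | RT (T i) ω x u.1}) ∩
      (⋃ u : {u : Fin d → ℤ // t * u j = a i}, {ω | RT (T i) ω y u.1})) ∩ {ω | RT (T i) ω x y}ᶜ
  have hBm : ∀ i, MeasurableSet (B i) := fun i =>
    ((MeasurableSet.iUnion fun u => meas_RT _ _ _).inter
      (MeasurableSet.iUnion fun u => meas_RT _ _ _)).inter (meas_RT _ _ _).compl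
  have hBd : ∀ i, Det (T i) (B i) := fun i =>
    ((Det.iUnion fun u => det_RT _ _ _).inter (Det.iUnion fun u => det_RT _ _ _)).inter
      (det_RT _ _ _).compl
  have hanti : ∀ i, B (i + 1) ⊆ B i := by
    rintro i ω ⟨⟨h1, h2⟩, h3⟩
    obtain ⟨⟨u, hu⟩, hxu⟩ := Set.mem_iUnion.1 h1
    obtain ⟨⟨v, hv⟩, hyv⟩ := Set.mem_iUnion.1 h2
    rw [Set.mem_ofPred_eq] at hxu hyv
    have hle : a i ≤ a (i + 1) := by rw [ha]; omega
    obtain ⟨u', hu', hxu'⟩ := hit_layer hxu.opn j ht (hax i).1 (by rw [hu]; exact hle)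
    obtain ⟨v', hv', hyv'⟩ := hit_layer hyv.opn j ht (hax i).2 (by rw [hv]; exact hle)
    exact ⟨⟨Set.mem_iUnion.2 ⟨⟨u', hu'⟩, hxu'⟩, Set.mem_iUnion.2 ⟨⟨v', hv'⟩, hyv'⟩⟩,
      fun hxy => h3 (RT.mono (hT i) hxy)⟩
  have hsub : {ω | Unb j t ω x ∧ Unb j t ω y ∧ ¬ Relation.ReflTransGen (Opn ω) x y} ⊆ ⋂ i, B i := by
    rintro ω ⟨h1, h2, h3⟩
    rw [Set.mem_iInter]
    intro i
    obtain ⟨u, hu, hu'⟩ := h1 (a i)
    obtain ⟨v, hv, hv'⟩ := h2 (a i)
    obtain ⟨u1, hu1, hxu1⟩ := hit_layer hu j ht (hax i).1 hu'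
    obtain ⟨v1, hv1, hyv1⟩ := hit_layer hv j ht (hax i).2 hv'
    exact ⟨⟨Set.mem_iUnion.2 ⟨⟨u1, hu1⟩, hxu1⟩, Set.mem_iUnion.2 ⟨⟨v1, hv1⟩, hyv1⟩⟩,
      fun hxy => h3 (RT.opn hxy)⟩
  refine measure_mono_null hsub (climb_lim hc B fun i => ?_)
  -- one layer
  have hchoose : ∀ uv : {u : Fin d → ℤ // t * u j = a i} × {u : Fin d → ℤ // t * u j = a i},
      ∃ R : Finset (Ed d), (∀ e ∈ R, ∀ x ∈ e.1, a i ≤ t * x j ∧ t * x j ≤ a i + k) ∧
      c ≤ PrP (fun _ => pmin p q) R (fun ω => RchE ω uv.1.1 uv.2.1) := by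
    rintro ⟨⟨u, hu⟩, ⟨v, hv⟩⟩
    exact hS j t ht (a i) u v (by rw [hu]) (by rw [hu]; omega) (by rw [hv]) (by rw [hv]; omega)
  choose R hR1 hR2 using hchoose
  have hne : Nonempty ({u : Fin d → ℤ // t * u j = a i} × {u : Fin d → ℤ // t * u j = a i}) := by
    obtain ⟨u, hu⟩ := exists_height (d := d) j ht (a i)
    exact ⟨(⟨u, hu⟩, ⟨u, hu⟩)⟩
  refine climb_step p0 p1 hq h hc (T i) (B i) (B (i + 1)) (hBm i) (hBm _) (hBd i) (hanti i)
    (fun uv => {ω | RT (T i) ω x uv.1.1} ∩ {ω | RT (T i) ω y uv.2.1}) R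
    (fun uv ω => RchE ω uv.1.1 uv.2.1) (fun uv => (meas_RT _ _ _).inter (meas_RT _ _ _))
    (fun uv => (det_RT _ _ _).inter (det_RT _ _ _)) (fun uv => slab_edges_not (hR1 uv))
    (fun uv => inc_RchE _ _) hR2 ?_ ?_
  · rintro ω ⟨⟨h1, h2⟩, _⟩
    obtain ⟨u, hxu⟩ := Set.mem_iUnion.1 h1
    obtain ⟨v, hyv⟩ := Set.mem_iUnion.1 h2
    exact Set.mem_iUnion.2 ⟨(u, v), hxu, hyv⟩
  · rintro uv ω _ ⟨h1, h2⟩ h3 ⟨_, h4⟩
    apply h4
    have h5 : RT (T (i + 1)) ω uv.1.1 uv.2.1 := by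
      apply RchE.rt _ h3
      intro e he
      have := slab_edges_mem (hR1 uv) e he
      simp only [T]
      rw [ha]
      exact this
    have h6 : RT (T (i + 1)) ω x uv.1.1 := RT.mono (hT i) h1
    have h7 : RT (T (i + 1)) ω y uv.2.1 := RT.mono (hT i) h2
    exact (h6.trans h5).trans h7.symm

/-- **Claim 2**: a cluster which is unbounded in the direction `(j, t)` is unbounded in all
orthogonal directions. -/
theorem claim2 {p q : ℝ} (p0 : 0 ≤ p) (p1 : p ≤ 1) (hq : 0 < q) {φ : Measure (Cfg d)}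
    (h : IsFK p q φ) {k : ℕ} {c : ℝ} (hc : 0 < c) (hS : Stars (d := d) (pmin p q) k c)
    (j j' : Fin d) (hjj : j' ≠ j) {t t' : ℤ} (ht : t * t = 1) (ht' : t' * t' = 1)
    (x : Fin d → ℤ) : φ {ω | Unb j t ω x ∧ ¬ Unb j' t' ω x} = 0 := by
  have hprob := h.prob
  have hN : ∀ N : ℤ, φ {ω | Unb j t ω x ∧
      ∀ u, Relation.ReflTransGen (Opn ω) x u → t' * u j' < N} = 0 := by
    intro N
    let a : ℕ → ℤ := fun i => t * x j + 1 + i * (k + 1)
    have ha : ∀ i, a (i + 1) = a i + (k + 1) := by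
      intro i
      simp only [a]
      push_cast
      ring
    have hax : ∀ i, t * x j < a i := by
      intro i
      have h1 : (0 : ℤ) ≤ i * (k + 1) := by positivity
      simp only [a]
      omega
    let T : ℕ → Set (Ed d) := fun i => Lo j t (a i)
    have hT : ∀ i, T i ⊆ T (i + 1) := fun i => Lo_mono j t (by rw [ha]; omega)
    let B : ℕ → Set (Cfg d) := fun i =>
      (⋃ u : {u : Fin d → ℤ // t * u j = a i}, {ω | RT (T i) ω x u.1}) ∩
        (⋃ v : {v : Fin d → ℤ // N ≤ t' * v j'}, {ω | RT (T i) ω x v.1})ᶜ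
    have hBm : ∀ i, MeasurableSet (B i) := fun i =>
      (MeasurableSet.iUnion fun u => meas_RT _ _ _).inter
        (MeasurableSet.iUnion fun u => meas_RT _ _ _).compl
    have hBd : ∀ i, Det (T i) (B i) := fun i =>
      (Det.iUnion fun u => det_RT _ _ _).inter (Det.iUnion fun u => det_RT _ _ _).compl
    have hanti : ∀ i, B (i + 1) ⊆ B i := by
      rintro i ω ⟨h1, h3⟩
      obtain ⟨⟨u, hu⟩, hxu⟩ := Set.mem_iUnion.1 h1
      rw [Set.mem_ofPred_eq] at hxu
      have hle : a i ≤ a (i + 1) := by rw [ha]; omega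
      obtain ⟨u', hu', hxu'⟩ := hit_layer hxu.opn j ht (hax i) (by rw [hu]; exact hle)
      refine ⟨Set.mem_iUnion.2 ⟨⟨u', hu'⟩, hxu'⟩, fun hcon => h3 ?_⟩
      obtain ⟨v, hv⟩ := Set.mem_iUnion.1 hcon
      exact Set.mem_iUnion.2 ⟨v, RT.mono (hT i) hv⟩
    have hsub : {ω | Unb j t ω x ∧ ∀ u, Relation.ReflTransGen (Opn ω) x u → t' * u j' < N} ⊆
        ⋂ i, B i := by
      rintro ω ⟨h1, h3⟩
      rw [Set.mem_iInter]
      intro i
      obtain ⟨u, hu, hu'⟩ := h1 (a i)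
      obtain ⟨u1, hu1, hxu1⟩ := hit_layer hu j ht (hax i) hu'
      refine ⟨Set.mem_iUnion.2 ⟨⟨u1, hu1⟩, hxu1⟩, fun hcon => ?_⟩
      obtain ⟨⟨v, hv⟩, hxv⟩ := Set.mem_iUnion.1 hcon
      have := h3 v (RT.opn hxv)
      omega
    refine measure_mono_null hsub (climb_lim hc B fun i => ?_)
    -- the target of the connection
    let tg : {u : Fin d → ℤ // t * u j = a i} → (Fin d → ℤ) :=
      fun u => Function.update u.1 j' (t' * N)
    have htg1 : ∀ u, t * (tg u) j = a i := by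
      intro u
      simp only [tg]
      rw [Function.update_of_ne hjj.symm]
      exact u.2
    have htg2 : ∀ u, t' * (tg u) j' = N := by
      intro u
      simp only [tg]
      rw [Function.update_self, ← mul_assoc, ht', one_mul]
    have hchoose : ∀ u : {u : Fin d → ℤ // t * u j = a i},
        ∃ R : Finset (Ed d), (∀ e ∈ R, ∀ x ∈ e.1, a i ≤ t * x j ∧ t * x j ≤ a i + k) ∧
        c ≤ PrP (fun _ => pmin p q) R (fun ω => RchE ω u.1 (tg u)) := by
      intro u
      exact hS j t ht (a i) u.1 (tg u) (by rw [u.2]) (by rw [u.2]; omega) (by rw [htg1])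
        (by rw [htg1]; omega)
    choose R hR1 hR2 using hchoose
    have hne : Nonempty {u : Fin d → ℤ // t * u j = a i} := by
      obtain ⟨u, hu⟩ := exists_height (d := d) j ht (a i)
      exact ⟨⟨u, hu⟩⟩
    refine climb_step p0 p1 hq h hc (T i) (B i) (B (i + 1)) (hBm i) (hBm _) (hBd i) (hanti i)
      (fun u => {ω | RT (T i) ω x u.1}) R
      (fun u ω => RchE ω u.1 (tg u)) (fun u => meas_RT _ _ _)
      (fun u => det_RT _ _ _) (fun u => slab_edges_not (hR1 u))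
      (fun u => inc_RchE _ _) hR2 ?_ ?_
    · rintro ω ⟨h1, _⟩
      exact h1
    · rintro u ω _ h1 h3 ⟨_, h4⟩
      apply h4
      have h5 : RT (T (i + 1)) ω u.1 (tg u) := by
        apply RchE.rt _ h3
        intro e he
        have := slab_edges_mem (hR1 u) e he
        simp only [T]
        rw [ha]
        exact this
      have h6 : RT (T (i + 1)) ω x u.1 := RT.mono (hT i) h1
      exact Set.mem_iUnion.2 ⟨⟨tg u, by rw [htg2]⟩, h6.trans h5⟩
  have hsub : {ω | Unb j t ω x ∧ ¬ Unb j' t' ω x} ⊆ ⋃ N : ℤ, {ω | Unb j t ω x ∧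
      ∀ u, Relation.ReflTransGen (Opn ω) x u → t' * u j' < N} := by
    rintro ω ⟨h1, h2⟩
    unfold Unb at h2
    push Not at h2
    obtain ⟨N, hN⟩ := h2
    exact Set.mem_iUnion.2 ⟨N, h1, hN⟩
  exact measure_mono_null hsub (measure_iUnion_null hN)

/-! ### Infinite clusters -/

theorem exists_unb {ω : Cfg d} {x : Fin d → ℤ} (h : (clus ω x).Infinite) :
    ∃ (j : Fin d) (t : ℤ), t * t = 1 ∧ Unb j t ω x := by
  by_contra hcon
  push Not at hcon
  apply h
  have h1 : ∀ j : Fin d, ∃ N : ℤ, ∀ u ∈ clus ω x, -N ≤ u j ∧ u j ≤ N := by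
    intro j
    have e1 := hcon j 1 (by norm_num)
    have e2 := hcon j (-1) (by norm_num)
    unfold Unb at e1 e2
    push Not at e1 e2
    obtain ⟨N1, h1⟩ := e1
    obtain ⟨N2, h2⟩ := e2
    refine ⟨max N1 N2, fun u hu => ?_⟩
    have h3 := h1 u hu
    have h4 := h2 u hu
    omega
  choose N hN using h1
  refine Set.Finite.subset (Finset.finite_toSet (Fintype.piFinset (fun j => Icc (-(N j)) (N j)))) ?_
  intro u hu
  rw [Finset.mem_coe, Fintype.mem_piFinset]
  intro j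
  rw [Finset.mem_Icc]
  exact hN j u hu

/-- at most one infinite cluster -/
def AtMostOne (ω : Cfg d) : Prop :=
  ∀ x y, (clus ω x).Infinite → (clus ω y).Infinite → Relation.ReflTransGen (Opn ω) x y

theorem unique_of_stars {p q : ℝ} (p0 : 0 ≤ p) (p1 : p ≤ 1) (hq : 0 < q) {φ : Measure (Cfg d)}
    (h : IsFK p q φ) {k : ℕ} {c : ℝ} (hc : 0 < c) (hS : Stars (d := d) (pmin p q) k c)
    (hd : 2 ≤ d) : ∀ᵐ ω ∂φ, AtMostOne ω := by
  let j1 : Fin d := ⟨0, by omega⟩
  let j2 : Fin d := ⟨1, by omega⟩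
  have hj : j2 ≠ j1 := by
    intro hh
    have := congrArg Fin.val hh
    simp [j1, j2] at this
  have h1 : ∀ᵐ ω ∂φ, ∀ x y, ¬ (Unb j1 1 ω x ∧ Unb j1 1 ω y ∧
      ¬ Relation.ReflTransGen (Opn ω) x y) := by
    rw [ae_all_iff]; intro x
    rw [ae_all_iff]; intro y
    rw [ae_iff]
    simp only [not_not]
    exact claim1 p0 p1 hq h hc hS j1 (by norm_num) x y
  have h2 : ∀ᵐ ω ∂φ, ∀ (x : Fin d → ℤ) (j j' : Fin d) (b b' : Bool), j' ≠ j →
      ¬ (Unb j (if b then 1 else -1) ω x ∧ ¬ Unb j' (if b' then 1 else -1) ω x) := by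
    rw [ae_all_iff]; intro x
    rw [ae_all_iff]; intro j
    rw [ae_all_iff]; intro j'
    rw [ae_all_iff]; intro b
    rw [ae_all_iff]; intro b'
    by_cases hjj : j' ≠ j
    · rw [ae_iff]
      have : {ω : Cfg d | ¬ (j' ≠ j → ¬ (Unb j (if b then 1 else -1) ω x ∧
          ¬ Unb j' (if b' then 1 else -1) ω x))} =
          {ω | Unb j (if b then 1 else -1) ω x ∧ ¬ Unb j' (if b' then 1 else -1) ω x} := by
        ext ω
        simp only [Set.mem_ofPred_eq]
        tauto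
      rw [this]
      exact claim2 p0 p1 hq h hc hS j j' hjj (by cases b <;> norm_num) (by cases b' <;> norm_num) x
    · filter_upwards with ω hcon
      exact absurd hcon hjj
  filter_upwards [h1, h2] with ω g1 g2 x y hx hy
  have key : ∀ x, (clus ω x).Infinite → Unb j1 1 ω x := by
    intro x hx
    obtain ⟨j, t, ht, hu⟩ := exists_unb hx
    obtain ⟨b, rfl⟩ : ∃ b : Bool, t = if b then 1 else -1 := by
      rcases t_cases ht with h | h
      · exact ⟨true, by simp [h]⟩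
      · exact ⟨false, by simp [h]⟩
    by_cases hjj : j1 = j
    · have a1 : Unb j2 1 ω x := by
        by_contra hcon
        exact g2 x j j2 b true (by rw [← hjj]; exact hj) ⟨hu, hcon⟩
      by_contra hcon
      exact g2 x j2 j1 true true hj.symm ⟨a1, hcon⟩
    · by_contra hcon
      exact g2 x j j1 b true hjj ⟨hu, hcon⟩
  by_contra hcon
  exact g1 x y ⟨key x hx, key y hy, hcon⟩

end Pool.Agent.H29.FK
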