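import Pool.Agent.H99.NC.PrP

/-!
Exploration of clusters in a finite graph: exponential inequality and the two-arm bound.
-/

set_option autoImplicit false
set_option linter.unusedSectionVars false
open Finset

namespace Pool.Agent.H29.FK

open Pool.Agent.H99.NC Pool.Agent.H75.Perc
open Classical

variable {V : Type*} [DecidableEq V]

/-- `v` is reached from `X` by open edges. -/
def Rch (ω : Finset (Sym2 V)) (X : Set V) (v : V) : Prop :=
  ∃ x ∈ X, Relation.ReflTransGen (fun a b => s(a, b) ∈ ω) x v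

theorem Rch.of_mem {ω : Finset (Sym2 V)} {X : Set V} {v : V} (h : v ∈ X) : Rch ω X v :=
  ⟨v, h, Relation.ReflTransGen.refl⟩

theorem Rch.tail {ω : Finset (Sym2 V)} {X : Set V} {a b : V} (h : Rch ω X a) (hb : s(a, b) ∈ ω) :
    Rch ω X b := by
  obtain ⟨x, hx, h⟩ := h
  exact ⟨x, hx, h.tail hb⟩

theorem Rch.mono {ω ω' : Finset (Sym2 V)} (hω : ω ⊆ ω') {X : Set V} {v : V} (h : Rch ω X v) :
    Rch ω' X v := by
  obtain ⟨x, hx, h⟩ := h
  exact ⟨x, hx, Relation.ReflTransGen.mono (fun a b hab => hω hab) _ _ h⟩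

theorem Rch.mono_set {ω : Finset (Sym2 V)} {X X' : Set V} (hX : X ⊆ X') {v : V} (h : Rch ω X v) :
    Rch ω X' v := by
  obtain ⟨x, hx, h⟩ := h
  exact ⟨x, hX hx, h⟩

theorem rch_trans {ω : Finset (Sym2 V)} {X : Set V} {a b : V} (h : Rch ω X a)
    (hb : Rch ω {a} b) : Rch ω X b := by
  obtain ⟨x, hx, h⟩ := h
  obtain ⟨y, hy, hb⟩ := hb
  rw [Set.mem_singleton_iff] at hy
  subst hy
  exact ⟨x, hx, h.trans hb⟩

theorem rtg_symm {ω : Finset (Sym2 V)} {a b : V}
    (h : Relation.ReflTransGen (fun a b => s(a, b) ∈ ω) a b) :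
    Relation.ReflTransGen (fun a b => s(a, b) ∈ ω) b a := by
  induction h with
  | refl => exact Relation.ReflTransGen.refl
  | tail _ hbc ih => exact Relation.ReflTransGen.head (by rw [Sym2.eq_swap]; exact hbc) ih

theorem rch_symm {ω : Finset (Sym2 V)} {a b : V} (h : Rch ω {a} b) : Rch ω {b} a := by
  obtain ⟨y, hy, hb⟩ := h
  rw [Set.mem_singleton_iff] at hy
  subst hy
  exact ⟨b, rfl, rtg_symm hb⟩

theorem rch_insert {ω : Finset (Sym2 V)} {X : Set V} {x y v : V} (hx : x ∈ X) :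
    Rch (insert s(x, y) ω) X v ↔ Rch ω (insert y X) v := by
  constructor
  · rintro ⟨z, hz, h⟩
    induction h with
    | refl => exact Rch.of_mem (Set.mem_insert_of_mem _ hz)
    | tail _ hbc ih =>
      rcases Finset.mem_insert.1 hbc with h | h
      · rcases Sym2.eq_iff.1 h with ⟨_, rfl⟩ | ⟨_, rfl⟩
        · exact Rch.of_mem (Set.mem_insert _ _)
        · exact Rch.of_mem (Set.mem_insert_of_mem _ hx)
      · exact ih.tail h
  · rintro ⟨z, hz, h⟩
    rcases Set.mem_insert_iff.1 hz with rfl | hz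
    · refine ⟨x, hx, Relation.ReflTransGen.head (Finset.mem_insert_self _ _) ?_⟩
      exact Relation.ReflTransGen.mono (fun a b hab => Finset.mem_insert_of_mem hab) _ _ h
    · exact ⟨z, hz, Relation.ReflTransGen.mono (fun a b hab => Finset.mem_insert_of_mem hab) _ _ h⟩

/-- The edges of `E` which touch the set `C`. -/
noncomputable def tE (E : Finset (Sym2 V)) (C : Set V) : Finset (Sym2 V) :=
  E.filter (fun e => ∃ v ∈ e, v ∈ C)

theorem mem_tE {E : Finset (Sym2 V)} {C : Set V} {e : Sym2 V} :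
    e ∈ tE E C ↔ e ∈ E ∧ ∃ v ∈ e, v ∈ C := by
  unfold tE
  rw [Finset.mem_filter]

theorem tE_sub (E : Finset (Sym2 V)) (C : Set V) : tE E C ⊆ E := Finset.filter_subset _ _

/-- The cluster of `X`. -/
def cl (ω : Finset (Sym2 V)) (X : Set V) : Set V := {v | Rch ω X v}

theorem mem_cl {ω : Finset (Sym2 V)} {X : Set V} {v : V} : v ∈ cl ω X ↔ Rch ω X v := Iff.rfl

theorem ex_explore {p g1 g0 : ℝ} (p0 : 0 ≤ p) (p1 : p ≤ 1) (h1 : 0 ≤ g1) (h0 : 0 ≤ g0)
    (hg : p * g1 + (1 - p) * g0 ≤ 1) (n : ℕ) : ∀ (E : Finset (Sym2 V)) (X : Set V), E.card = n →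
    Ex (fun _ => p) E (fun ω => ∏ e ∈ tE E (cl ω X), if e ∈ ω then g1 else g0) ≤ 1 := by
  induction n with
  | zero =>
    intro E X hE
    rw [Finset.card_eq_zero] at hE
    subst hE
    simp [tE]
  | succ n ih =>
    intro E X hE
    by_cases hX : ∃ e ∈ E, ∃ x ∈ e, x ∈ X
    · obtain ⟨e, he, x, hxe, hxX⟩ := hX
      obtain ⟨y, rfl⟩ := Sym2.mem_iff_exists.1 hxe
      set E' := E.erase s(x, y) with hE'
      have hins : E = insert s(x, y) E' := (Finset.insert_erase he).symm
      have hne : s(x, y) ∉ E' := Finset.notMem_erase _ _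
      have hcard : E'.card = n := by
        rw [hE', Finset.card_erase_of_mem he, hE]; rfl
      rw [hins, Ex_insert _ hne]
      have e0 : ∀ ω, ω ⊆ E' → (∏ e ∈ tE (insert s(x, y) E') (cl ω X), if e ∈ ω then g1 else g0)
          = g0 * ∏ e ∈ tE E' (cl ω X), if e ∈ ω then g1 else g0 := by
        intro ω hω
        have : tE (insert s(x, y) E') (cl ω X) = insert s(x, y) (tE E' (cl ω X)) := by
          unfold tE
          rw [Finset.filter_insert, if_pos ⟨x, hxe, Rch.of_mem hxX⟩]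
        rw [this, Finset.prod_insert (fun h => hne (tE_sub _ _ h)),
          if_neg (fun h => hne (hω h))]
      have e1 : ∀ ω, ω ⊆ E' → (∏ e ∈ tE (insert s(x, y) E') (cl (insert s(x, y) ω) X),
          if e ∈ insert s(x, y) ω then g1 else g0)
          = g1 * ∏ e ∈ tE E' (cl ω (insert y X)), if e ∈ ω then g1 else g0 := by
        intro ω hω
        have hcl : cl (insert s(x, y) ω) X = cl ω (insert y X) := by
          ext v; exact rch_insert hxX
        have : tE (insert s(x, y) E') (cl ω (insert y X))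
            = insert s(x, y) (tE E' (cl ω (insert y X))) := by
          unfold tE
          rw [Finset.filter_insert, if_pos ⟨x, hxe, Rch.of_mem (Set.mem_insert_of_mem _ hxX)⟩]
        rw [hcl, this, Finset.prod_insert (fun h => hne (tE_sub _ _ h)),
          if_pos (Finset.mem_insert_self _ _)]
        congr 1
        apply Finset.prod_congr rfl
        intro e he
        have hee : e ≠ s(x, y) := fun h => hne (h ▸ tE_sub _ _ he)
        have hiff : e ∈ insert s(x, y) ω ↔ e ∈ ω := by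
          rw [Finset.mem_insert]
          exact ⟨fun h => h.resolve_left hee, Or.inr⟩
        by_cases h : e ∈ ω
        · rw [if_pos h, if_pos (hiff.2 h)]
        · rw [if_neg h, if_neg (fun h' => h (hiff.1 h'))]
      rw [Ex_congr e0, Ex_congr e1, Ex_smul, Ex_smul]
      have i0 := ih E' X hcard
      have i1 := ih E' (insert y X) hcard
      have j0 : (1 - p) * (g0 * Ex (fun _ => p) E' (fun ω => ∏ e ∈ tE E' (cl ω X),
          if e ∈ ω then g1 else g0)) ≤ (1 - p) * (g0 * 1) :=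
        mul_le_mul_of_nonneg_left (mul_le_mul_of_nonneg_left i0 h0) (by linarith)
      have j1 : p * (g1 * Ex (fun _ => p) E' (fun ω => ∏ e ∈ tE E' (cl ω (insert y X)),
          if e ∈ ω then g1 else g0)) ≤ p * (g1 * 1) :=
        mul_le_mul_of_nonneg_left (mul_le_mul_of_nonneg_left i1 h1) p0
      linarith
    · push Not at hX
      have key : ∀ ω, ω ⊆ E → (∏ e ∈ tE E (cl ω X), if e ∈ ω then g1 else g0) = 1 := by
        intro ω hω
        have hcl : ∀ v, Rch ω X v → v ∈ X := by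
          rintro v ⟨z, hz, h⟩
          induction h with
          | refl => exact hz
          | tail _ hbc ih' =>
            exact absurd ih' (hX _ (hω hbc) _ (Sym2.mem_mk_left _ _))
        have : tE E (cl ω X) = ∅ := by
          unfold tE
          rw [Finset.filter_eq_empty_iff]
          rintro e he ⟨v, hv, hvc⟩
          exact hX e he v hv (hcl v hvc)
        rw [this, Finset.prod_empty]
      rw [Ex_congr key, Ex_const]

theorem mgf_le {p s : ℝ} (p0 : 0 ≤ p) (p1 : p ≤ 1) (hs : |s| ≤ 1) :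
    p * Real.exp (s * (p - 1) - s ^ 2 / 4) + (1 - p) * Real.exp (s * p - s ^ 2 / 4) ≤ 1 := by
  have hs' := abs_le.1 hs
  have hexp : ∀ x : ℝ, |x| ≤ 1 → Real.exp x ≤ 1 + x + x ^ 2 := by
    intro x hx
    have := abs_le.1 (Real.abs_exp_sub_one_sub_id_le hx)
    linarith [this.2]
  have a1 : |s * (p - 1)| ≤ 1 := by
    rw [abs_mul]
    have : |p - 1| ≤ 1 := by rw [abs_le]; constructor <;> linarith
    calc |s| * |p - 1| ≤ 1 * 1 := mul_le_mul hs this (abs_nonneg _) zero_le_one
      _ = 1 := one_mul 1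
  have a2 : |s * p| ≤ 1 := by
    rw [abs_mul]
    have : |p| ≤ 1 := by rw [abs_le]; constructor <;> linarith
    calc |s| * |p| ≤ 1 * 1 := mul_le_mul hs this (abs_nonneg _) zero_le_one
      _ = 1 := one_mul 1
  have b1 := hexp _ a1
  have b2 := hexp _ a2
  rw [Real.exp_sub, Real.exp_sub, mul_div_assoc', mul_div_assoc', ← add_div,
    div_le_one (Real.exp_pos _)]
  have c1 : p * Real.exp (s * (p - 1)) ≤ p * (1 + s * (p - 1) + (s * (p - 1)) ^ 2) :=
    mul_le_mul_of_nonneg_left b1 p0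
  have c2 : (1 - p) * Real.exp (s * p) ≤ (1 - p) * (1 + s * p + (s * p) ^ 2) :=
    mul_le_mul_of_nonneg_left b2 (by linarith)
  have c3 := Real.add_one_le_exp (s ^ 2 / 4)
  have c4 : p * (1 + s * (p - 1) + (s * (p - 1)) ^ 2) + (1 - p) * (1 + s * p + (s * p) ^ 2)
      = 1 + s ^ 2 * (p * (1 - p)) := by ring
  have c5 : s ^ 2 * (p * (1 - p)) ≤ s ^ 2 / 4 := by
    have : p * (1 - p) ≤ 1 / 4 := by nlinarith [sq_nonneg (p - 1 / 2)]
    have := mul_le_mul_of_nonneg_left this (sq_nonneg s)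
    linarith
  linarith

/-- the excess of closed edges -/
noncomputable def hh (p : ℝ) (E ω : Finset (Sym2 V)) (C : Set V) : ℝ :=
  p * (tE E C).card - ((tE E C).filter (fun e => e ∈ ω)).card

theorem ex_exp {p s : ℝ} (p0 : 0 ≤ p) (p1 : p ≤ 1) (hs : |s| ≤ 1) (E : Finset (Sym2 V))
    (X : Set V) : Ex (fun _ => p) E (fun ω => Real.exp (s * hh p E ω (cl ω X)
      - s ^ 2 / 4 * (tE E (cl ω X)).card)) ≤ 1 := by
  refine le_trans (le_of_eq ?_) (ex_explore p0 p1 (Real.exp_pos _).le (Real.exp_pos _).le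
    (mgf_le p0 p1 hs) E.card E X rfl)
  apply Ex_congr
  intro ω _
  set T := tE E (cl ω X) with hT
  have h1 : ∀ e ∈ T, (if e ∈ ω then Real.exp (s * (p - 1) - s ^ 2 / 4)
      else Real.exp (s * p - s ^ 2 / 4)) = Real.exp ((s * p - s ^ 2 / 4)
        - s * (if e ∈ ω then 1 else 0)) := by
    intro e _
    by_cases h : e ∈ ω
    · rw [if_pos h, if_pos h]; congr 1; ring
    · rw [if_neg h, if_neg h]; congr 1; ring
  rw [Finset.prod_congr rfl h1, ← Real.exp_sum]
  congr 1
  rw [Finset.sum_sub_distrib, Finset.sum_const, ← Finset.mul_sum, Finset.sum_boole, nsmul_eq_mul]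
  unfold hh
  rw [← hT]
  ring

theorem markov_exp {p s lam : ℝ} (p0 : 0 ≤ p) (p1 : p ≤ 1) (hs : |s| ≤ 1) (E : Finset (Sym2 V))
    (X : Set V) : PrP (fun _ => p) E (fun ω => lam ≤ s * hh p E ω (cl ω X)
      - s ^ 2 / 4 * (tE E (cl ω X)).card) ≤ Real.exp (-lam) := by
  have h1 := ex_exp p0 p1 hs E X
  have h2 : Real.exp lam * PrP (fun _ => p) E (fun ω => lam ≤ s * hh p E ω (cl ω X)
      - s ^ 2 / 4 * (tE E (cl ω X)).card) ≤ 1 := by
    refine le_trans ?_ h1
    unfold PrP
    rw [← Ex_smul]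
    apply Ex_mono (Pb.const p0 p1)
    intro ω _
    by_cases h : lam ≤ s * hh p E ω (cl ω X) - s ^ 2 / 4 * (tE E (cl ω X)).card
    · rw [ind_true h, mul_one]
      exact Real.exp_le_exp.2 h
    · rw [ind_false h, mul_zero]
      exact (Real.exp_pos _).le
  rw [Real.exp_neg, ← one_div, le_div_iff₀ (Real.exp_pos _), mul_comm]
  exact h2

/-! ### Distinct clusters -/

/-- The closed edges which join two distinct clusters touching `B`. -/
noncomputable def DD (E : Finset (Sym2 V)) (B : Finset V) (ω : Finset (Sym2 V)) :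
    Finset (Sym2 V) :=
  E.filter (fun e => e ∉ ω ∧ ∃ x ∈ e, ∃ y ∈ e, Rch ω B x ∧ Rch ω B y ∧ ¬ Rch ω {x} y)

theorem rch_B {ω : Finset (Sym2 V)} {B : Finset V} {v : V} :
    Rch ω (B : Set V) v ↔ ∃ b ∈ B, Rch ω {b} v := by
  constructor
  · rintro ⟨x, hx, h⟩
    exact ⟨x, hx, x, rfl, h⟩
  · rintro ⟨b, hb, h⟩
    exact h.mono_set (by rw [Set.singleton_subset_iff]; exact hb)

theorem cl_eq {ω : Finset (Sym2 V)} {a b : V} (h : Rch ω {a} b) : cl ω {a} = cl ω {b} := by
  ext v
  exact ⟨fun hv => rch_trans (rch_symm h) hv, fun hv => rch_trans h hv⟩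

/-- The clusters touching `B`. -/
noncomputable def CC (B : Finset V) (ω : Finset (Sym2 V)) : Finset (Set V) :=
  B.image (fun b => cl ω {b})

theorem mem_CC {B : Finset V} {ω : Finset (Sym2 V)} {C : Set V} :
    C ∈ CC B ω ↔ ∃ b ∈ B, cl ω {b} = C := by
  unfold CC
  rw [Finset.mem_image]

theorem CC_eq {B : Finset V} {ω : Finset (Sym2 V)} {C : Set V} (hC : C ∈ CC B ω) {v : V}
    (hv : v ∈ C) : C = cl ω {v} := by
  obtain ⟨b, _, rfl⟩ := mem_CC.1 hC
  exact cl_eq hv

theorem cl_mem_CC {B : Finset V} {ω : Finset (Sym2 V)} {v : V} (hv : Rch ω (B : Set V) v) :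
    cl ω {v} ∈ CC B ω := by
  obtain ⟨b, hb, h⟩ := rch_B.1 hv
  exact mem_CC.2 ⟨b, hb, cl_eq h⟩

theorem rch_of_CC {B : Finset V} {ω : Finset (Sym2 V)} {C : Set V} (hC : C ∈ CC B ω) {v : V}
    (hv : v ∈ C) : Rch ω (B : Set V) v := by
  obtain ⟨b, hb, rfl⟩ := mem_CC.1 hC
  exact rch_B.2 ⟨b, hb, hv⟩

/-- the number of clusters touched by an edge -/
noncomputable def nn (B : Finset V) (ω : Finset (Sym2 V)) (e : Sym2 V) : ℕ :=
  ((CC B ω).filter (fun C => ∃ v ∈ e, v ∈ C)).card

theorem nn_le_two (B : Finset V) (ω : Finset (Sym2 V)) (e : Sym2 V) : nn B ω e ≤ 2 := by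
  induction e with
  | _ x y =>
    unfold nn
    refine (Finset.card_le_card (t := {cl ω {x}, cl ω {y}}) ?_).trans Finset.card_le_two
    intro C hC
    rw [Finset.mem_filter] at hC
    obtain ⟨hC, v, hv, hvC⟩ := hC
    have := CC_eq hC hvC
    rcases Sym2.mem_iff.1 hv with rfl | rfl
    · rw [this]; simp
    · rw [this]; simp

theorem nn_open {B : Finset V} {ω : Finset (Sym2 V)} {e : Sym2 V} (he : e ∈ ω) :
    nn B ω e ≤ 1 := by
  induction e with
  | _ x y =>
    unfold nn
    refine (Finset.card_le_card (t := {cl ω {x}}) ?_).trans (Finset.card_singleton _).le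
    intro C hC
    rw [Finset.mem_filter] at hC
    obtain ⟨hC, v, hv, hvC⟩ := hC
    have h1 := CC_eq hC hvC
    have h2 : Rch ω {x} y := (Rch.of_mem (Set.mem_singleton x)).tail he
    rcases Sym2.mem_iff.1 hv with rfl | rfl
    · rw [h1]; simp
    · rw [h1, cl_eq h2]; simp

theorem nn_zero {B : Finset V} {ω : Finset (Sym2 V)} {e : Sym2 V}
    (he : ¬ ∃ v ∈ e, v ∈ cl ω (B : Set V)) : nn B ω e = 0 := by
  unfold nn
  rw [Finset.card_eq_zero, Finset.filter_eq_empty_iff]
  rintro C hC ⟨v, hv, hvC⟩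
  exact he ⟨v, hv, rch_of_CC hC hvC⟩

theorem nn_pos {B : Finset V} {ω : Finset (Sym2 V)} {e : Sym2 V}
    (he : ∃ v ∈ e, v ∈ cl ω (B : Set V)) : 1 ≤ nn B ω e := by
  obtain ⟨v, hv, hvc⟩ := he
  unfold nn
  rw [Nat.one_le_iff_ne_zero, ← Nat.pos_iff_ne_zero, Finset.card_pos]
  exact ⟨cl ω {v}, Finset.mem_filter.2 ⟨cl_mem_CC hvc, v, hv, Rch.of_mem rfl⟩⟩

theorem nn_DD {E : Finset (Sym2 V)} {B : Finset V} {ω : Finset (Sym2 V)} {e : Sym2 V}
    (he : e ∈ DD E B ω) : 2 ≤ nn B ω e := by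
  unfold DD at he
  rw [Finset.mem_filter] at he
  obtain ⟨_, _, x, hx, y, hy, hxB, hyB, hxy⟩ := he
  unfold nn
  have hne : cl ω {x} ≠ cl ω {y} := by
    intro h
    apply hxy
    have : y ∈ cl ω {x} := by rw [h]; exact Rch.of_mem rfl
    exact this
  rw [← Finset.card_pair hne]
  apply Finset.card_le_card
  intro C hC
  rw [Finset.mem_insert, Finset.mem_singleton] at hC
  rw [Finset.mem_filter]
  rcases hC with rfl | rfl
  · exact ⟨cl_mem_CC hxB, x, hx, Rch.of_mem rfl⟩
  · exact ⟨cl_mem_CC hyB, y, hy, Rch.of_mem rfl⟩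

theorem sum_tE (E F : Finset (Sym2 V)) (B : Finset V) (ω : Finset (Sym2 V)) :
    ∑ C ∈ CC B ω, ((tE E C).filter (fun e => e ∈ F)).card
      = ∑ e ∈ E.filter (fun e => e ∈ F), nn B ω e := by
  have h1 : ∀ C : Set V, ((tE E C).filter (fun e => e ∈ F)).card
      = ∑ e ∈ E.filter (fun e => e ∈ F), if (∃ v ∈ e, v ∈ C) then 1 else 0 := by
    intro C
    rw [Finset.sum_boole, Nat.cast_id]
    congr 1
    ext e
    simp only [tE, Finset.mem_filter]
    tauto
  have h2 : ∀ e, nn B ω e = ∑ C ∈ CC B ω, if (∃ v ∈ e, v ∈ C) then 1 else 0 := by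
    intro e
    unfold nn
    rw [Finset.sum_boole, Nat.cast_id]
  simp only [h1, h2]
  exact Finset.sum_comm

theorem sum_tE' (E : Finset (Sym2 V)) (B : Finset V) (ω : Finset (Sym2 V)) :
    ∑ C ∈ CC B ω, (tE E C).card = ∑ e ∈ E, nn B ω e := by
  have h := sum_tE E E B ω
  have h1 : ∀ C : Set V, (tE E C).filter (fun e => e ∈ E) = tE E C := fun C =>
    Finset.filter_true_of_mem fun e he => tE_sub _ _ he
  have h2 : E.filter (fun e => e ∈ E) = E := Finset.filter_true_of_mem fun e he => he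
  simp only [h1, h2] at h
  exact h

theorem det_ineq {p : ℝ} (p0 : 0 ≤ p) (E : Finset (Sym2 V)) (B : Finset V)
    (ω : Finset (Sym2 V)) (hω : ω ⊆ E) :
    p * (DD E B ω).card ≤ ∑ C ∈ CC B ω, hh p E ω C - hh p E ω (cl ω (B : Set V)) := by
  have h1 : (tE E (cl ω (B : Set V))).card + (DD E B ω).card ≤ ∑ C ∈ CC B ω, (tE E C).card := by
    rw [sum_tE']
    have hsub : DD E B ω ⊆ E := Finset.filter_subset _ _
    have e1 : (tE E (cl ω (B : Set V))).card = ∑ e ∈ E,
        if (∃ v ∈ e, v ∈ cl ω (B : Set V)) then 1 else 0 := by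
      rw [Finset.sum_boole, Nat.cast_id]; rfl
    have e2 : (DD E B ω).card = ∑ e ∈ E, if e ∈ DD E B ω then 1 else 0 := by
      rw [Finset.sum_boole, Nat.cast_id]
      congr 1
      ext e
      rw [Finset.mem_filter]
      exact ⟨fun h => ⟨hsub h, h⟩, fun h => h.2⟩
    rw [e1, e2, ← Finset.sum_add_distrib]
    apply Finset.sum_le_sum
    intro e _
    by_cases hD : e ∈ DD E B ω
    · have := nn_DD hD
      have h3 : (if (∃ v ∈ e, v ∈ cl ω (B : Set V)) then 1 else 0) ≤ 1 := by split_ifs <;> simp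
      rw [if_pos hD]
      omega
    · rw [if_neg hD]
      by_cases ht : ∃ v ∈ e, v ∈ cl ω (B : Set V)
      · rw [if_pos ht]; exact nn_pos ht
      · rw [if_neg ht]; exact Nat.zero_le _
  have h2 : ∑ C ∈ CC B ω, ((tE E C).filter (fun e => e ∈ ω)).card
      ≤ ((tE E (cl ω (B : Set V))).filter (fun e => e ∈ ω)).card := by
    rw [sum_tE]
    have e1 : ((tE E (cl ω (B : Set V))).filter (fun e => e ∈ ω)).card
        = ∑ e ∈ E.filter (fun e => e ∈ ω),
          if (∃ v ∈ e, v ∈ cl ω (B : Set V)) then 1 else 0 := by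
      rw [Finset.sum_boole, Nat.cast_id]
      congr 1
      ext e
      simp only [tE, Finset.mem_filter]
      tauto
    rw [e1]
    apply Finset.sum_le_sum
    intro e he
    rw [Finset.mem_filter] at he
    by_cases ht : ∃ v ∈ e, v ∈ cl ω (B : Set V)
    · rw [if_pos ht]; exact nn_open he.2
    · rw [if_neg ht, nn_zero ht]
  unfold hh
  rw [Finset.sum_sub_distrib, ← Finset.mul_sum]
  have h1' : ((tE E (cl ω (B : Set V))).card : ℝ) + (DD E B ω).card
      ≤ ∑ C ∈ CC B ω, ((tE E C).card : ℝ) := by exact_mod_cast h1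
  have h2' : ∑ C ∈ CC B ω, (((tE E C).filter (fun e => e ∈ ω)).card : ℝ)
      ≤ (((tE E (cl ω (B : Set V))).filter (fun e => e ∈ ω)).card : ℝ) := by exact_mod_cast h2
  have h3 := mul_le_mul_of_nonneg_left h1' p0
  linarith

/-- The two-arm bound in a finite graph. -/
theorem two_arm {p s lam : ℝ} (p0 : 0 < p) (p1 : p ≤ 1) (s0 : 0 < s) (s1 : s ≤ 1)
    (hlam : 0 ≤ lam) (E : Finset (Sym2 V)) (B : Finset V) :
    ∑ e ∈ E, PrP (fun _ => p) E (fun ω => e ∈ DD E B ω) ≤
      (3 / 4 * s * E.card + (B.card + 1) * lam / s) / p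
        + E.card * ((B.card + 1) * Real.exp (-lam)) := by
  have hPb := Pb.const (α := Sym2 V) p0.le p1
  set bad : Finset (Sym2 V) → Prop := fun ω =>
    (∃ b ∈ B, lam ≤ s * hh p E ω (cl ω {b}) - s ^ 2 / 4 * (tE E (cl ω {b})).card) ∨
      lam ≤ (-s) * hh p E ω (cl ω (B : Set V)) - (-s) ^ 2 / 4 * (tE E (cl ω (B : Set V))).card
    with hbad
  have hbadP : PrP (fun _ => p) E bad ≤ (B.card + 1) * Real.exp (-lam) := by
    refine (PrP_or_le hPb E _ _).trans ?_
    have e1 := PrP_exists_le hPb E B (fun b ω => lam ≤ s * hh p E ω (cl ω {b})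
      - s ^ 2 / 4 * (tE E (cl ω {b})).card)
    have e2 : ∑ b ∈ B, PrP (fun _ => p) E (fun ω => lam ≤ s * hh p E ω (cl ω {b})
      - s ^ 2 / 4 * (tE E (cl ω {b})).card) ≤ B.card * Real.exp (-lam) := by
      rw [← nsmul_eq_mul]
      apply Finset.sum_le_card_nsmul
      intro b _
      exact markov_exp p0.le p1 (by rw [abs_of_pos s0]; exact s1) E {b}
    have e3 := markov_exp (lam := lam) p0.le p1 (s := -s)
      (by rw [abs_neg, abs_of_pos s0]; exact s1) E (B : Set V)
    linarith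
  have hpt : ∀ ω, ω ⊆ E → ((DD E B ω).card : ℝ) ≤
      (3 / 4 * s * E.card + (B.card + 1) * lam / s) / p + E.card * ind (bad ω) := by
    intro ω hω
    have hDE : ((DD E B ω).card : ℝ) ≤ E.card := by
      exact_mod_cast Finset.card_le_card (Finset.filter_subset _ _)
    have hpos : 0 ≤ (3 / 4 * s * E.card + (B.card + 1) * lam / s) / p := by positivity
    by_cases hb : bad ω
    · rw [ind_true hb, mul_one]; linarith
    · rw [ind_false hb, mul_zero, add_zero, le_div_iff₀ p0, mul_comm]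
      refine (det_ineq p0.le E B ω hω).trans ?_
      rw [hbad] at hb
      simp only [not_or, not_exists, not_and, not_le] at hb
      obtain ⟨hb1, hb2⟩ := hb
      have c1 : ∀ C ∈ CC B ω, hh p E ω C ≤ s / 4 * (tE E C).card + lam / s := by
        intro C hC
        obtain ⟨b, hbB, rfl⟩ := mem_CC.1 hC
        have := hb1 b hbB
        have h3 : s * hh p E ω (cl ω {b}) < s * (s / 4 * (tE E (cl ω {b})).card + lam / s) := by
          rw [mul_add, mul_div_cancel₀ _ s0.ne']
          nlinarith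
        exact (lt_of_mul_lt_mul_left h3 s0.le).le
      have c2 : - hh p E ω (cl ω (B : Set V)) ≤
          s / 4 * (tE E (cl ω (B : Set V))).card + lam / s := by
        have h3 : s * (- hh p E ω (cl ω (B : Set V))) <
            s * (s / 4 * (tE E (cl ω (B : Set V))).card + lam / s) := by
          rw [mul_add, mul_div_cancel₀ _ s0.ne']
          nlinarith
        exact (lt_of_mul_lt_mul_left h3 s0.le).le
      have c3 : ∑ C ∈ CC B ω, hh p E ω C ≤
          s / 4 * ∑ C ∈ CC B ω, ((tE E C).card : ℝ) + (CC B ω).card * (lam / s) := by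
        rw [Finset.mul_sum, ← nsmul_eq_mul, ← Finset.sum_const, ← Finset.sum_add_distrib]
        exact Finset.sum_le_sum c1
      have c4 : ∑ C ∈ CC B ω, ((tE E C).card : ℝ) ≤ 2 * E.card := by
        have : ∑ C ∈ CC B ω, (tE E C).card ≤ 2 * E.card := by
          rw [sum_tE', mul_comm, ← smul_eq_mul]
          exact Finset.sum_le_card_nsmul _ _ _ (fun e _ => nn_le_two B ω e)
        exact_mod_cast this
      have c5 : ((CC B ω).card : ℝ) ≤ B.card := by exact_mod_cast Finset.card_image_le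
      have c6 : ((tE E (cl ω (B : Set V))).card : ℝ) ≤ E.card := by
        exact_mod_cast Finset.card_le_card (tE_sub _ _)
      have d1 : s / 4 * ∑ C ∈ CC B ω, ((tE E C).card : ℝ) ≤ s / 4 * (2 * E.card) :=
        mul_le_mul_of_nonneg_left c4 (by positivity)
      have d2 : ((CC B ω).card : ℝ) * (lam / s) ≤ B.card * (lam / s) :=
        mul_le_mul_of_nonneg_right c5 (by positivity)
      have d3 : s / 4 * ((tE E (cl ω (B : Set V))).card : ℝ) ≤ s / 4 * E.card :=
        mul_le_mul_of_nonneg_left c6 (by positivity)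
      have d4 : ((B.card : ℝ) + 1) * lam / s = B.card * (lam / s) + lam / s := by ring
      rw [d4]
      linarith
  have hsum : ∑ e ∈ E, PrP (fun _ => p) E (fun ω => e ∈ DD E B ω)
      = Ex (fun _ => p) E (fun ω => ((DD E B ω).card : ℝ)) := by
    unfold PrP
    rw [← Ex_sum]
    apply Ex_congr
    intro ω _
    have hsub : DD E B ω ⊆ E := Finset.filter_subset _ _
    have e2 : ((DD E B ω).card : ℝ) = ∑ e ∈ E, if e ∈ DD E B ω then (1 : ℝ) else 0 := by
      rw [Finset.sum_boole]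
      congr 2
      ext e
      rw [Finset.mem_filter]
      exact ⟨fun h => ⟨hsub h, h⟩, fun h => h.2⟩
    rw [e2]
    apply Finset.sum_congr rfl
    intro e _
    by_cases he : e ∈ DD E B ω
    · rw [ind_true he, if_pos he]
    · rw [ind_false he, if_neg he]
  rw [hsum]
  refine (Ex_mono hPb hpt).trans ?_
  rw [Ex_add, Ex_const, Ex_smul]
  have : Ex (fun _ => p) E (fun ω => ind (bad ω)) = PrP (fun _ => p) E bad := rfl
  rw [this]
  have := mul_le_mul_of_nonneg_left hbadP (Nat.cast_nonneg (α := ℝ) E.card)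
  linarith

end Pool.Agent.H29.FK
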