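import Pool.Agent.H29.FK.Expl
import Pool.Agent.H29.FK.Defs

/-!
Nearest-neighbour edges of `ℤ^d`, edges inside a finite set, inner boundary, symmetries.
-/

set_option autoImplicit false
set_option linter.unusedSectionVars false
open Finset

namespace Pool.Agent.H29.FK

open Pool.Agent.H99.NC Pool.Agent.H75.Perc
open Classical

variable {d : ℕ}

theorem NN.ne {x y : Fin d → ℤ} (h : NN s(x, y)) : x ≠ y := by
  rintro rfl
  obtain ⟨z, i, h⟩ := h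
  rcases Sym2.eq_iff.1 h with ⟨h1, h2⟩ | ⟨h1, h2⟩
  · have := congrFun (h1.symm.trans h2) i
    simp at this
  · have := congrFun (h2.symm.trans h1) i
    simp at this

theorem NN.swap {x y : Fin d → ℤ} (h : NN s(x, y)) : NN s(y, x) := by
  rw [Sym2.eq_swap]; exact h

theorem NN.cases {x y : Fin d → ℤ} (h : NN s(x, y)) :
    ∃ i, (y = x + Pi.single i 1) ∨ (x = y + Pi.single i 1) := by
  obtain ⟨z, i, h⟩ := h
  rcases Sym2.eq_iff.1 h with ⟨rfl, rfl⟩ | ⟨rfl, rfl⟩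
  · exact ⟨i, Or.inl rfl⟩
  · exact ⟨i, Or.inr rfl⟩

theorem NN.coord {x y : Fin d → ℤ} (h : NN s(x, y)) :
    ∃ i, (∀ l, l ≠ i → y l = x l) ∧ (y i = x i + 1 ∨ y i = x i - 1) := by
  obtain ⟨i, rfl | rfl⟩ := h.cases
  · refine ⟨i, fun l hl => ?_, Or.inl ?_⟩
    · simp [Pi.single_eq_of_ne hl]
    · simp
  · refine ⟨i, fun l hl => ?_, Or.inr ?_⟩
    · simp [Pi.single_eq_of_ne hl]
    · simp

theorem NN.of_coord {x y : Fin d → ℤ} {i : Fin d} (h1 : ∀ l, l ≠ i → y l = x l)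
    (h2 : y i = x i + 1 ∨ y i = x i - 1) : NN s(x, y) := by
  rcases h2 with h2 | h2
  · refine ⟨x, i, ?_⟩
    congr 2
    funext l
    by_cases hl : l = i
    · subst hl; simp [h2]
    · simp [Pi.single_eq_of_ne hl, h1 l hl]
  · refine ⟨y, i, ?_⟩
    rw [Sym2.eq_swap]
    congr 2
    funext l
    by_cases hl : l = i
    · subst hl; simp [h2]
    · simp [Pi.single_eq_of_ne hl, h1 l hl]

/-- the edges inside `Λ` -/
noncomputable def Eb (Λ : Finset (Fin d → ℤ)) : Finset (Sym2 (Fin d → ℤ)) :=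
  ((Λ ×ˢ (univ : Finset (Fin d))).image (fun xi => s(xi.1, xi.1 + Pi.single xi.2 1))).filter
    (fun e => ∀ y ∈ e, y ∈ Λ)

theorem mem_Eb {Λ : Finset (Fin d → ℤ)} {e : Sym2 (Fin d → ℤ)} :
    e ∈ Eb Λ ↔ NN e ∧ ∀ y ∈ e, y ∈ Λ := by
  unfold Eb
  rw [Finset.mem_filter, Finset.mem_image]
  constructor
  · rintro ⟨⟨⟨x, i⟩, _, rfl⟩, h2⟩
    exact ⟨⟨x, i, rfl⟩, h2⟩
  · rintro ⟨⟨x, i, rfl⟩, h2⟩
    refine ⟨⟨(x, i), ?_, rfl⟩, h2⟩
    rw [Finset.mem_product]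
    exact ⟨h2 x (by simp), Finset.mem_univ _⟩

theorem mem_Eb' {Λ : Finset (Fin d → ℤ)} {x y : Fin d → ℤ} :
    s(x, y) ∈ Eb Λ ↔ NN s(x, y) ∧ x ∈ Λ ∧ y ∈ Λ := by
  rw [mem_Eb]
  simp [Sym2.mem_iff]

theorem card_Eb_le (Λ : Finset (Fin d → ℤ)) : (Eb Λ).card ≤ Λ.card * d := by
  unfold Eb
  refine (Finset.card_filter_le _ _).trans (Finset.card_image_le.trans ?_)
  rw [Finset.card_product, Finset.card_univ, Fintype.card_fin]

theorem Eb_mono {Λ Λ' : Finset (Fin d → ℤ)} (h : Λ ⊆ Λ') : Eb Λ ⊆ Eb Λ' := by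
  intro e he
  rw [mem_Eb] at he ⊢
  exact ⟨he.1, fun y hy => h (he.2 y hy)⟩

/-- the inner boundary of `Λ` in `W` -/
noncomputable def bd (W : Set (Fin d → ℤ)) (Λ : Finset (Fin d → ℤ)) : Finset (Fin d → ℤ) :=
  Λ.filter (fun x => ∃ y ∈ W, y ∉ Λ ∧ NN s(x, y))

theorem mem_bd {W : Set (Fin d → ℤ)} {Λ : Finset (Fin d → ℤ)} {x : Fin d → ℤ} :
    x ∈ bd W Λ ↔ x ∈ Λ ∧ ∃ y ∈ W, y ∉ Λ ∧ NN s(x, y) := by
  unfold bd
  rw [Finset.mem_filter]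

/-- A connection to a vertex outside of, or at the boundary of `Λ'`, stopped at the boundary. -/
theorem rch_restrict {W : Set (Fin d → ℤ)} {Λ Λ' : Finset (Fin d → ℤ)} (hΛ : Λ' ⊆ Λ)
    (hW : (Λ : Set (Fin d → ℤ)) ⊆ W) {ω : Finset (Sym2 (Fin d → ℤ))} (hω : ω ⊆ Eb Λ)
    {x : Fin d → ℤ} (hx : x ∈ Λ') (h : Rch ω (bd W Λ) x) : Rch (ω ∩ Eb Λ') (bd W Λ') x := by
  obtain ⟨b, hb, h⟩ := h
  have h' := rtg_symm h
  have key : ∀ v, Relation.ReflTransGen (fun a b => s(a, b) ∈ ω) x v →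
      Rch (ω ∩ Eb Λ') (bd W Λ') x ∨ (v ∈ Λ' ∧ Rch (ω ∩ Eb Λ') {x} v) := by
    intro v hv
    induction hv with
    | refl => exact Or.inr ⟨hx, Rch.of_mem rfl⟩
    | @tail v w _ hvw ih =>
      rcases ih with ih | ⟨hv, hxv⟩
      · exact Or.inl ih
      · have hE := mem_Eb'.1 (hω hvw)
        by_cases hw : w ∈ Λ'
        · right
          exact ⟨hw, hxv.tail (Finset.mem_inter.2 ⟨hvw, mem_Eb'.2 ⟨hE.1, hv, hw⟩⟩)⟩
        · left
          have hvb : v ∈ bd W Λ' := mem_bd.2 ⟨hv, w, hW hE.2.2, hw, hE.1⟩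
          exact rch_trans (Rch.of_mem hvb) (rch_symm hxv)
  rcases key b h' with h1 | ⟨h1, h2⟩
  · exact h1
  · obtain ⟨_, y, hy, hyΛ, hn⟩ := mem_bd.1 hb
    have hbb : b ∈ bd W Λ' := mem_bd.2 ⟨h1, y, hy, fun h => hyΛ (hΛ h), hn⟩
    exact rch_trans (Rch.of_mem hbb) (rch_symm h2)

theorem DD_restrict {W : Set (Fin d → ℤ)} {Λ Λ' : Finset (Fin d → ℤ)} (hΛ : Λ' ⊆ Λ)
    (hW : (Λ : Set (Fin d → ℤ)) ⊆ W) {ω : Finset (Sym2 (Fin d → ℤ))} (hω : ω ⊆ Eb Λ)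
    {e : Sym2 (Fin d → ℤ)} (he : e ∈ Eb Λ') (h : e ∈ DD (Eb Λ) (bd W Λ) ω) :
    e ∈ DD (Eb Λ') (bd W Λ') (ω ∩ Eb Λ') := by
  unfold DD at h ⊢
  rw [Finset.mem_filter] at h ⊢
  obtain ⟨_, h1, x, hx, y, hy, hxB, hyB, hxy⟩ := h
  have he' := (mem_Eb.1 he).2
  refine ⟨he, fun h => h1 (Finset.mem_inter.1 h).1, x, hx, y, hy,
    rch_restrict hΛ hW hω (he' x hx) hxB, rch_restrict hΛ hW hω (he' y hy) hyB, fun h => ?_⟩
  exact hxy (h.mono Finset.inter_subset_left)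

/-! ### Symmetries -/

/-- The map on edges induced by a bijection of the vertices. -/
def em (τ : (Fin d → ℤ) ≃ (Fin d → ℤ)) : Sym2 (Fin d → ℤ) ↪ Sym2 (Fin d → ℤ) :=
  ⟨Sym2.map τ, Sym2.map.injective τ.injective⟩

@[simp] theorem em_mk (τ : (Fin d → ℤ) ≃ (Fin d → ℤ)) (x y : Fin d → ℤ) :
    em τ s(x, y) = s(τ x, τ y) := rfl

/-- `τ` is a symmetry of the lattice. -/
def Sy (τ : (Fin d → ℤ) ≃ (Fin d → ℤ)) : Prop := ∀ x y, NN s(τ x, τ y) ↔ NN s(x, y)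

theorem Sy.symm {τ : (Fin d → ℤ) ≃ (Fin d → ℤ)} (h : Sy τ) : Sy τ.symm := by
  intro x y
  have := h (τ.symm x) (τ.symm y)
  rw [Equiv.apply_symm_apply, Equiv.apply_symm_apply] at this
  exact this.symm

theorem mem_map_em {τ : (Fin d → ℤ) ≃ (Fin d → ℤ)} {ω : Finset (Sym2 (Fin d → ℤ))}
    {x y : Fin d → ℤ} : s(x, y) ∈ ω.map (em τ) ↔ s(τ.symm x, τ.symm y) ∈ ω := by
  rw [Finset.mem_map]
  constructor
  · rintro ⟨e, he, h⟩
    induction e with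
    | _ a b =>
      rw [em_mk] at h
      rcases Sym2.eq_iff.1 h with ⟨rfl, rfl⟩ | ⟨rfl, rfl⟩
      · simpa using he
      · rw [Sym2.eq_swap]; simpa using he
  · intro h
    exact ⟨_, h, by simp⟩

theorem mem_map_em' {τ : (Fin d → ℤ) ≃ (Fin d → ℤ)} {ω : Finset (Sym2 (Fin d → ℤ))}
    {x y : Fin d → ℤ} : s(τ x, τ y) ∈ ω.map (em τ) ↔ s(x, y) ∈ ω := by
  rw [mem_map_em]; simp

theorem Eb_map {τ : (Fin d → ℤ) ≃ (Fin d → ℤ)} (h : Sy τ) (Λ : Finset (Fin d → ℤ)) :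
    Eb (Λ.map τ.toEmbedding) = (Eb Λ).map (em τ) := by
  ext e
  induction e with
  | _ x y =>
    rw [mem_map_em, mem_Eb', mem_Eb', ← h (τ.symm x) (τ.symm y)]
    simp [Finset.mem_map_equiv]

theorem bd_map {τ : (Fin d → ℤ) ≃ (Fin d → ℤ)} (h : Sy τ) (W : Set (Fin d → ℤ))
    (Λ : Finset (Fin d → ℤ)) :
    bd (τ '' W) (Λ.map τ.toEmbedding) = (bd W Λ).map τ.toEmbedding := by
  ext x
  rw [Finset.mem_map_equiv, mem_bd, mem_bd, Finset.mem_map_equiv]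
  apply and_congr_right
  intro _
  constructor
  · rintro ⟨_, ⟨y, hy, rfl⟩, h1, h2⟩
    rw [Finset.mem_map_equiv, Equiv.symm_apply_apply] at h1
    refine ⟨y, hy, h1, ?_⟩
    rw [← h, Equiv.apply_symm_apply]
    exact h2
  · rintro ⟨y, hy, h1, h2⟩
    refine ⟨τ y, ⟨y, hy, rfl⟩, ?_, ?_⟩
    · rw [Finset.mem_map_equiv, Equiv.symm_apply_apply]; exact h1
    · rw [← h, Equiv.apply_symm_apply] at h2
      exact h2

theorem rtg_lift {α β : Type*} {r : α → α → Prop} {p : β → β → Prop} (f : α → β)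
    (h : ∀ a b, r a b → p (f a) (f b)) {a b : α} (hab : Relation.ReflTransGen r a b) :
    Relation.ReflTransGen p (f a) (f b) := by
  induction hab with
  | refl => exact Relation.ReflTransGen.refl
  | tail _ hbc ih => exact ih.tail (h _ _ hbc)

theorem Rch_map {τ : (Fin d → ℤ) ≃ (Fin d → ℤ)} {ω : Finset (Sym2 (Fin d → ℤ))}
    {X : Set (Fin d → ℤ)} {v : Fin d → ℤ} : Rch (ω.map (em τ)) (τ '' X) (τ v) ↔ Rch ω X v := by
  constructor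
  · rintro ⟨_, ⟨x, hx, rfl⟩, h⟩
    refine ⟨x, hx, ?_⟩
    have := rtg_lift (r := fun a b => s(a, b) ∈ ω.map (em τ))
      (p := fun a b => s(a, b) ∈ ω) τ.symm (fun a b hab => mem_map_em.1 hab) h
    simpa using this
  · rintro ⟨x, hx, h⟩
    exact ⟨τ x, ⟨x, hx, rfl⟩, rtg_lift τ (fun a b hab => mem_map_em'.2 hab) h⟩

theorem Rch_map_fin {τ : (Fin d → ℤ) ≃ (Fin d → ℤ)} {ω : Finset (Sym2 (Fin d → ℤ))}
    {X : Finset (Fin d → ℤ)} {v : Fin d → ℤ} :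
    Rch (ω.map (em τ)) ((X.map τ.toEmbedding : Finset (Fin d → ℤ)) : Set (Fin d → ℤ)) (τ v) ↔
      Rch ω (X : Set (Fin d → ℤ)) v := by
  rw [Finset.coe_map]
  exact Rch_map

theorem Rch_map_one {τ : (Fin d → ℤ) ≃ (Fin d → ℤ)} {ω : Finset (Sym2 (Fin d → ℤ))}
    {u v : Fin d → ℤ} : Rch (ω.map (em τ)) {τ u} (τ v) ↔ Rch ω {u} v := by
  have h := Rch_map (τ := τ) (ω := ω) (X := {u}) (v := v)
  rwa [Set.image_singleton] at h

theorem DD_map {τ : (Fin d → ℤ) ≃ (Fin d → ℤ)} {ω E : Finset (Sym2 (Fin d → ℤ))}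
    {B : Finset (Fin d → ℤ)} {e : Sym2 (Fin d → ℤ)} :
    em τ e ∈ DD (E.map (em τ)) (B.map τ.toEmbedding) (ω.map (em τ)) ↔ e ∈ DD E B ω := by
  induction e with
  | _ a b =>
    unfold DD
    rw [Finset.mem_filter, Finset.mem_filter, em_mk, mem_map_em', mem_map_em']
    apply and_congr_right
    intro _
    apply and_congr_right
    intro _
    constructor
    · rintro ⟨x, hx, y, hy, h1, h2, h3⟩
      have hx' : ∃ x', x' ∈ s(a, b) ∧ τ x' = x := by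
        rcases Sym2.mem_iff.1 hx with rfl | rfl
        · exact ⟨a, by simp, rfl⟩
        · exact ⟨b, by simp, rfl⟩
      have hy' : ∃ x', x' ∈ s(a, b) ∧ τ x' = y := by
        rcases Sym2.mem_iff.1 hy with rfl | rfl
        · exact ⟨a, by simp, rfl⟩
        · exact ⟨b, by simp, rfl⟩
      obtain ⟨x', hx', rfl⟩ := hx'
      obtain ⟨y', hy', rfl⟩ := hy'
      rw [Rch_map_fin] at h1 h2
      rw [Rch_map_one] at h3
      exact ⟨x', hx', y', hy', h1, h2, h3⟩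
    · rintro ⟨x, hx, y, hy, h1, h2, h3⟩
      refine ⟨τ x, ?_, τ y, ?_, Rch_map_fin.2 h1, Rch_map_fin.2 h2, fun h => h3 (Rch_map_one.1 h)⟩
      · rcases Sym2.mem_iff.1 hx with rfl | rfl <;> simp
      · rcases Sym2.mem_iff.1 hy with rfl | rfl <;> simp

/-! ### Probabilities -/

/-- probability that `v` is connected to the boundary -/
noncomputable def q1 (p : ℝ) (W : Set (Fin d → ℤ)) (Λ : Finset (Fin d → ℤ)) (v : Fin d → ℤ) : ℝ :=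
  PrP (fun _ => p) (Eb Λ) (fun ω => Rch ω (bd W Λ) v)

/-- probability that `e` is closed and joins two distinct clusters which touch the boundary -/
noncomputable def q2 (p : ℝ) (W : Set (Fin d → ℤ)) (Λ : Finset (Fin d → ℤ))
    (e : Sym2 (Fin d → ℤ)) : ℝ :=
  PrP (fun _ => p) (Eb Λ) (fun ω => e ∈ DD (Eb Λ) (bd W Λ) ω)

theorem q1_anti {p : ℝ} (p0 : 0 ≤ p) (p1 : p ≤ 1) {W : Set (Fin d → ℤ)}
    {Λ Λ' : Finset (Fin d → ℤ)} (hΛ : Λ' ⊆ Λ) (hW : (Λ : Set (Fin d → ℤ)) ⊆ W)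
    {v : Fin d → ℤ} (hv : v ∈ Λ') : q1 p W Λ v ≤ q1 p W Λ' v := by
  unfold q1
  rw [← PrP_restrict (fun _ => p) (Eb_mono hΛ) (fun ω => Rch ω (bd W Λ') v)]
  exact PrP_mono (Pb.const p0 p1) fun ω hω h => rch_restrict hΛ hW hω hv h

theorem q2_anti {p : ℝ} (p0 : 0 ≤ p) (p1 : p ≤ 1) {W : Set (Fin d → ℤ)}
    {Λ Λ' : Finset (Fin d → ℤ)} (hΛ : Λ' ⊆ Λ) (hW : (Λ : Set (Fin d → ℤ)) ⊆ W)
    {e : Sym2 (Fin d → ℤ)} (he : e ∈ Eb Λ') : q2 p W Λ e ≤ q2 p W Λ' e := by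
  unfold q2
  rw [← PrP_restrict (fun _ => p) (Eb_mono hΛ) (fun ω => e ∈ DD (Eb Λ') (bd W Λ') ω)]
  exact PrP_mono (Pb.const p0 p1) fun ω hω h => DD_restrict hΛ hW hω he h

theorem q1_map {p : ℝ} {τ : (Fin d → ℤ) ≃ (Fin d → ℤ)} (h : Sy τ) (W : Set (Fin d → ℤ))
    (Λ : Finset (Fin d → ℤ)) (v : Fin d → ℤ) :
    q1 p (τ '' W) (Λ.map τ.toEmbedding) (τ v) = q1 p W Λ v := by
  unfold q1
  rw [Eb_map h, PrP_map, bd_map h]
  exact PrP_congr fun ω _ => Rch_map_fin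

theorem q2_map {p : ℝ} {τ : (Fin d → ℤ) ≃ (Fin d → ℤ)} (h : Sy τ) (W : Set (Fin d → ℤ))
    (Λ : Finset (Fin d → ℤ)) (e : Sym2 (Fin d → ℤ)) :
    q2 p (τ '' W) (Λ.map τ.toEmbedding) (em τ e) = q2 p W Λ e := by
  unfold q2
  rw [Eb_map h, PrP_map, bd_map h]
  exact PrP_congr fun ω _ => DD_map

end Pool.Agent.H29.FK
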