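import Pool.Agent.H29.FK.Star

/-!
Random-cluster Gibbs measures: definitions, one-edge bounds, comparison with product measures on
increasing events of finitely many edges, given an event determined by the other edges.
-/

set_option autoImplicit false
set_option linter.unusedSectionVars false
open Finset

namespace Pool.Agent.H29.FK

open Pool.Agent.H99.NC Pool.Agent.H75.Perc
open Classical MeasureTheory

variable {d : ℕ}

/-! ### Determined events -/

theorem Det.mono {T T' : Set (Ed d)} (h : T ⊆ T') {B : Set (Cfg d)} (hB : Det T B) : Det T' B :=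
  fun ω ω' hω => hB ω ω' fun e he => hω e (h he)

theorem Det.inter {T : Set (Ed d)} {B B' : Set (Cfg d)} (hB : Det T B) (hB' : Det T B') :
    Det T (B ∩ B') := fun ω ω' h => and_congr (hB ω ω' h) (hB' ω ω' h)

theorem Det.compl {T : Set (Ed d)} {B : Set (Cfg d)} (hB : Det T B) : Det T Bᶜ :=
  fun ω ω' h => not_congr (hB ω ω' h)

theorem Det.iUnion {ι : Sort*} {T : Set (Ed d)} {B : ι → Set (Cfg d)} (hB : ∀ i, Det T (B i)) :
    Det T (⋃ i, B i) := by
  intro ω ω' h
  rw [Set.mem_iUnion, Set.mem_iUnion]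
  exact exists_congr fun i => hB i ω ω' h

theorem Det.univ (T : Set (Ed d)) : Det T Set.univ := fun _ _ _ => Iff.rfl

theorem det_edge {T : Set (Ed d)} {e : Ed d} (he : e ∈ T) (b : Bool) : Det T {ω | ω e = b} := by
  intro ω ω' h
  rw [Set.mem_ofPred_eq, Set.mem_ofPred_eq, h e he]

theorem meas_edge (e : Ed d) (b : Bool) : MeasurableSet {ω : Cfg d | ω e = b} := by
  have h : {ω : Cfg d | ω e = b} = (fun ω : Cfg d => ω e) ⁻¹' {b} := rfl
  rw [h]
  exact (measurable_pi_apply e) (measurableSet_singleton b)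

theorem off_mono (e : Ed d) (R : Finset (Ed d)) : {f | f ∉ insert e R} ⊆ {f | f ∉ R} := by
  intro f hf
  rw [Set.mem_ofPred_eq] at hf ⊢
  exact fun h => hf (Finset.mem_insert_of_mem h)

theorem off_ne (e : Ed d) (R : Finset (Ed d)) : {f | f ∉ insert e R} ⊆ {f | f ≠ e} := by
  intro f hf
  rw [Set.mem_ofPred_eq] at hf ⊢
  rintro rfl
  exact hf (Finset.mem_insert_self _ _)

/-! ### One edge -/

theorem clus_self (ω : Cfg d) (x : Fin d → ℤ) : x ∈ clus ω x := Relation.ReflTransGen.refl

theorem Opn.symm {ω : Cfg d} {a b : Fin d → ℤ} (h : Opn ω a b) : Opn ω b a := by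
  obtain ⟨h, h'⟩ := h
  refine ⟨h.swap, ?_⟩
  have : (⟨s(b, a), h.swap⟩ : Ed d) = ⟨s(a, b), h⟩ := Subtype.ext Sym2.eq_swap
  rw [this]; exact h'

theorem rtg_opn_symm {ω : Cfg d} {a b : Fin d → ℤ} (h : Relation.ReflTransGen (Opn ω) a b) :
    Relation.ReflTransGen (Opn ω) b a := by
  induction h with
  | refl => exact Relation.ReflTransGen.refl
  | tail _ hbc ih => exact Relation.ReflTransGen.head hbc.symm ih

theorem clus_eq {ω : Cfg d} {a b : Fin d → ℤ} (h : Relation.ReflTransGen (Opn ω) a b) :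
    clus ω a = clus ω b := by
  ext v
  exact ⟨fun hv => (rtg_opn_symm h).trans hv, fun hv => h.trans hv⟩

theorem kF_one (e : Ed d) (ω : Cfg d) : kF {e} ω = 1 ∨ kF {e} ω = 2 := by
  obtain ⟨e, he⟩ := e
  induction e with
  | _ x y =>
    have h : {C : Set (Fin d → ℤ) | ∃ e ∈ ({⟨s(x, y), he⟩} : Finset (Ed d)), ∃ z ∈ e.1,
        C = clus ω z} = {clus ω x, clus ω y} := by
      ext C
      simp only [Finset.mem_singleton, exists_eq_left, Sym2.mem_iff, Set.mem_ofPred_eq,
        Set.mem_insert_iff, Set.mem_singleton_iff]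
      constructor
      · rintro ⟨z, rfl | rfl, rfl⟩
        · exact Or.inl rfl
        · exact Or.inr rfl
      · rintro (rfl | rfl)
        · exact ⟨x, Or.inl rfl, rfl⟩
        · exact ⟨y, Or.inr rfl, rfl⟩
    unfold kF
    rw [h]
    by_cases hxy : clus ω x = clus ω y
    · left
      rw [hxy, Set.pair_eq_singleton, Set.ncard_singleton]
    · right
      exact Set.ncard_pair hxy

theorem kF_open {e : Ed d} {ω : Cfg d} (h : ω e = true) : kF {e} ω = 1 := by
  obtain ⟨e, he⟩ := e
  induction e with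
  | _ x y =>
    have hxy : clus ω x = clus ω y := clus_eq (Relation.ReflTransGen.single ⟨he, h⟩)
    have h : {C : Set (Fin d → ℤ) | ∃ e ∈ ({⟨s(x, y), he⟩} : Finset (Ed d)), ∃ z ∈ e.1,
        C = clus ω z} = {clus ω x} := by
      ext C
      simp only [Finset.mem_singleton, exists_eq_left, Sym2.mem_iff, Set.mem_ofPred_eq,
        Set.mem_singleton_iff]
      constructor
      · rintro ⟨z, rfl | rfl, rfl⟩
        · rfl
        · exact hxy.symm
      · rintro rfl
        exact ⟨x, Or.inl rfl, rfl⟩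
    unfold kF
    rw [h, Set.ncard_singleton]

/-- the smaller one-edge conditional probability -/
noncomputable def pmin (p q : ℝ) : ℝ := min p (p / (p + q * (1 - p)))

/-- the larger one-edge conditional probability -/
noncomputable def pmax (p q : ℝ) : ℝ := max p (p / (p + q * (1 - p)))

theorem den_pos {p q : ℝ} (p0 : 0 ≤ p) (p1 : p ≤ 1) (hq : 0 < q) : 0 < p + q * (1 - p) := by
  rcases p0.lt_or_eq with h | h
  · have : 0 ≤ q * (1 - p) := mul_nonneg hq.le (by linarith)
    linarith
  · rw [← h]; linarith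

theorem frac_mem {p q : ℝ} (p0 : 0 ≤ p) (p1 : p ≤ 1) (hq : 0 < q) :
    0 ≤ p / (p + q * (1 - p)) ∧ p / (p + q * (1 - p)) ≤ 1 := by
  have h := den_pos p0 p1 hq
  refine ⟨div_nonneg p0 h.le, ?_⟩
  rw [div_le_one h]
  have : 0 ≤ q * (1 - p) := mul_nonneg hq.le (by linarith)
  linarith

theorem pmin_mem {p q : ℝ} (p0 : 0 ≤ p) (p1 : p ≤ 1) (hq : 0 < q) : 0 ≤ pmin p q ∧ pmin p q ≤ 1 :=
  ⟨le_min p0 (frac_mem p0 p1 hq).1, (min_le_left _ _).trans p1⟩

theorem pmax_mem {p q : ℝ} (p0 : 0 ≤ p) (p1 : p ≤ 1) (hq : 0 < q) : 0 ≤ pmax p q ∧ pmax p q ≤ 1 :=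
  ⟨p0.trans (le_max_left _ _), max_le p1 (frac_mem p0 p1 hq).2⟩

theorem spec_one {p q : ℝ} (p0 : 0 ≤ p) (p1 : p ≤ 1) (hq : 0 < q) (e : Ed d) (ξ : Cfg d) :
    spec p q {e} {e} ξ = p ∨ spec p q {e} {e} ξ = p / (p + q * (1 - p)) := by
  have hden := den_pos p0 p1 hq
  have g1 : glue {e} {e} ξ e = true := by simp [glue]
  have g0 : glue {e} ∅ ξ e = false := by simp [glue]
  have w1 : wF p q {e} (glue {e} {e} ξ) = p * q := by
    unfold wF
    rw [kF_open g1, Finset.filter_singleton, Finset.filter_singleton, if_pos g1,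
      if_neg (by rw [g1]; decide)]
    simp
  have w0 : wF p q {e} (glue {e} ∅ ξ) = (1 - p) * q ^ kF {e} (glue {e} ∅ ξ) := by
    unfold wF
    rw [Finset.filter_singleton, Finset.filter_singleton, if_pos g0,
      if_neg (by rw [g0]; decide)]
    simp
  have hsum : ∑ T ∈ ({e} : Finset (Ed d)).powerset, wF p q {e} (glue {e} T ξ) =
      (1 - p) * q ^ kF {e} (glue {e} ∅ ξ) + p * q := by
    have : ({e} : Finset (Ed d)).powerset = {∅, {e}} := by
      ext T
      rw [Finset.mem_powerset, Finset.subset_singleton_iff, Finset.mem_insert,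
        Finset.mem_singleton]
    rw [this, Finset.sum_pair (by simp), w0, w1]
  unfold spec
  rw [hsum, w1]
  rcases kF_one e (glue {e} ∅ ξ) with h | h
  · left
    rw [h, pow_one, ← add_mul, sub_add_cancel, one_mul, mul_div_assoc, div_self hq.ne', mul_one]
  · right
    rw [h, div_eq_div_iff ?_ hden.ne']
    · ring
    · have : (1 - p) * q ^ 2 + p * q = q * (p + q * (1 - p)) := by ring
      rw [this]
      positivity

theorem spec_bounds {p q : ℝ} (p0 : 0 ≤ p) (p1 : p ≤ 1) (hq : 0 < q) (e : Ed d) (ξ : Cfg d) :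
    pmin p q ≤ spec p q {e} {e} ξ ∧ spec p q {e} {e} ξ ≤ pmax p q := by
  unfold pmin pmax
  rcases spec_one p0 p1 hq e ξ with h | h
  · rw [h]; exact ⟨min_le_left _ _, le_max_left _ _⟩
  · rw [h]; exact ⟨min_le_right _ _, le_max_right _ _⟩

theorem edge_bounds {p q : ℝ} (p0 : 0 ≤ p) (p1 : p ≤ 1) (hq : 0 < q) {φ : Measure (Cfg d)}
    (h : IsFK p q φ) (e : Ed d) {B : Set (Cfg d)} (hB : MeasurableSet B)
    (hD : Det {f | f ≠ e} B) :
    pmin p q * φ.real B ≤ φ.real (B ∩ {ω | ω e = true}) ∧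
      φ.real (B ∩ {ω | ω e = true}) ≤ pmax p q * φ.real B := by
  have := h.prob
  have hD' : Det {f | f ∉ ({e} : Finset (Ed d))} B := by
    have : {f | f ∉ ({e} : Finset (Ed d))} = {f | f ≠ e} := by
      ext f; simp
    rw [this]; exact hD
  have h1 := h.dlr {e} {e} (Finset.Subset.refl _) B hB hD'
  have h2 : {ω : Cfg d | ∀ e' ∈ ({e} : Finset (Ed d)), ω e' = decide (e' ∈ ({e} : Finset (Ed d)))}
      = {ω | ω e = true} := by
    ext ω
    simp
  rw [h2] at h1
  have h3 : ENNReal.ofReal (pmin p q) * φ B ≤ φ (B ∩ {ω | ω e = true}) := by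
    rw [h1, ← setLIntegral_const]
    exact lintegral_mono fun ω => ENNReal.ofReal_le_ofReal (spec_bounds p0 p1 hq e ω).1
  have h4 : φ (B ∩ {ω | ω e = true}) ≤ ENNReal.ofReal (pmax p q) * φ B := by
    rw [h1, ← setLIntegral_const]
    exact lintegral_mono fun ω => ENNReal.ofReal_le_ofReal (spec_bounds p0 p1 hq e ω).2
  constructor
  · have := ENNReal.toReal_mono (measure_ne_top φ _) h3
    rw [ENNReal.toReal_mul, ENNReal.toReal_ofReal (pmin_mem p0 p1 hq).1] at this
    exact this
  · have := ENNReal.toReal_mono (ENNReal.mul_ne_top ENNReal.ofReal_ne_top (measure_ne_top φ _)) h4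
    rw [ENNReal.toReal_mul, ENNReal.toReal_ofReal (pmax_mem p0 p1 hq).1] at this
    exact this

/-! ### Finitely many edges -/

/-- the open edges in `R` -/
noncomputable def tr (R : Finset (Ed d)) (ω : Cfg d) : Finset (Ed d) :=
  R.filter (fun e => ω e = true)

theorem tr_insert_true {R : Finset (Ed d)} {e : Ed d} {ω : Cfg d} (h : ω e = true) :
    tr (insert e R) ω = insert e (tr R ω) := by
  unfold tr
  rw [Finset.filter_insert, if_pos h]

theorem tr_insert_false {R : Finset (Ed d)} {e : Ed d} {ω : Cfg d} (h : ¬ ω e = true) :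
    tr (insert e R) ω = tr R ω := by
  unfold tr
  rw [Finset.filter_insert, if_neg h]

theorem split_event {φ : Measure (Cfg d)} [IsProbabilityMeasure φ] {R : Finset (Ed d)} {e : Ed d}
    (A : Finset (Ed d) → Prop) (B : Set (Cfg d)) :
    φ.real (B ∩ {ω | A (tr (insert e R) ω)}) =
      φ.real ((B ∩ {ω | ω e = true}) ∩ {ω | A (insert e (tr R ω))}) +
      φ.real ((B ∩ {ω | ω e = false}) ∩ {ω | A (tr R ω)}) := by
  rw [← measureReal_inter_add_sdiff (μ := φ) (s := B ∩ {ω | A (tr (insert e R) ω)})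
    (meas_edge e true)]
  congr 2
  · ext ω
    simp only [Set.mem_inter_iff, Set.mem_ofPred_eq]
    constructor
    · rintro ⟨⟨h1, h2⟩, h3⟩
      rw [tr_insert_true h3] at h2
      exact ⟨⟨h1, h3⟩, h2⟩
    · rintro ⟨⟨h1, h3⟩, h2⟩
      rw [tr_insert_true h3]
      exact ⟨⟨h1, h2⟩, h3⟩
  · ext ω
    simp only [Set.mem_inter_iff, Set.mem_ofPred_eq, Set.mem_sdiff, Bool.not_eq_true]
    constructor
    · rintro ⟨⟨h1, h2⟩, h3⟩
      rw [tr_insert_false (by rw [h3]; decide)] at h2
      exact ⟨⟨h1, h3⟩, h2⟩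
    · rintro ⟨⟨h1, h3⟩, h2⟩
      rw [tr_insert_false (by rw [h3]; decide)]
      exact ⟨⟨h1, h2⟩, h3⟩

theorem split_B {φ : Measure (Cfg d)} [IsProbabilityMeasure φ] (e : Ed d) (B : Set (Cfg d)) :
    φ.real B = φ.real (B ∩ {ω | ω e = true}) + φ.real (B ∩ {ω | ω e = false}) := by
  rw [← measureReal_inter_add_sdiff (μ := φ) (s := B) (meas_edge e true)]
  congr 2
  ext ω
  simp

theorem Inc.ins {α : Type*} [DecidableEq α] {A : Finset α → Prop} (h : Inc A) (e : α) :
    Inc (fun ω => A (insert e ω)) := fun _ _ hω => h _ _ (Finset.insert_subset_insert e hω)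

/-- comparison from below on increasing events -/
theorem lower {p q : ℝ} (p0 : 0 ≤ p) (p1 : p ≤ 1) (hq : 0 < q) {φ : Measure (Cfg d)}
    (h : IsFK p q φ) (R : Finset (Ed d)) : ∀ (A : Finset (Ed d) → Prop), Inc A →
    ∀ B : Set (Cfg d), MeasurableSet B → Det {f | f ∉ R} B →
    PrP (fun _ => pmin p q) R A * φ.real B ≤ φ.real (B ∩ {ω | A (tr R ω)}) := by
  have := h.prob
  have hp := pmin_mem p0 p1 hq
  have hPb := Pb.const (α := Ed d) hp.1 hp.2
  induction R using Finset.induction_on with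
  | empty =>
    intro A _ B _ _
    have e1 : PrP (fun _ => pmin p q) ∅ A = ind (A ∅) := by unfold PrP; simp
    have e2 : ∀ ω : Cfg d, tr ∅ ω = ∅ := fun ω => rfl
    rw [e1]
    simp only [e2]
    by_cases hA : A ∅
    · rw [ind_true hA, one_mul]
      have : {ω : Cfg d | A ∅} = Set.univ := Set.eq_univ_of_forall fun _ => hA
      rw [this, Set.inter_univ]
    · rw [ind_false hA, zero_mul]
      exact measureReal_nonneg
  | insert e R he ih =>
    intro A hA B hB hD
    have hDR : ∀ b, Det {f | f ∉ R} (B ∩ {ω | ω e = b}) := fun b =>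
      Det.inter (hD.mono (off_mono e R)) (det_edge (by rw [Set.mem_ofPred_eq]; exact he) b)
    have i1 := ih (fun ω => A (insert e ω)) (Inc.ins hA e) (B ∩ {ω | ω e = true})
      (hB.inter (meas_edge e true)) (hDR true)
    have i0 := ih A hA (B ∩ {ω | ω e = false}) (hB.inter (meas_edge e false)) (hDR false)
    have hEx : PrP (fun _ => pmin p q) (insert e R) A =
        (1 - pmin p q) * PrP (fun _ => pmin p q) R A +
        pmin p q * PrP (fun _ => pmin p q) R (fun ω => A (insert e ω)) := by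
      unfold PrP
      rw [Ex_insert _ he]
    have hmono : PrP (fun _ => pmin p q) R A ≤ PrP (fun _ => pmin p q) R (fun ω => A (insert e ω)) :=
      PrP_mono hPb fun ω _ hω => hA _ _ (Finset.subset_insert _ _) hω
    have hbd := (edge_bounds p0 p1 hq h e hB (hD.mono (off_ne e R))).1
    rw [split_event A B, hEx]
    have hB' := split_B (φ := φ) e B
    set a := PrP (fun _ => pmin p q) R A
    set b := PrP (fun _ => pmin p q) R (fun ω => A (insert e ω))
    have h5 := mul_nonneg (sub_nonneg.2 hmono) (sub_nonneg.2 hbd)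
    have h6 : a * φ.real B = a * φ.real (B ∩ {ω | ω e = true}) +
        a * φ.real (B ∩ {ω | ω e = false}) := by rw [← mul_add, ← hB']
    nlinarith

/-- comparison from above on increasing events -/
theorem upper {p q : ℝ} (p0 : 0 ≤ p) (p1 : p ≤ 1) (hq : 0 < q) {φ : Measure (Cfg d)}
    (h : IsFK p q φ) (R : Finset (Ed d)) : ∀ (A : Finset (Ed d) → Prop), Inc A →
    ∀ B : Set (Cfg d), MeasurableSet B → Det {f | f ∉ R} B →
    φ.real (B ∩ {ω | A (tr R ω)}) ≤ PrP (fun _ => pmax p q) R A * φ.real B := by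
  have := h.prob
  have hp := pmax_mem p0 p1 hq
  have hPb := Pb.const (α := Ed d) hp.1 hp.2
  induction R using Finset.induction_on with
  | empty =>
    intro A _ B _ _
    have e1 : PrP (fun _ => pmax p q) ∅ A = ind (A ∅) := by unfold PrP; simp
    have e2 : ∀ ω : Cfg d, tr ∅ ω = ∅ := fun ω => rfl
    rw [e1]
    simp only [e2]
    by_cases hA : A ∅
    · rw [ind_true hA, one_mul]
      have : {ω : Cfg d | A ∅} = Set.univ := Set.eq_univ_of_forall fun _ => hA
      rw [this, Set.inter_univ]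
    · rw [ind_false hA, zero_mul]
      have : {ω : Cfg d | A ∅} = ∅ := Set.eq_empty_of_forall_notMem fun _ => hA
      rw [this, Set.inter_empty, measureReal_empty]
  | insert e R he ih =>
    intro A hA B hB hD
    have hDR : ∀ b, Det {f | f ∉ R} (B ∩ {ω | ω e = b}) := fun b =>
      Det.inter (hD.mono (off_mono e R)) (det_edge (by rw [Set.mem_ofPred_eq]; exact he) b)
    have i1 := ih (fun ω => A (insert e ω)) (Inc.ins hA e) (B ∩ {ω | ω e = true})
      (hB.inter (meas_edge e true)) (hDR true)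
    have i0 := ih A hA (B ∩ {ω | ω e = false}) (hB.inter (meas_edge e false)) (hDR false)
    have hEx : PrP (fun _ => pmax p q) (insert e R) A =
        (1 - pmax p q) * PrP (fun _ => pmax p q) R A +
        pmax p q * PrP (fun _ => pmax p q) R (fun ω => A (insert e ω)) := by
      unfold PrP
      rw [Ex_insert _ he]
    have hmono : PrP (fun _ => pmax p q) R A ≤ PrP (fun _ => pmax p q) R (fun ω => A (insert e ω)) :=
      PrP_mono hPb fun ω _ hω => hA _ _ (Finset.subset_insert _ _) hω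
    have hbd := (edge_bounds p0 p1 hq h e hB (hD.mono (off_ne e R))).2
    rw [split_event A B, hEx]
    have hB' := split_B (φ := φ) e B
    set a := PrP (fun _ => pmax p q) R A
    set b := PrP (fun _ => pmax p q) R (fun ω => A (insert e ω))
    have h5 := mul_nonneg (sub_nonneg.2 hmono) (sub_nonneg.2 hbd)
    have h6 : a * φ.real B = a * φ.real (B ∩ {ω | ω e = true}) +
        a * φ.real (B ∩ {ω | ω e = false}) := by rw [← mul_add, ← hB']
    nlinarith

end Pool.Agent.H29.FK
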