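import Pool.Agent.H29.FK.Box

/-!
The two-arm probability of a fixed edge of the slab tends to zero.
-/

set_option autoImplicit false
set_option linter.unusedSectionVars false
open Finset

namespace Pool.Agent.H29.FK

open Pool.Agent.H99.NC Pool.Agent.H75.Perc
open Classical Filter Topology

variable {d : ℕ}

/-- explicit bound -/
theorem q2_bound {p : ℝ} (p0 : 0 < p) (p1 : p ≤ 1) (hd : 2 ≤ d) (j : Fin d) (k r : ℕ) (hr : 1 ≤ r)
    (N : ℕ) (hN : 1 ≤ N) {e : Sym2 (Fin d → ℤ)} (he : e ∈ Eb (bx j k 0 r)) :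
    q2 p (slab j k) (bx j k 0 (2 * N ^ 3 + r)) e ≤
      ((k + 1) * (2 * r + 1) ^ (d - 1) * d : ℕ) *
        (2 * (((k + 1) * (2 * (d - 1) * (2 * r + 1) ^ (d - 1 - 1)) : ℕ) + 1)) *
        ((1 / N + 1 / N) / p + (3 * (N : ℝ) ^ 3) ^ (d - 1) * Real.exp (-N)) := by
  obtain ⟨r', rfl⟩ : ∃ r', r = r' + 1 := ⟨r - 1, by omega⟩
  set r := r' + 1 with hrdef
  set n := N ^ 3 with hn
  set D := d - 1 with hD
  have hD1 : 1 ≤ D := by omega
  set L : ℝ := 2 * (n : ℝ) + 1 with hL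
  have hN' : (1 : ℝ) ≤ N := by exact_mod_cast hN
  have hn1 : (1 : ℝ) ≤ n := by
    rw [hn]; push_cast; exact one_le_pow₀ hN'
  have hL1 : 1 ≤ L := by rw [hL]; linarith
  have hL0 : 0 < L := by linarith
  set C1 : ℕ := (k + 1) * (2 * r + 1) ^ D * d with hC1
  set C2 : ℕ := (k + 1) * (2 * D * (2 * r + 1) ^ (D - 1)) with hC2
  -- cardinalities
  have hb : 2 * (n + r) + 1 ≤ (2 * r + 1) * (2 * n + 1) := by nlinarith
  have cE : ((Eb (bx j k 0 (n + r))).card : ℝ) ≤ C1 * L ^ D := by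
    have h1 := card_Eb_le (bx j k 0 (n + r))
    rw [card_bx] at h1
    have h2 : (2 * (n + r) + 1) ^ D ≤ ((2 * r + 1) * (2 * n + 1)) ^ D := Nat.pow_le_pow_left hb D
    have h3 : (Eb (bx j k 0 (n + r))).card ≤ C1 * (2 * n + 1) ^ D := by
      refine h1.trans ?_
      calc (k + 1) * (2 * (n + r) + 1) ^ D * d ≤ (k + 1) * ((2 * r + 1) * (2 * n + 1)) ^ D * d := by
            gcongr
        _ = C1 * (2 * n + 1) ^ D := by rw [hC1, mul_pow]; ring
    have h4 : ((Eb (bx j k 0 (n + r))).card : ℝ) ≤ ((C1 * (2 * n + 1) ^ D : ℕ) : ℝ) := by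
      exact_mod_cast h3
    refine h4.trans (le_of_eq ?_)
    push_cast
    rw [hL]
  have cB : ((bd (slab j k) (bx j k 0 (n + r))).card : ℝ) ≤ C2 * L ^ (D - 1) := by
    have h1 := card_bd j k 0 (n + r')
    have e1 : n + r' + 1 = n + r := by rw [hrdef]; ring
    rw [e1] at h1
    have h2 : (2 * (n + r) + 1) ^ (D - 1) ≤ ((2 * r + 1) * (2 * n + 1)) ^ (D - 1) :=
      Nat.pow_le_pow_left hb _
    have h3 : (bd (slab j k) (bx j k 0 (n + r))).card ≤ C2 * (2 * n + 1) ^ (D - 1) := by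
      refine h1.trans ?_
      calc (k + 1) * (2 * D * (2 * (n + r) + 1) ^ (D - 1)) ≤
            (k + 1) * (2 * D * ((2 * r + 1) * (2 * n + 1)) ^ (D - 1)) := by gcongr
        _ = C2 * (2 * n + 1) ^ (D - 1) := by rw [hC2, mul_pow]; ring
    have h4 : ((bd (slab j k) (bx j k 0 (n + r))).card : ℝ) ≤
        ((C2 * (2 * n + 1) ^ (D - 1) : ℕ) : ℝ) := by exact_mod_cast h3
    refine h4.trans (le_of_eq ?_)
    push_cast
    rw [hL]
  -- two-arm bound
  have s0 : (0 : ℝ) < 1 / N := by positivity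
  have s1 : (1 : ℝ) / N ≤ 1 := by
    rw [div_le_one (by linarith)]; exact hN'
  have h1 := two_arm (lam := N) p0 p1 s0 s1 (by linarith) (Eb (bx j k 0 (n + r)))
    (bd (slab j k) (bx j k 0 (n + r)))
  have h2 := q2_avg p0.le p1 j k r n he
  have h3 : ∑ e' ∈ Eb (bx j k 0 (n + r)), q2 p (slab j k) (bx j k 0 (n + r)) e' =
      ∑ e ∈ Eb (bx j k 0 (n + r)), PrP (fun _ => p) (Eb (bx j k 0 (n + r)))
        (fun ω => e ∈ DD (Eb (bx j k 0 (n + r))) (bd (slab j k) (bx j k 0 (n + r))) ω) := rfl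
  rw [h3] at h2
  have h4 := h2.trans h1
  have e0 : (((2 * n + 1) ^ D : ℕ) : ℝ) = L ^ D := by push_cast; rw [hL]
  rw [e0] at h4
  -- simplify
  set E : ℝ := ((Eb (bx j k 0 (n + r))).card : ℝ) with hE
  set B : ℝ := ((bd (slab j k) (bx j k 0 (n + r))).card : ℝ) with hB
  have hE0 : 0 ≤ E := Nat.cast_nonneg _
  have hB0 : 0 ≤ B := Nat.cast_nonneg _
  have hLD : (0 : ℝ) < L ^ D := by positivity
  have hLD1 : (1 : ℝ) ≤ L ^ (D - 1) := one_le_pow₀ hL1
  have hLs : L ^ D = L ^ (D - 1) * L := by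
    rw [← pow_succ]; congr 1; omega
  have c1 : 3 / 4 * (1 / (N : ℝ)) * E ≤ (C1 * (1 / N)) * L ^ D := by
    have : 3 / 4 * (1 / (N : ℝ)) * E ≤ 1 * (1 / N) * (C1 * L ^ D) := by
      gcongr
      norm_num
    refine this.trans (le_of_eq ?_)
    ring
  have c2 : (B + 1) * N / (1 / N) ≤ ((C2 + 1) * (1 / N)) * L ^ D := by
    have f1 : B + 1 ≤ (C2 + 1) * L ^ (D - 1) := by
      have : (C2 + 1) * L ^ (D - 1) = C2 * L ^ (D - 1) + L ^ (D - 1) := by ring
      rw [this]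
      linarith
    have f2 : (N : ℝ) * N ≤ (1 / N) * L := by
      have : (1 / (N : ℝ)) * (N ^ 3) ≤ (1 / N) * L := by
        gcongr
        rw [hL, hn]
        push_cast
        have : (0 : ℝ) ≤ (N : ℝ) ^ 3 := by positivity
        linarith
      refine le_trans (le_of_eq ?_) this
      field_simp
    rw [div_div_eq_mul_div, div_one, hLs]
    calc (B + 1) * N * N = (B + 1) * (N * N) := by ring
      _ ≤ ((C2 + 1) * L ^ (D - 1)) * ((1 / N) * L) := by gcongr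
      _ = _ := by ring
  have c3 : E * ((B + 1) * Real.exp (-N)) ≤
      (C1 * ((C2 + 1) * ((3 * (N : ℝ) ^ 3) ^ D * Real.exp (-N)))) * L ^ D := by
    have f1 : B + 1 ≤ (C2 + 1) * L ^ D := by
      have e1 : (C2 + 1) * L ^ D = C2 * L ^ D + L ^ D := by ring
      have e2 : L ^ (D - 1) ≤ L ^ D := pow_le_pow_right₀ hL1 (by omega)
      have e3 : (C2 : ℝ) * L ^ (D - 1) ≤ C2 * L ^ D := by gcongr
      rw [e1]
      linarith
    have f2 : L ^ D ≤ (3 * (N : ℝ) ^ 3) ^ D := by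
      gcongr
      rw [hL, hn]
      push_cast
      have : (1 : ℝ) ≤ (N : ℝ) ^ 3 := one_le_pow₀ hN'
      linarith
    calc E * ((B + 1) * Real.exp (-N)) ≤
          (C1 * L ^ D) * (((C2 + 1) * (3 * (N : ℝ) ^ 3) ^ D) * Real.exp (-N)) := by
            gcongr
            exact f1.trans (by gcongr)
      _ = _ := by ring
  have hq : q2 p (slab j k) (bx j k 0 (2 * n + r)) e * L ^ D ≤
      (((C1 * (1 / N)) + ((C2 + 1) * (1 / N))) / p
        + C1 * ((C2 + 1) * ((3 * (N : ℝ) ^ 3) ^ D * Real.exp (-N)))) * L ^ D := by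
    rw [mul_comm]
    refine h4.trans ?_
    have c12 : (3 / 4 * (1 / (N : ℝ)) * E + (B + 1) * N / (1 / N)) / p ≤
        (((C1 * (1 / N)) * L ^ D) + ((C2 + 1) * (1 / N)) * L ^ D) / p := by
      gcongr
    have : (((C1 * (1 / N)) + ((C2 + 1) * (1 / N))) / p
        + C1 * ((C2 + 1) * ((3 * (N : ℝ) ^ 3) ^ D * Real.exp (-N)))) * L ^ D =
        (((C1 * (1 / N)) * L ^ D) + ((C2 + 1) * (1 / N)) * L ^ D) / p +
        (C1 * ((C2 + 1) * ((3 * (N : ℝ) ^ 3) ^ D * Real.exp (-N)))) * L ^ D := by ring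
    rw [this]
    linarith
  have hq' := le_of_mul_le_mul_right hq hLD
  refine hq'.trans ?_
  have hC1' : (1 : ℝ) ≤ C1 := by
    have : 1 ≤ C1 := by
      rw [hC1]
      have h1 : 0 < (2 * r + 1) ^ D := by positivity
      have h2 : 0 < (k + 1) * (2 * r + 1) ^ D * d := by positivity
      exact h2
    exact_mod_cast this
  have hC2' : (0 : ℝ) ≤ C2 := Nat.cast_nonneg _
  set T : ℝ := (3 * (N : ℝ) ^ 3) ^ D * Real.exp (-N) with hT
  have hT0 : 0 ≤ T := by positivity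
  set t : ℝ := 1 / N with ht
  have g1 : (C1 * t + (C2 + 1) * t) ≤ (C1 * (2 * (C2 + 1))) * (t + t) := by
    have e1 : (C1 : ℝ) * t ≤ (C1 * (2 * (C2 + 1))) * t := by
      apply mul_le_mul_of_nonneg_right _ s0.le
      nlinarith
    have e2 : ((C2 : ℝ) + 1) * t ≤ (C1 * (2 * (C2 + 1))) * t := by
      apply mul_le_mul_of_nonneg_right _ s0.le
      nlinarith
    linarith
  have g2 : (C1 : ℝ) * ((C2 + 1) * T) ≤ (C1 * (2 * (C2 + 1))) * T := by
    have e1 : (C1 : ℝ) * ((C2 + 1) * T) = (C1 * (C2 + 1)) * T := by ring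
    rw [e1]
    apply mul_le_mul_of_nonneg_right _ hT0
    nlinarith
  have g3 : (C1 * t + (C2 + 1) * t) / p ≤ ((C1 * (2 * (C2 + 1))) * (t + t)) / p := by
    gcongr
  have g4 : (C1 : ℝ) * (2 * (C2 + 1)) * ((t + t) / p + T) =
      ((C1 * (2 * (C2 + 1))) * (t + t)) / p + (C1 * (2 * (C2 + 1))) * T := by ring
  rw [g4]
  linarith

theorem tendsto_aux (p : ℝ) (D : ℕ) (C : ℝ) :
    Tendsto (fun N : ℕ => C * ((1 / (N : ℝ) + 1 / N) / p + (3 * (N : ℝ) ^ 3) ^ D * Real.exp (-N)))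
      atTop (𝓝 0) := by
  have h1 : Tendsto (fun N : ℕ => (1 / (N : ℝ) + 1 / N) / p) atTop (𝓝 0) := by
    have := (tendsto_one_div_atTop_nhds_zero_nat (𝕜 := ℝ)).add
      (tendsto_one_div_atTop_nhds_zero_nat (𝕜 := ℝ))
    have := this.div_const p
    simpa using this
  have h2 : Tendsto (fun N : ℕ => (3 * (N : ℝ) ^ 3) ^ D * Real.exp (-N)) atTop (𝓝 0) := by
    have h3 := (Real.tendsto_pow_mul_exp_neg_atTop_nhds_zero (3 * D)).comp
      tendsto_natCast_atTop_atTop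
    have h4 := h3.const_mul ((3 : ℝ) ^ D)
    rw [mul_zero] at h4
    refine h4.congr fun N => ?_
    simp only [Function.comp]
    rw [mul_pow, ← pow_mul]
    ring
  have := (h1.add h2).const_mul C
  simpa using this

/-- the two-arm probability of an edge of the slab tends to zero -/
theorem q2_small {p : ℝ} (p0 : 0 < p) (p1 : p ≤ 1) (hd : 2 ≤ d) (j : Fin d) (k : ℕ)
    {e : Sym2 (Fin d → ℤ)} {r : ℕ} (he : e ∈ Eb (bx j k 0 r)) {ε : ℝ} (hε : 0 < ε) :
    ∃ n0, ∀ n, n0 ≤ n → q2 p (slab j k) (bx j k 0 n) e ≤ ε := by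
  have he' : e ∈ Eb (bx j k 0 (r + 1)) := Eb_mono (bx_mono (fun i _ => by simp)) he
  have ht := tendsto_aux p (d - 1) (((k + 1) * (2 * (r + 1) + 1) ^ (d - 1) * d : ℕ) *
        (2 * (((k + 1) * (2 * (d - 1) * (2 * (r + 1) + 1) ^ (d - 1 - 1)) : ℕ) + 1)))
  obtain ⟨N, hN1, hN2⟩ := ((ht.eventually (gt_mem_nhds hε)).and (eventually_ge_atTop 1)).exists
  have h1 := q2_bound p0 p1 hd j k (r + 1) (by omega) N hN2 he'
  refine ⟨2 * N ^ 3 + (r + 1), fun n hn => ?_⟩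
  refine (q2_anti p0.le p1 (bx_mono (fun i _ => by
    simp only [sub_self, abs_zero, zero_add]
    exact_mod_cast hn)) (bx_sub _ _ _ _) ?_).trans (h1.trans hN1.le)
  exact Eb_mono (bx_mono (fun i _ => by
    simp only [sub_self, abs_zero, zero_add]
    exact_mod_cast (by omega : r + 1 ≤ 2 * N ^ 3 + (r + 1)))) he'

end Pool.Agent.H29.FK
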