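import Pool.Agent.H29.FK.Lim

/-!
Uniform lower bound for connection probabilities in a slab which percolates.
-/

set_option autoImplicit false
set_option linter.unusedSectionVars false
open Finset

namespace Pool.Agent.H29.FK

open Pool.Agent.H99.NC Pool.Agent.H75.Perc
open Classical Filter Topology

variable {d : ℕ}

/-! ### General lemmas -/

section gen

variable {α : Type*} [DecidableEq α]

theorem PrP_mem {p : ℝ} {E : Finset α} {e : α} (he : e ∈ E) :
    PrP (fun _ => p) E (fun ω => e ∈ ω) = p := by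
  obtain ⟨E', hE', rfl⟩ : ∃ E', e ∉ E' ∧ E = insert e E' :=
    ⟨E.erase e, Finset.notMem_erase _ _, (Finset.insert_erase he).symm⟩
  unfold PrP
  rw [Ex_insert _ hE']
  have h1 : Ex (fun _ => p) E' (fun ω => ind (e ∈ ω)) = 0 := by
    rw [Ex_congr (g := fun _ => 0) (fun ω hω => ind_false (fun h => hE' (hω h))), Ex_const]
  have h2 : Ex (fun _ => p) E' (fun ω => ind (e ∈ insert e ω)) = 1 := by
    rw [Ex_congr (g := fun _ => 1) (fun ω _ => ind_true (Finset.mem_insert_self e ω)), Ex_const]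
  rw [h1, h2]
  ring

theorem PrP_open {p : ℝ} (p0 : 0 ≤ p) (p1 : p ≤ 1) {E : Finset α} {e : α} (he : e ∈ E)
    (A : Finset α → Prop) :
    p * PrP (fun _ => p) E (fun ω => A (insert e ω)) ≤ PrP (fun _ => p) E A := by
  obtain ⟨E', hE', rfl⟩ : ∃ E', e ∉ E' ∧ E = insert e E' :=
    ⟨E.erase e, Finset.notMem_erase _ _, (Finset.insert_erase he).symm⟩
  unfold PrP
  rw [Ex_insert _ hE', Ex_insert _ hE']
  simp only [Finset.insert_idem]
  have h1 : 0 ≤ Ex (fun _ => p) E' (fun ω => ind (A ω)) :=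
    Ex_nonneg (Pb.const p0 p1) fun _ _ => ind_nonneg _
  have h2 : 0 ≤ (1 - p) * Ex (fun _ => p) E' (fun ω => ind (A ω)) :=
    mul_nonneg (by linarith) h1
  have h3 : (1 - p) * Ex (fun _ => p) E' (fun ω => ind (A (insert e ω))) +
      p * Ex (fun _ => p) E' (fun ω => ind (A (insert e ω))) =
      Ex (fun _ => p) E' (fun ω => ind (A (insert e ω))) := by ring
  rw [h3]
  linarith

end gen

theorem inc_Rch (X : Set (Fin d → ℤ)) (v : Fin d → ℤ) :
    Inc (fun ω : Finset (Sym2 (Fin d → ℤ)) => Rch ω X v) := fun _ _ h hr => hr.mono h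

/-! ### Lower bound for the connection to the boundary -/

theorem q1_step {p : ℝ} (p0 : 0 ≤ p) (p1 : p ≤ 1) {W : Set (Fin d → ℤ)}
    {Λ : Finset (Fin d → ℤ)} {x y : Fin d → ℤ} (h : s(x, y) ∈ Eb Λ) :
    q1 p W Λ x * p ≤ q1 p W Λ y := by
  unfold q1
  rw [← PrP_mem (p := p) h]
  have h1 := PrP_harris (Pb.const p0 p1) (Eb Λ) (inc_Rch (bd W Λ : Set (Fin d → ℤ)) x)
    (B := fun ω => s(x, y) ∈ ω) (fun _ _ h hr => h hr)
  rw [PrP_mem (p := p) h] at h1 ⊢
  exact h1.trans (PrP_mono (Pb.const p0 p1) fun ω _ h => h.1.tail h.2)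

theorem q1_lower {p θ : ℝ} (p0 : 0 ≤ p) (p1 : p ≤ 1) (hθ0 : 0 ≤ θ) {j : Fin d} {k : ℕ}
    {u0 : Fin d → ℤ} (hu0 : u0 ∈ slab j k)
    (hθ : ∀ n, θ ≤ q1 p (slab j k) (bx j k u0 n) u0) {n : ℕ} {v : Fin d → ℤ}
    (hv : v ∈ bx j k 0 n) : p ^ k * θ ≤ q1 p (slab j k) (bx j k 0 n) v := by
  -- vertices at the height of `u0`
  have h0 : ∀ w ∈ bx j k 0 n, w j = u0 j → θ ≤ q1 p (slab j k) (bx j k 0 n) w := by
    intro w hw hwj
    have hz : (w - u0) j = 0 := by simp [hwj]
    have h1 := q1_tra (p := p) (k := k) hz u0 (2 * n) u0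
    rw [add_sub_cancel] at h1
    have h2 := hθ (2 * n)
    rw [← h1] at h2
    refine h2.trans (q1_anti p0 p1 ?_ (bx_sub _ _ _ _) hw)
    apply bx_mono
    intro i hi
    have h3 := (mem_bx.1 hw).2 i hi
    simp only [Pi.zero_apply, zero_sub, zero_add] at h3 ⊢
    rw [abs_neg]
    have h4 := abs_le.2 h3
    push_cast
    linarith
  have key : ∀ m : ℕ, ∀ w ∈ bx j k 0 n, |w j - u0 j| = m →
      p ^ m * θ ≤ q1 p (slab j k) (bx j k 0 n) w := by
    intro m
    induction m with
    | zero =>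
      intro w hw hm
      rw [pow_zero, one_mul]
      apply h0 w hw
      have := abs_eq_zero.1 hm
      omega
    | succ m ih =>
      intro w hw hm
      have hw' := mem_bx.1 hw
      obtain ⟨t, ht, ht2⟩ : ∃ t : ℤ, (t = w j + 1 ∨ t = w j - 1) ∧ |t - u0 j| = m ∧
          0 ≤ t ∧ t ≤ k := by
        unfold slab at hu0
        rw [Set.mem_ofPred_eq] at hu0
        rcases abs_cases (w j - u0 j) with ⟨h1, h2⟩ | ⟨h1, h2⟩
        · refine ⟨w j - 1, Or.inr rfl, ?_, ?_, ?_⟩
          · rw [abs_of_nonneg (by push_cast at hm; omega)]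
            push_cast at hm
            omega
          · push_cast at hm; omega
          · omega
        · refine ⟨w j + 1, Or.inl rfl, ?_, ?_, ?_⟩
          · rw [abs_of_nonpos (by push_cast at hm; omega)]
            push_cast at hm
            omega
          · omega
          · push_cast at hm; omega
      set w' := Function.update w j t with hw'def
      have hj : w' j = t := Function.update_self _ _ _
      have hother : ∀ l, l ≠ j → w' l = w l := fun l hl => Function.update_of_ne hl _ _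
      have hw'in : w' ∈ bx j k 0 n := by
        rw [mem_bx]
        refine ⟨by rw [hj]; exact ht2.2, fun i hi => ?_⟩
        rw [hother i hi]
        exact hw'.2 i hi
      have hedge : s(w', w) ∈ Eb (bx j k 0 n) := by
        rw [mem_Eb']
        refine ⟨NN.of_coord (i := j) (fun l hl => (hother l hl).symm) ?_, hw'in, hw⟩
        rw [hj]
        omega
      have h1 := ih w' hw'in (by rw [hj]; exact ht2.1)
      have h2 := q1_step p0 p1 (W := slab j k) hedge
      have h3 := mul_le_mul_of_nonneg_right h1 p0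
      rw [pow_succ]
      nlinarith
  have hm : ∃ m : ℕ, |v j - u0 j| = m ∧ m ≤ k := by
    unfold slab at hu0
    rw [Set.mem_ofPred_eq] at hu0
    have hv' := (mem_bx.1 hv).1
    refine ⟨(|v j - u0 j|).toNat, (Int.toNat_of_nonneg (abs_nonneg _)).symm, ?_⟩
    have : |v j - u0 j| ≤ k := abs_le.2 ⟨by omega, by omega⟩
    omega
  obtain ⟨m, hm1, hm2⟩ := hm
  have h1 := key m v hv hm1
  have h2 : p ^ k ≤ p ^ m := pow_le_pow_of_le_one p0 p1 hm2
  have h3 := mul_le_mul_of_nonneg_right h2 hθ0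
  linarith

/-! ### Both connected to the boundary but not to each other -/

/-- probability that `u`, `v` are connected to the boundary but not to each other -/
noncomputable def q3 (p : ℝ) (W : Set (Fin d → ℤ)) (Λ : Finset (Fin d → ℤ)) (u v : Fin d → ℤ) :
    ℝ :=
  PrP (fun _ => p) (Eb Λ) (fun ω => Rch ω (bd W Λ) u ∧ Rch ω (bd W Λ) v ∧ ¬ Rch ω {u} v)

theorem rch_insert_edge {ω : Finset (Sym2 (Fin d → ℤ))} {x y v : Fin d → ℤ}
    {X : Set (Fin d → ℤ)} (h : Rch (insert s(x, y) ω) X v) :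
    Rch ω X v ∨ ((Rch ω X x ∨ Rch ω X y) ∧ (Rch ω {x} v ∨ Rch ω {y} v)) := by
  obtain ⟨a, ha, h⟩ := h
  induction h with
  | refl => exact Or.inl (Rch.of_mem ha)
  | @tail b c _ hbc ih =>
    rcases Finset.mem_insert.1 hbc with h | h
    · rcases Sym2.eq_iff.1 h with ⟨rfl, rfl⟩ | ⟨rfl, rfl⟩
      · right
        refine ⟨?_, Or.inr (Rch.of_mem rfl)⟩
        rcases ih with ih | ih
        · exact Or.inl ih
        · exact ih.1
      · right
        refine ⟨?_, Or.inl (Rch.of_mem rfl)⟩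
        rcases ih with ih | ih
        · exact Or.inr ih
        · exact ih.1
    · rcases ih with ih | ⟨h1, h2⟩
      · exact Or.inl (ih.tail h)
      · right
        refine ⟨h1, ?_⟩
        rcases h2 with h2 | h2
        · exact Or.inl (h2.tail h)
        · exact Or.inr (h2.tail h)

theorem q3_step {p : ℝ} (p0 : 0 < p) (p1 : p ≤ 1) {W : Set (Fin d → ℤ)}
    {Λ : Finset (Fin d → ℤ)} {u v w : Fin d → ℤ} (h : s(v, w) ∈ Eb Λ) :
    q3 p W Λ u w ≤ q3 p W Λ u v + q2 p W Λ s(v, w) + q3 p W Λ u v / p := by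
  have hPb := Pb.const (α := Sym2 (Fin d → ℤ)) p0.le p1
  have h1 := PrP_open p0.le p1 h
    (fun ω => Rch ω (bd W Λ) u ∧ Rch ω (bd W Λ) v ∧ ¬ Rch ω {u} v)
  have h2 : PrP (fun _ => p) (Eb Λ) (fun ω => Rch (insert s(v, w) ω) (bd W Λ) u ∧
      Rch (insert s(v, w) ω) (bd W Λ) v ∧ ¬ Rch (insert s(v, w) ω) {u} v) ≤
      q3 p W Λ u v / p := by
    rw [le_div_iff₀ p0, mul_comm]
    exact h1
  have h3 : q3 p W Λ u w ≤ PrP (fun _ => p) (Eb Λ) (fun ω =>
      ((Rch ω (bd W Λ) u ∧ Rch ω (bd W Λ) v ∧ ¬ Rch ω {u} v) ∨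
        s(v, w) ∈ DD (Eb Λ) (bd W Λ) ω) ∨
      (Rch (insert s(v, w) ω) (bd W Λ) u ∧
        Rch (insert s(v, w) ω) (bd W Λ) v ∧ ¬ Rch (insert s(v, w) ω) {u} v)) := by
    apply PrP_mono hPb
    intro ω hω ⟨hu, hw, huw⟩
    by_cases hv : Rch ω (bd W Λ) v
    · left
      by_cases huv : Rch ω {u} v
      · right
        unfold DD
        rw [Finset.mem_filter]
        refine ⟨h, fun hmem => huw (huv.tail hmem), v, by simp, w, by simp, hv, hw, fun hvw => ?_⟩
        exact huw (rch_trans huv hvw)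
      · left
        exact ⟨hu, hv, huv⟩
    · right
      have hins : ω ⊆ insert s(v, w) ω := Finset.subset_insert _ _
      refine ⟨hu.mono hins, ?_, fun huv => ?_⟩
      · refine (hw.mono hins).tail ?_
        rw [Sym2.eq_swap]
        exact Finset.mem_insert_self _ _
      · rcases rch_insert_edge huv with h1 | ⟨h1 | h1, _⟩
        · exact hv (rch_trans hu h1)
        · exact hv (rch_trans hu h1)
        · exact huw h1
  have h4 := PrP_or_le hPb (Eb Λ) (fun ω => (Rch ω (bd W Λ) u ∧ Rch ω (bd W Λ) v ∧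
      ¬ Rch ω {u} v) ∨ s(v, w) ∈ DD (Eb Λ) (bd W Λ) ω)
    (fun ω => Rch (insert s(v, w) ω) (bd W Λ) u ∧
        Rch (insert s(v, w) ω) (bd W Λ) v ∧ ¬ Rch (insert s(v, w) ω) {u} v)
  have h5 := PrP_or_le hPb (Eb Λ) (fun ω => Rch ω (bd W Λ) u ∧ Rch ω (bd W Λ) v ∧
      ¬ Rch ω {u} v) (fun ω => s(v, w) ∈ DD (Eb Λ) (bd W Λ) ω)
  have h6 : PrP (fun _ => p) (Eb Λ) (fun ω => s(v, w) ∈ DD (Eb Λ) (bd W Λ) ω) =
      q2 p W Λ s(v, w) := rfl
  have h7 : PrP (fun _ => p) (Eb Λ) (fun ω => Rch ω (bd W Λ) u ∧ Rch ω (bd W Λ) v ∧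
      ¬ Rch ω {u} v) = q3 p W Λ u v := rfl
  rw [h6, h7] at h5
  linarith

/-- adjacency inside a set -/
def AdW (W : Set (Fin d → ℤ)) (a b : Fin d → ℤ) : Prop := NN s(a, b) ∧ a ∈ W ∧ b ∈ W

/-- slabs are connected -/
theorem slab_conn {j : Fin d} {k : ℕ} : ∀ (m : ℕ) (u v : Fin d → ℤ), u ∈ slab j k → v ∈ slab j k →
    ∑ i, (|u i - v i|).toNat = m → Relation.ReflTransGen (AdW (slab j k)) u v := by
  intro m
  induction m with
  | zero =>
    intro u v _ _ h
    have : u = v := by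
      funext i
      have h1 := (Finset.sum_eq_zero_iff.1 h) i (Finset.mem_univ i)
      have h2 := abs_nonneg (u i - v i)
      have h3 : |u i - v i| = 0 := by omega
      have := abs_eq_zero.1 h3
      omega
    rw [this]
  | succ m ih =>
    intro u v hu hv h
    obtain ⟨i, hi⟩ : ∃ i, u i ≠ v i := by
      by_contra hcon
      push Not at hcon
      have : ∑ i, (|u i - v i|).toNat = 0 := by
        apply Finset.sum_eq_zero
        intro i _
        rw [hcon i]
        simp
      omega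
    obtain ⟨t, ht, ht2⟩ : ∃ t : ℤ, (t = u i + 1 ∨ t = u i - 1) ∧
        (|t - v i|).toNat + 1 = (|u i - v i|).toNat ∧ (min (u i) (v i) ≤ t ∧ t ≤ max (u i) (v i)) := by
      rcases lt_or_gt_of_ne hi with h1 | h1
      · refine ⟨u i + 1, Or.inl rfl, ?_, ?_⟩
        · rw [abs_of_nonpos (by omega), abs_of_nonpos (by omega)]
          omega
        · omega
      · refine ⟨u i - 1, Or.inr rfl, ?_, ?_⟩
        · rw [abs_of_nonneg (by omega), abs_of_nonneg (by omega)]
          omega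
        · omega
    set u' := Function.update u i t with hu'
    have hi' : u' i = t := Function.update_self _ _ _
    have hother : ∀ l, l ≠ i → u' l = u l := fun l hl => Function.update_of_ne hl _ _
    have hu'W : u' ∈ slab j k := by
      unfold slab at hu hv ⊢
      rw [Set.mem_ofPred_eq] at hu hv ⊢
      by_cases hij : j = i
      · subst hij
        rw [hi']
        omega
      · rw [hother j hij]
        exact hu
    have hsum : ∑ l, (|u' l - v l|).toNat = m := by
      have e1 := Finset.add_sum_erase univ (fun l => (|u' l - v l|).toNat) (Finset.mem_univ i)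
      have e2 := Finset.add_sum_erase univ (fun l => (|u l - v l|).toNat) (Finset.mem_univ i)
      have e3 : ∑ l ∈ univ.erase i, (|u' l - v l|).toNat = ∑ l ∈ univ.erase i, (|u l - v l|).toNat := by
        apply Finset.sum_congr rfl
        intro l hl
        rw [hother l (Finset.ne_of_mem_erase hl)]
      simp only [hi'] at e1
      omega
    refine Relation.ReflTransGen.head ⟨?_, hu, hu'W⟩ (ih u' v hu'W hv hsum)
    exact NN.of_coord (i := i) hother (by rw [hi']; exact ht)

theorem q3_small {p : ℝ} (p0 : 0 < p) (p1 : p ≤ 1) (hd : 2 ≤ d) (j : Fin d) (k : ℕ)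
    {u v : Fin d → ℤ} (hu : u ∈ slab j k) (hv : v ∈ slab j k) :
    ∀ ε : ℝ, 0 < ε → ∃ n0, ∀ n, n0 ≤ n → q3 p (slab j k) (bx j k 0 n) u v ≤ ε := by
  have hpath := slab_conn _ u v hu hv rfl
  clear hv
  induction hpath with
  | refl =>
    intro ε hε
    refine ⟨0, fun n _ => ?_⟩
    have : q3 p (slab j k) (bx j k 0 n) u u = 0 := by
      unfold q3 PrP
      rw [Ex_congr (g := fun _ => 0) (fun ω _ => ind_false ?_), Ex_const]
      rintro ⟨_, _, h⟩
      exact h (Rch.of_mem rfl)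
    rw [this]
    exact hε.le
  | @tail v w _ hvw ih =>
    intro ε hε
    obtain ⟨hNN, hv, hw⟩ := hvw
    -- the edge belongs to a box
    obtain ⟨r, hr⟩ : ∃ r : ℕ, s(v, w) ∈ Eb (bx j k 0 r) := by
      refine ⟨∑ i, ((|v i|).toNat + (|w i|).toNat), mem_Eb'.2 ⟨hNN, ?_, ?_⟩⟩
      · rw [mem_bx]
        refine ⟨hv, fun i _ => ?_⟩
        have h1 : (|v i|).toNat + (|w i|).toNat ≤ ∑ i, ((|v i|).toNat + (|w i|).toNat) :=
          Finset.single_le_sum (f := fun i => (|v i|).toNat + (|w i|).toNat)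
            (fun i _ => Nat.zero_le _) (Finset.mem_univ i)
        have h2 := abs_le.1 (le_refl |v i|)
        simp only [Pi.zero_apply]
        omega
      · rw [mem_bx]
        refine ⟨hw, fun i _ => ?_⟩
        have h1 : (|v i|).toNat + (|w i|).toNat ≤ ∑ i, ((|v i|).toNat + (|w i|).toNat) :=
          Finset.single_le_sum (f := fun i => (|v i|).toNat + (|w i|).toNat)
            (fun i _ => Nat.zero_le _) (Finset.mem_univ i)
        have h2 := abs_le.1 (le_refl |w i|)
        simp only [Pi.zero_apply]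
        omega
    obtain ⟨n1, hn1⟩ := q2_small p0 p1 hd j k hr (ε := ε / 3) (by positivity)
    obtain ⟨n2, hn2⟩ := ih (ε / 3) (by positivity)
    obtain ⟨n3, hn3⟩ := ih (ε / 3 * p) (by positivity)
    refine ⟨max r (max n1 (max n2 n3)), fun n hn => ?_⟩
    simp only [max_le_iff] at hn
    have hE : s(v, w) ∈ Eb (bx j k 0 n) := Eb_mono (bx_mono (fun i _ => by
      simp only [sub_self, abs_zero, zero_add]
      exact_mod_cast hn.1)) hr
    have h1 := q3_step p0 p1 (W := slab j k) (u := u) hE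
    have h2 := hn1 n hn.2.1
    have h3 := hn2 n hn.2.2.1
    have h4 := hn3 n hn.2.2.2
    have h5 : q3 p (slab j k) (bx j k 0 n) u v / p ≤ ε / 3 := by
      rw [div_le_iff₀ p0]
      exact h4
    linarith

/-- Uniform lower bound for connections inside the slab. -/
theorem star {p θ : ℝ} (p0 : 0 ≤ p) (p1 : p ≤ 1) (hθ0 : 0 < θ) (hd : 2 ≤ d) {j : Fin d} {k : ℕ}
    {u0 : Fin d → ℤ} (hu0 : u0 ∈ slab j k) (hθ : ∀ n, θ ≤ q1 p (slab j k) (bx j k u0 n) u0) :
    ∃ c : ℝ, 0 < c ∧ ∀ u ∈ slab j k, ∀ v ∈ slab j k, ∃ n : ℕ,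
      c ≤ PrP (fun _ => p) (Eb (bx j k 0 n)) (fun ω => Rch ω {u} v) := by
  have p0' : 0 < p := by
    rcases p0.lt_or_eq with h | h
    · exact h
    · exfalso
      -- for `p = 0` the point `u0` is not connected to the boundary
      subst h
      have h1 := hθ 1
      have h2 : q1 0 (slab j k) (bx j k u0 1) u0 = 0 := by
        unfold q1 PrP
        have : ∀ E : Finset (Sym2 (Fin d → ℤ)), ∀ f : Finset (Sym2 (Fin d → ℤ)) → ℝ,
            Ex (fun _ => (0 : ℝ)) E f = f ∅ := by
          intro E f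
          induction E using Finset.induction_on with
          | empty => simp
          | insert e E he ih => rw [Ex_insert _ he, ih]; ring
        rw [this]
        apply ind_false
        rintro ⟨x, hx, h⟩
        have hxu : x = u0 := by
          induction h with
          | refl => rfl
          | tail _ hbc _ => exact absurd hbc (Finset.notMem_empty _)
        subst hxu
        have h3 := bd_bx (n := 0) hx
        rw [Finset.mem_sdiff] at h3
        apply h3.2
        rw [mem_bx]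
        exact ⟨hu0, fun i _ => by simp⟩
      linarith
  have hPb := Pb.const (α := Sym2 (Fin d → ℤ)) p0 p1
  set c0 : ℝ := p ^ k * θ with hc0
  have hc0' : 0 < c0 := by positivity
  refine ⟨c0 ^ 2 / 2, by positivity, fun u hu v hv => ?_⟩
  obtain ⟨n0, hn0⟩ := q3_small p0' p1 hd j k hu hv (c0 ^ 2 / 2) (by positivity)
  -- a large box
  obtain ⟨n, hn, hun, hvn⟩ : ∃ n, n0 ≤ n ∧ u ∈ bx j k 0 n ∧ v ∈ bx j k 0 n := by
    refine ⟨n0 + ∑ i, ((|u i|).toNat + (|v i|).toNat), by omega, ?_, ?_⟩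
    · rw [mem_bx]
      refine ⟨hu, fun i _ => ?_⟩
      have h1 : (|u i|).toNat + (|v i|).toNat ≤ ∑ i, ((|u i|).toNat + (|v i|).toNat) :=
        Finset.single_le_sum (f := fun i => (|u i|).toNat + (|v i|).toNat)
          (fun i _ => Nat.zero_le _) (Finset.mem_univ i)
      have h2 := abs_le.1 (le_refl |u i|)
      simp only [Pi.zero_apply]
      omega
    · rw [mem_bx]
      refine ⟨hv, fun i _ => ?_⟩
      have h1 : (|u i|).toNat + (|v i|).toNat ≤ ∑ i, ((|u i|).toNat + (|v i|).toNat) :=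
        Finset.single_le_sum (f := fun i => (|u i|).toNat + (|v i|).toNat)
          (fun i _ => Nat.zero_le _) (Finset.mem_univ i)
      have h2 := abs_le.1 (le_refl |v i|)
      simp only [Pi.zero_apply]
      omega
  refine ⟨n, ?_⟩
  have h1 := q1_lower p0 p1 hθ0.le hu0 hθ hun
  have h2 := q1_lower p0 p1 hθ0.le hu0 hθ hvn
  have h3 := PrP_harris hPb (Eb (bx j k 0 n))
    (inc_Rch (bd (slab j k) (bx j k 0 n) : Set (Fin d → ℤ)) u)
    (inc_Rch (bd (slab j k) (bx j k 0 n) : Set (Fin d → ℤ)) v)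
  have h4 : c0 * c0 ≤ q1 p (slab j k) (bx j k 0 n) u * q1 p (slab j k) (bx j k 0 n) v :=
    mul_le_mul h1 h2 hc0'.le (PrP_nonneg hPb _ _)
  have h5 : PrP (fun _ => p) (Eb (bx j k 0 n)) (fun ω =>
      Rch ω (bd (slab j k) (bx j k 0 n) : Set (Fin d → ℤ)) u ∧
      Rch ω (bd (slab j k) (bx j k 0 n) : Set (Fin d → ℤ)) v) ≤
      PrP (fun _ => p) (Eb (bx j k 0 n)) (fun ω => Rch ω {u} v) +
      q3 p (slab j k) (bx j k 0 n) u v := by
    refine le_trans (PrP_mono hPb (B := fun ω => Rch ω {u} v ∨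
      (Rch ω (bd (slab j k) (bx j k 0 n)) u ∧ Rch ω (bd (slab j k) (bx j k 0 n)) v ∧
        ¬ Rch ω {u} v)) ?_) (PrP_or_le hPb _ _ _)
    intro ω _ h
    by_cases huv : Rch ω {u} v
    · exact Or.inl huv
    · exact Or.inr ⟨h.1, h.2, huv⟩
  have h6 := hn0 n hn
  have h7 : q1 p (slab j k) (bx j k 0 n) u * q1 p (slab j k) (bx j k 0 n) v ≤
      PrP (fun _ => p) (Eb (bx j k 0 n)) (fun ω =>
      Rch ω (bd (slab j k) (bx j k 0 n) : Set (Fin d → ℤ)) u ∧
      Rch ω (bd (slab j k) (bx j k 0 n) : Set (Fin d → ℤ)) v) := h3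
  nlinarith

end Pool.Agent.H29.FK
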